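import Pool.Agent.H1.TC.Chart

/-!
# The points at which all products vanish are finite in number
-/

set_option autoImplicit false

namespace Pool.Agent.H1.TC

open MvPolynomial

variable {τ : Type} [Fintype τ] [DecidableEq τ]

/-! ### Integrality and bounds -/

lemma exists_denominator (A : MvPolynomial τ ℚ) : ∃ (M : ℤ) (K : ℕ), M ≠ 0 ∧
    ∀ u v : τ → ℤ, (∀ j, v j ≠ 0) → ∃ m : ℤ,
      (M : ℚ) * (∏ j, (v j : ℚ)) ^ K * eval (fun j => (u j : ℚ) / (v j : ℚ)) A = m := by
  induction A using MvPolynomial.induction_on with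
  | C a =>
    refine ⟨a.den, 0, by exact_mod_cast a.den_nz, fun u v _ => ⟨a.num, ?_⟩⟩
    rw [pow_zero, mul_one, eval_C]
    have := Rat.den_mul_eq_num a
    push_cast
    exact this
  | add f g hf hg =>
    obtain ⟨M, K, hM, h1⟩ := hf
    obtain ⟨M', K', hM', h2⟩ := hg
    refine ⟨M * M', K + K', mul_ne_zero hM hM', fun u v hv => ?_⟩
    obtain ⟨m, hm⟩ := h1 u v hv
    obtain ⟨m', hm'⟩ := h2 u v hv
    refine ⟨m * M' * (∏ j, v j) ^ K' + m' * M * (∏ j, v j) ^ K, ?_⟩
    rw [map_add]
    push_cast
    rw [← hm, ← hm']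
    ring
  | mul_X f i hf =>
    obtain ⟨M, K, hM, h1⟩ := hf
    refine ⟨M, K + 1, hM, fun u v hv => ?_⟩
    obtain ⟨m, hm⟩ := h1 u v hv
    refine ⟨m * (u i * ∏ j ∈ Finset.univ.erase i, v j), ?_⟩
    rw [map_mul, eval_X]
    push_cast
    rw [← hm, pow_succ, ← Finset.mul_prod_erase Finset.univ (fun j => (v j : ℚ))
      (Finset.mem_univ i)]
    have : (v i : ℚ) ≠ 0 := by exact_mod_cast hv i
    field_simp

lemma exists_den (A : MvPolynomial τ ℚ) : ∃ D : ℤ, D ≠ 0 ∧
    ∀ u : τ → ℤ, ∃ m : ℤ, (D : ℚ) * eval (fun j => (u j : ℚ)) A = m := by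
  obtain ⟨M, K, hM, h⟩ := exists_denominator A
  refine ⟨M, hM, fun u => ?_⟩
  obtain ⟨m, hm⟩ := h u (fun _ => 1) (fun _ => one_ne_zero)
  refine ⟨m, ?_⟩
  rw [← hm]
  simp

omit [Fintype τ] [DecidableEq τ] in
lemma exists_bound (A : MvPolynomial τ ℚ) : ∃ C : ℚ, 0 < C ∧
    ∀ x : τ → ℚ, (∀ j, |x j| ≤ 1) → |eval x A| ≤ C := by
  induction A using MvPolynomial.induction_on with
  | C a =>
    refine ⟨|a| + 1, by positivity, fun x _ => ?_⟩
    rw [eval_C]
    linarith
  | add f g hf hg =>
    obtain ⟨C, hC, h1⟩ := hf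
    obtain ⟨C', hC', h2⟩ := hg
    refine ⟨C + C', by positivity, fun x hx => ?_⟩
    rw [map_add]
    exact (abs_add_le _ _).trans (add_le_add (h1 x hx) (h2 x hx))
  | mul_X f i hf =>
    obtain ⟨C, hC, h1⟩ := hf
    refine ⟨C, hC, fun x hx => ?_⟩
    rw [map_mul, eval_X, abs_mul]
    calc |eval x f| * |x i| ≤ C * 1 := mul_le_mul (h1 x hx) (hx i) (abs_nonneg _) hC.le
      _ = C := mul_one C

/-- a divisor of all products divides the common factor -/
lemma dvd_of_charts {g M : ℤ} {α : τ → Fin 2 → ℤ} (hc : ∀ j, IsCoprime (α j 0) (α j 1))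
    (h : ∀ ε : τ → Fin 2, g ∣ M * ∏ j, α j (ε j)) : g ∣ M := by
  choose u v huv using hc
  set w : τ → Fin 2 → ℤ := fun j b => if b = 0 then u j else v j with hw
  have h1 : ∀ j, ∑ b : Fin 2, w j b * α j b = 1 := by
    intro j
    rw [Fin.sum_univ_two]
    simp only [hw, if_true, one_ne_zero, if_false]
    exact huv j
  have h2 : ∑ ε ∈ Fintype.piFinset (fun _ : τ => (Finset.univ : Finset (Fin 2))),
      ∏ j, w j (ε j) * α j (ε j) = 1 := by
    have e := Finset.prod_univ_sum (fun _ : τ => (Finset.univ : Finset (Fin 2)))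
      (fun j b => w j b * α j b)
    rw [← e]
    exact Finset.prod_eq_one fun j _ => h1 j
  have h3 : M = ∑ ε ∈ Fintype.piFinset (fun _ : τ => (Finset.univ : Finset (Fin 2))),
      M * ∏ j, w j (ε j) * α j (ε j) := by
    rw [← Finset.mul_sum, h2, mul_one]
  rw [h3]
  refine Finset.dvd_sum fun ε _ => ?_
  rw [Finset.prod_mul_distrib, mul_left_comm]
  exact (h ε).mul_left _

/-! ### The transfer to other charts -/

/-- the coordinates in a chart -/
def xe (ε : τ → Fin 2) (z : τ → ℚ) (j : τ) : ℚ := if ε j = 0 then z j else 1 / z j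

lemma pt_scale {ε : τ → Fin 2} {z : τ → ℚ} (hz : ∀ j, ε j = 0 ∨ z j ≠ 0) :
    pt ε (xe ε z) = fun p => (if ε p.1 = 0 then 1 else 1 / z p.1) *
      pt (fun _ => 0) z p := by
  funext ⟨j, b⟩
  have hb : b = 0 ∨ b = 1 := by
    rcases b with ⟨v, hv⟩
    have : v = 0 ∨ v = 1 := by omega
    rcases this with rfl | rfl
    · exact Or.inl rfl
    · exact Or.inr rfl
  have hε : ε j = 0 ∨ ε j = 1 := by
    rcases h : ε j with ⟨v, hv⟩
    have : v = 0 ∨ v = 1 := by omega
    rcases this with rfl | rfl
    · exact Or.inl rfl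
    · exact Or.inr rfl
  rcases hε with h | h <;> rcases hb with rfl | rfl
  · simp [pt, xe, h]
  · simp [pt, xe, h]
  · simp [pt, xe, h]
  · have h0 : z j ≠ 0 := (hz j).resolve_left (by rw [h]; decide)
    simp [pt, xe, h, h0]

/-- the vanishing of the products in all charts -/
lemma transfer {F : MvPolynomial (τ × Fin 2) ℚ} (hF : IsForm F) {ε : τ → Fin 2} {z : τ → ℚ}
    (hz : ∀ j, ε j = 0 ∨ z j ≠ 0)
    (h : ∀ j, aeval (pt (fun _ => 0) z) (nP (j, 1) F) = 0) (j : τ) :
    aeval (pt ε (xe ε z)) (nP (j, 1 - ε j) F) = 0 := by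
  set t : τ → ℚ := fun j => if ε j = 0 then 1 else 1 / z j with ht
  have htj : t j ≠ 0 := by
    simp only [ht]
    split_ifs with h0
    · exact one_ne_zero
    · exact one_div_ne_zero ((hz j).resolve_left h0)
  have h0 : aeval (pt (fun _ => 0) z) (nP (j, 0) F) = 0 := by
    have e := congrArg (aeval (pt (fun _ => 0) z)) (nP_cov hF j)
    simp only [map_mul, map_neg, map_pow, aeval_X, h j, mul_zero] at e
    have e1 : pt (fun _ => (0 : Fin 2)) z (j, 0) = 1 := by simp [pt]
    rw [e1, one_pow, one_mul] at e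
    exact neg_eq_zero.1 e.symm
  have hb : ∀ b, aeval (pt (fun _ => 0) z) (nP (j, b) F) = 0 := by
    intro b
    have hb : b = 0 ∨ b = 1 := by
      rcases b with ⟨v, hv⟩
      have : v = 0 ∨ v = 1 := by omega
      rcases this with rfl | rfl
      · exact Or.inl rfl
      · exact Or.inr rfl
    rcases hb with rfl | rfl
    · exact h0
    · exact h j
  have e := nP_scale hF j (1 - ε j) t (pt (fun _ => 0) z)
  rw [hb, mul_zero] at e
  rw [pt_scale hz]
  exact (mul_eq_zero.1 e).resolve_left (pow_ne_zero 17 htj)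

/-- the point with coprime integral coordinates -/
def ca (z : τ → ℚ) (j : τ) (b : Fin 2) : ℤ := if b = 0 then (z j).den else (z j).num

omit [Fintype τ] [DecidableEq τ] in
lemma ca_coprime (z : τ → ℚ) (j : τ) : IsCoprime (ca z j 0) (ca z j 1) := by
  simp only [ca, if_true, one_ne_zero, if_false]
  rw [Int.isCoprime_iff_gcd_eq_one, Int.gcd_comm]
  exact (z j).reduced

/-- **the points at which all products vanish are finite in number** -/
theorem finite_zeros {F : MvPolynomial (τ × Fin 2) ℚ} (hF : IsForm F) (hs : Smooth F) :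
    {z : τ → ℚ | ∀ j, aeval (pt (fun _ => 0) z) (nP (j, 1) F) = 0}.Finite := by
  classical
  choose A B hAB using fun ε => exists_combo hF hs ε
  choose M K hM hK using fun ε => exists_denominator (A ε)
  choose C hC hCb using fun ε => exists_bound (A ε)
  obtain ⟨D, hD, hDF⟩ := exists_den F
  set MM : ℤ := ∏ ε, D * M ε with hMM
  set KK : ℕ := ∑ ε, (K ε + 3) with hKK
  set CC : ℚ := ∑ ε, C ε with hCC
  have hMM0 : MM ≠ 0 := Finset.prod_ne_zero_iff.2 fun ε _ => mul_ne_zero hD (hM ε)
  have hCC0 : 0 < CC := Finset.sum_pos (fun ε _ => hC ε) Finset.univ_nonempty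
  obtain ⟨N, hN⟩ := exists_nat_gt (CC * |(MM : ℚ)|)
  -- the bound
  have key : ∀ z : τ → ℚ, (∀ j, aeval (pt (fun _ => 0) z) (nP (j, 1) F) = 0) →
      ∀ j, |(z j).num| ≤ N ∧ ((z j).den : ℤ) ≤ N := by
    intro z hz
    -- the value of the form
    set fa : ℚ := eval (fun p : τ × Fin 2 => ((ca z p.1 p.2 : ℤ) : ℚ)) F with hfa
    obtain ⟨g, hg⟩ := hDF fun p => ca z p.1 p.2
    rw [← hfa] at hg
    -- charts in which the point lies
    have hch : ∀ ε : τ → Fin 2, (∀ j, ca z j (ε j) ≠ 0) →
        eval (xe ε z) (A ε) * fa = ∏ j, ((ca z j (ε j) : ℤ) : ℚ) ^ 3 ∧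
        ∃ m : ℤ, (M ε : ℚ) * (∏ j, ((ca z j (ε j) : ℤ) : ℚ)) ^ K ε * eval (xe ε z) (A ε) = m := by
      intro ε hε
      have hz' : ∀ j, ε j = 0 ∨ z j ≠ 0 := by
        intro j
        by_cases h0 : ε j = 0
        · exact Or.inl h0
        · right
          have h1 := hε j
          simp only [ca, h0, if_false] at h1
          intro h2
          rw [h2] at h1
          exact h1 rfl
      have hq : ∀ j, ((ca z j (ε j) : ℤ) : ℚ) ≠ 0 := fun j => by exact_mod_cast hε j
      have hx : ∀ j, xe ε z j = ((ca z j (1 - ε j) : ℤ) : ℚ) / ((ca z j (ε j) : ℤ) : ℚ) := by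
        intro j
        have hden : ((z j).den : ℚ) ≠ 0 := by exact_mod_cast (z j).den_nz
        have hnd : z j = ((z j).num : ℚ) / ((z j).den : ℚ) := (Rat.num_div_den (z j)).symm
        by_cases h0 : ε j = 0
        · simp only [xe, ca, h0, if_true, sub_zero, one_ne_zero, if_false]
          exact_mod_cast hnd
        · have h1 : ε j = 1 := by
            rcases h : ε j with ⟨v, hv⟩
            have : v = 0 ∨ v = 1 := by omega
            rcases this with rfl | rfl
            · exact absurd h h0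
            · rfl
          simp only [xe, ca, h1, one_ne_zero, if_false, sub_self, if_true]
          conv_lhs => rw [hnd]
          rw [one_div_div]
          push_cast
          rfl
      constructor
      · have e1 : eval (xe ε z) (A ε) * eval (xe ε z) (chart ε F) = 1 := by
          have e := congrArg (eval (xe ε z)) (hAB ε)
          rw [map_add, map_mul, map_sum, map_one] at e
          rw [← e]
          symm
          rw [add_eq_left]
          refine Finset.sum_eq_zero fun j _ => ?_
          rw [map_mul]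
          have h1 := transfer hF hz' hz j
          rw [← aeval_chart] at h1
          have h2 : eval (xe ε z) (chart ε (nP (j, 1 - ε j) F)) = 0 := h1
          rw [h2, mul_zero]
        have e2 : fa = (∏ j, ((ca z j (ε j) : ℤ) : ℚ) ^ 3) * eval (xe ε z) (chart ε F) := by
          have h1 := scale (K := ℚ) hF.mw (fun j => ((ca z j (ε j) : ℤ) : ℚ)) (pt ε (xe ε z))
          rw [← aeval_chart] at h1
          have h2 : (fun p : τ × Fin 2 => ((ca z p.1 (ε p.1) : ℤ) : ℚ) * pt ε (xe ε z) p) =
              fun p : τ × Fin 2 => ((ca z p.1 p.2 : ℤ) : ℚ) := by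
            funext ⟨j, b⟩
            simp only [pt]
            split_ifs with hb
            · rw [hb, mul_one]
            · have hb' : b = 1 - ε j := by
                revert hb
                generalize ε j = e
                revert b e
                decide
              rw [hx j, hb']
              field_simp [hq j]
          rw [h2] at h1
          exact h1
        rw [e2, mul_left_comm, e1, mul_one]
      · obtain ⟨m, hm⟩ := hK ε (fun j => ca z j (1 - ε j)) (fun j => ca z j (ε j)) hε
        refine ⟨m, ?_⟩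
        have e : xe ε z = fun j => ((ca z j (1 - ε j) : ℤ) : ℚ) / ((ca z j (ε j) : ℤ) : ℚ) :=
          funext hx
        rw [← hm, ← e]
    -- divisibility
    have hdvd : ∀ ε : τ → Fin 2, g ∣ D * M ε * (∏ j, ca z j (ε j)) ^ (K ε + 3) := by
      intro ε
      by_cases hε : ∀ j, ca z j (ε j) ≠ 0
      · obtain ⟨h1, m, hm⟩ := hch ε hε
        refine ⟨m, ?_⟩
        have h2 : (((D * M ε * (∏ j, ca z j (ε j)) ^ (K ε + 3) : ℤ)) : ℚ) = ((g * m : ℤ) : ℚ) := by
          push_cast
          rw [← hg, ← hm, pow_add]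
          have h3 : (∏ j, ((ca z j (ε j) : ℤ) : ℚ)) ^ 3 = eval (xe ε z) (A ε) * fa := by
            rw [h1, Finset.prod_pow]
          rw [h3]
          ring
        exact_mod_cast h2
      · push Not at hε
        obtain ⟨j, hj⟩ := hε
        rw [Finset.prod_eq_zero (Finset.mem_univ j) hj, zero_pow (by omega), mul_zero]
        exact dvd_zero g
    have hgM : g ∣ MM := by
      refine dvd_of_charts (α := fun j b => ca z j b ^ KK)
        (fun j => (ca_coprime z j).pow) fun ε => ?_
      rw [Finset.prod_pow]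
      have h1 : D * M ε ∣ MM := Finset.dvd_prod_of_mem (fun ε => D * M ε) (Finset.mem_univ ε)
      have h2 : K ε + 3 ≤ KK := Finset.single_le_sum (f := fun ε => K ε + 3)
        (fun _ _ => Nat.zero_le _) (Finset.mem_univ ε)
      exact (hdvd ε).trans (mul_dvd_mul h1 (pow_dvd_pow _ h2))
    -- the largest coordinates
    set ε : τ → Fin 2 := fun j => if |ca z j 1| ≤ |ca z j 0| then 0 else 1 with hε
    have hden : ∀ j, 0 < ca z j 0 := fun j => by
      simp only [ca, if_true]
      exact_mod_cast (z j).den_pos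
    have hmax : ∀ j b, |ca z j b| ≤ |ca z j (ε j)| := by
      intro j b
      have hb : b = 0 ∨ b = 1 := by
        rcases b with ⟨v, hv⟩
        have : v = 0 ∨ v = 1 := by omega
        rcases this with rfl | rfl
        · exact Or.inl rfl
        · exact Or.inr rfl
      simp only [hε]
      split_ifs with h
      · rcases hb with rfl | rfl
        · exact le_rfl
        · exact h
      · rcases hb with rfl | rfl
        · exact (not_le.1 h).le
        · exact le_rfl
    have hne : ∀ j, ca z j (ε j) ≠ 0 := by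
      intro j h0
      have h1 := hmax j 0
      rw [h0, abs_zero, abs_of_pos (hden j)] at h1
      exact absurd (hden j) (not_lt.2 h1)
    have h1abs : ∀ j, (1 : ℚ) ≤ |((ca z j (ε j) : ℤ) : ℚ)| := by
      intro j
      have : (1 : ℤ) ≤ |ca z j (ε j)| := Int.one_le_abs (hne j)
      exact_mod_cast this
    obtain ⟨h1, m, hm⟩ := hch ε hne
    have hxe : ∀ j, |xe ε z j| ≤ 1 := by
      intro j
      have hq : (0 : ℚ) < |((ca z j (ε j) : ℤ) : ℚ)| := lt_of_lt_of_le one_pos (h1abs j)
      have hnd : z j = ((z j).num : ℚ) / ((z j).den : ℚ) := (Rat.num_div_den (z j)).symm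
      have hdq : (0 : ℚ) < ((z j).den : ℚ) := by exact_mod_cast (z j).den_pos
      simp only [xe]
      have hle := hmax j
      split_ifs with h0
      · rw [hnd, abs_div, abs_of_pos hdq, div_le_one hdq]
        have h2 := hle 1
        rw [h0] at h2
        simp only [ca, if_true, one_ne_zero, if_false] at h2
        rw [abs_of_nonneg (Int.natCast_nonneg _)] at h2
        exact_mod_cast h2
      · have h2 := hle 0
        have h3 : ca z j (ε j) = (z j).num := by simp only [ca, h0, if_false]
        rw [h3] at h2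
        simp only [ca, if_true] at h2
        rw [abs_of_nonneg (Int.natCast_nonneg _)] at h2
        have hn0 : (0 : ℚ) < |((z j).num : ℚ)| := by
          have : (z j).num ≠ 0 := by
            rw [← h3]
            exact hne j
          exact abs_pos.2 (by exact_mod_cast this)
        rw [hnd, one_div_div, abs_div, abs_of_pos hdq, div_le_one hn0]
        exact_mod_cast h2
    have hA : |eval (xe ε z) (A ε)| ≤ CC := (hCb ε _ hxe).trans
      (Finset.single_le_sum (f := C) (fun ε _ => (hC ε).le) (Finset.mem_univ ε))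
    have hg0 : g ≠ 0 := by
      rintro rfl
      rw [zero_dvd_iff] at hgM
      exact hMM0 hgM
    have hfag : |fa| ≤ |(MM : ℚ)| := by
      have h2 : |(g : ℚ)| ≤ |(MM : ℚ)| := by
        have : |g| ≤ |MM| := by
          rw [Int.abs_eq_natAbs, Int.abs_eq_natAbs]
          exact_mod_cast Nat.le_of_dvd (Int.natAbs_pos.2 hMM0) (Int.natAbs_dvd_natAbs.2 hgM)
        exact_mod_cast this
      have h3 : |fa| ≤ |(g : ℚ)| := by
        rw [← hg, abs_mul]
        have : (1 : ℚ) ≤ |(D : ℚ)| := by exact_mod_cast Int.one_le_abs hD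
        exact le_mul_of_one_le_left (abs_nonneg _) this
      exact h3.trans h2
    have hprod : ∏ j, |((ca z j (ε j) : ℤ) : ℚ)| ^ 3 ≤ CC * |(MM : ℚ)| := by
      have h2 : ∏ j, |((ca z j (ε j) : ℤ) : ℚ)| ^ 3 = |eval (xe ε z) (A ε)| * |fa| := by
        rw [← abs_mul, h1, Finset.abs_prod]
        refine Finset.prod_congr rfl fun j _ => ?_
        rw [abs_pow]
      rw [h2]
      exact mul_le_mul hA hfag (abs_nonneg _) hCC0.le
    have hall : ∀ j b, |ca z j b| ≤ N := by
      intro j b
      have h2 : |((ca z j (ε j) : ℤ) : ℚ)| ≤ ∏ j, |((ca z j (ε j) : ℤ) : ℚ)| ^ 3 := by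
        have h3 : |((ca z j (ε j) : ℤ) : ℚ)| ≤ |((ca z j (ε j) : ℤ) : ℚ)| ^ 3 :=
          le_self_pow₀ (h1abs j) (by norm_num)
        refine h3.trans ?_
        rw [← Finset.mul_prod_erase Finset.univ _ (Finset.mem_univ j)]
        refine le_mul_of_one_le_right (by positivity) ?_
        exact Finset.prod_induction (fun j => |((ca z j (ε j) : ℤ) : ℚ)| ^ 3) (fun r => 1 ≤ r)
          (fun a b ha hb => one_le_mul_of_one_le_of_one_le ha hb) le_rfl
          fun i _ => one_le_pow₀ (h1abs i)
      have h4 : ((|ca z j (ε j)| : ℤ) : ℚ) < (N : ℚ) := by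
        push_cast
        exact (h2.trans hprod).trans_lt hN
      have h5 : |ca z j (ε j)| < (N : ℤ) := by exact_mod_cast h4
      exact (hmax j b).trans h5.le
    intro j
    constructor
    · have := hall j 1
      simpa only [ca, one_ne_zero, if_false] using this
    · have := hall j 0
      simp only [ca, if_true] at this
      rwa [abs_of_nonneg (Int.natCast_nonneg _)] at this
  -- finiteness
  have hfin : {q : ℚ | |q.num| ≤ N ∧ (q.den : ℤ) ≤ N}.Finite := by
    have h1 : ((fun p : ℤ × ℕ => (p.1 : ℚ) / (p.2 : ℚ)) ''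
        (Set.Icc (-(N : ℤ)) N ×ˢ Set.Iic N)).Finite :=
      ((Set.finite_Icc _ _).prod (Set.finite_Iic _)).image _
    refine h1.subset ?_
    rintro q ⟨h2, h3⟩
    refine ⟨(q.num, q.den), ⟨?_, ?_⟩, Rat.num_div_den q⟩
    · rw [Set.mem_Icc]
      exact abs_le.1 h2
    · rw [Set.mem_Iic]
      exact_mod_cast h3
  refine (Set.Finite.pi' (fun _ : τ => hfin)).subset fun z hz j => ?_
  exact key z hz j

end Pool.Agent.H1.TC
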