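import Pool.Agent.H1.TC.Slice

/-!
# Coordinate slices of smooth forms are generically smooth
-/

set_option autoImplicit false

namespace Pool.Agent.H1.TC

open MvPolynomial

variable {σ : Type} [Fintype σ] [DecidableEq σ]

/-- smooth forms have no singular zeros over any field -/
lemma smooth_field {F : MvPolynomial (σ × Fin 2) ℚ} (hs : Smooth F) {E : Type} [Field E]
    [Algebra ℚ E] (ε : σ → Fin 2) (x : σ → E) : ∃ p, aeval (pt ε x) (pderiv p F) ≠ 0 := by
  set g : σ × Fin 2 → MvPolynomial σ ℚ := fun p => chart ε (pderiv p F) with hg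
  have htop : Ideal.span (Set.range g) = ⊤ := by
    by_contra hne
    obtain ⟨M, hM, hIM⟩ := Ideal.exists_le_maximal _ hne
    obtain ⟨x, hx⟩ := eq_vanishingIdeal_singleton_of_isMaximal ℂ hM
    obtain ⟨p, hp⟩ := hs (pt ε x) (pt_ne ε x)
    apply hp
    have : g p ∈ M := hIM (Ideal.subset_span ⟨p, rfl⟩)
    rw [hx, mem_vanishingIdeal_singleton_iff] at this
    rw [← aeval_chart]
    exact this
  have h1 : (1 : MvPolynomial σ ℚ) ∈ Ideal.span (Set.range g) := by
    rw [htop]
    exact Submodule.mem_top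
  obtain ⟨c, hc⟩ := Ideal.mem_span_range_iff_exists_fun.1 h1
  by_contra hcon
  push Not at hcon
  have h2 := congrArg (aeval x) hc
  rw [map_sum, map_one] at h2
  apply one_ne_zero (α := E)
  rw [← h2]
  refine Finset.sum_eq_zero fun p _ => ?_
  rw [map_mul, aeval_chart, hcon p, mul_zero]

/-- the generic slice in a chart -/
noncomputable def gen (J : Finset σ) (ε : J → Fin 2) :
    MvPolynomial (σ × Fin 2) ℚ →+* MvPolynomial J (MvPolynomial σ ℚ) :=
  eval₂Hom ((C : MvPolynomial σ ℚ →+* MvPolynomial J (MvPolynomial σ ℚ)).comp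
    (C : ℚ →+* MvPolynomial σ ℚ)) fun p =>
    if h : p.1 ∈ J then (if p.2 = ε ⟨p.1, h⟩ then 1 else X ⟨p.1, h⟩)
    else if p.2 = 0 then 1 else C (X p.1)

section

attribute [local instance] MvPolynomial.algebraMvPolynomial

/-- **generic smoothness of the slices in a chart** -/
theorem exists_R {F : MvPolynomial (σ × Fin 2) ℚ} (hF : IsForm F) (hs : Smooth F) {J : Finset σ}
    (hJ : J.Nonempty) (ε : J → Fin 2) :
    ∃ R : MvPolynomial σ ℚ, R ≠ 0 ∧ (C R : MvPolynomial J (MvPolynomial σ ℚ)) ∈
      Ideal.span (Set.range fun p : J × Fin 2 => gen J ε (pderiv ((p.1 : σ), p.2) F)) := by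
  by_contra hcon
  push Not at hcon
  set I := Ideal.span (Set.range fun p : J × Fin 2 => gen J ε (pderiv ((p.1 : σ), p.2) F)) with hI
  have hdisj : Disjoint (((nonZeroDivisors (MvPolynomial σ ℚ)).map
      (C (σ := J) (R := MvPolynomial σ ℚ)) : Submonoid _) :
      Set (MvPolynomial J (MvPolynomial σ ℚ))) (I : Set (MvPolynomial J (MvPolynomial σ ℚ))) := by
    rw [Set.disjoint_left]
    rintro _ ⟨R, hR, rfl⟩ hRI
    exact hcon R (nonZeroDivisors.ne_zero hR) hRI
  have hne := (IsLocalization.map_algebraMap_ne_top_iff_disjoint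
    ((nonZeroDivisors (MvPolynomial σ ℚ)).map (C (σ := J) (R := MvPolynomial σ ℚ)))
    (MvPolynomial J (Kf σ)) I).2 hdisj
  obtain ⟨M, hM, hIM⟩ := Ideal.exists_le_maximal _ hne
  obtain ⟨x, hx⟩ := eq_vanishingIdeal_singleton_of_isMaximal (Ef σ) hM
  set ε' : σ → Fin 2 := fun i => if h : i ∈ J then ε ⟨i, h⟩ else 0 with hε'
  set x' : σ → Ef σ := fun i => if h : i ∈ J then x ⟨i, h⟩ else
    algebraMap (MvPolynomial σ ℚ) (Ef σ) (X i) with hx'
  -- evaluation
  have hy : ∀ G : MvPolynomial (σ × Fin 2) ℚ, aeval x (algebraMap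
      (MvPolynomial J (MvPolynomial σ ℚ)) (MvPolynomial J (Kf σ)) (gen J ε G)) =
      aeval (pt ε' x') G := by
    intro G
    have h : ((aeval x : MvPolynomial J (Kf σ) →ₐ[Kf σ] Ef σ) : MvPolynomial J (Kf σ) →+* Ef σ).comp
        ((algebraMap (MvPolynomial J (MvPolynomial σ ℚ)) (MvPolynomial J (Kf σ))).comp
          (gen J ε)) = ((aeval (pt ε' x') : MvPolynomial (σ × Fin 2) ℚ →ₐ[ℚ] Ef σ) :
            MvPolynomial (σ × Fin 2) ℚ →+* Ef σ) := by
      apply MvPolynomial.ringHom_ext
      · intro q
        rw [← RingHom.comp_apply, ← RingHom.comp_apply _ C q]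
        congr 1
        exact Subsingleton.elim _ _
      · rintro ⟨i, b⟩
        simp only [RingHom.comp_apply, RingHom.coe_coe, aeval_X]
        unfold gen
        rw [eval₂Hom_X']
        by_cases hi : i ∈ J
        · simp only [pt, hε', hx']
          rw [dif_pos hi, dif_pos hi, dif_pos hi]
          split_ifs
          · rw [map_one, map_one]
          · rw [MvPolynomial.algebraMap_def, map_X, aeval_X]
        · simp only [pt, hε', hx']
          rw [dif_neg hi, dif_neg hi, dif_neg hi]
          split_ifs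
          · rw [map_one, map_one]
          · rw [MvPolynomial.algebraMap_def, map_C, aeval_C]
            exact (IsScalarTower.algebraMap_apply (MvPolynomial σ ℚ) (Kf σ) (Ef σ) _).symm
    exact RingHom.congr_fun h G
  have h1 : ∀ j ∈ J, ∀ b, aeval (pt ε' x') (pderiv (j, b) F) = 0 := by
    intro j hj b
    rw [← hy]
    have : algebraMap (MvPolynomial J (MvPolynomial σ ℚ)) (MvPolynomial J (Kf σ))
        (gen J ε (pderiv (j, b) F)) ∈ M :=
      hIM (Ideal.mem_map_of_mem _ (Ideal.subset_span ⟨(⟨j, hj⟩, b), rfl⟩))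
    rw [hx, mem_vanishingIdeal_singleton_iff] at this
    exact this
  -- the form vanishes
  obtain ⟨j₀, hj₀⟩ := hJ
  have h3 : (3 : Ef σ) ≠ 0 := by norm_num
  have hF0 : aeval (pt ε' x') F = 0 := by
    have e := congrArg (aeval (pt ε' x')) (euler (hF.wt j₀))
    simp only [map_add, map_mul, h1 j₀ hj₀, mul_zero, add_zero, map_natCast] at e
    push_cast at e
    exact (mul_eq_zero.1 e.symm).resolve_left h3
  obtain ⟨⟨i, b⟩, hp⟩ := smooth_field hs ε' x'
  apply hp
  by_cases hi : i ∈ J
  · exact h1 i hi b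
  obtain ⟨D, hD⟩ := exists_der σ i
  -- the derivative in the direction of the coordinate
  have hi1 : aeval (pt ε' x') (pderiv (i, 1) F) = 0 := by
    have e := der_aeval D (pt ε' x') F
    rw [hF0, map_zero] at e
    rw [Finset.sum_eq_single ((i, 1) : σ × Fin 2)] at e
    · have e1 : pt ε' x' (i, 1) = algebraMap (MvPolynomial σ ℚ) (Ef σ) (X i) := by
        simp only [pt, hε', hx']
        rw [dif_neg hi, dif_neg hi, if_neg (by decide)]
      rw [e1, hD, pderiv_X_self, map_one, mul_one] at e
      exact e.symm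
    · rintro ⟨k, c⟩ _ hk
      by_cases hkJ : k ∈ J
      · rw [h1 k hkJ, zero_mul]
      · have hc : c = 0 ∨ c = 1 := by
          rcases c with ⟨v, hv⟩
          have : v = 0 ∨ v = 1 := by omega
          rcases this with rfl | rfl
          · exact Or.inl rfl
          · exact Or.inr rfl
        rcases hc with rfl | rfl
        · have e1 : pt ε' x' (k, 0) = 1 := by
            simp only [pt, hε']
            rw [dif_neg hkJ, if_pos rfl]
          rw [e1, Derivation.map_one_eq_zero, mul_zero]
        · have e1 : pt ε' x' (k, 1) = algebraMap (MvPolynomial σ ℚ) (Ef σ) (X k) := by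
            simp only [pt, hε', hx']
            rw [dif_neg hkJ, dif_neg hkJ, if_neg (by decide)]
          have hki : k ≠ i := by
            rintro rfl
            exact hk rfl
          rw [e1, hD, pderiv_X_of_ne hki, map_zero, mul_zero]
    · intro h'
      exact absurd (Finset.mem_univ _) h'
  have hb : b = 0 ∨ b = 1 := by
    rcases b with ⟨v, hv⟩
    have : v = 0 ∨ v = 1 := by omega
    rcases this with rfl | rfl
    · exact Or.inl rfl
    · exact Or.inr rfl
  rcases hb with rfl | rfl
  · have e := congrArg (aeval (pt ε' x')) (euler (hF.wt i))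
    have e1 : pt ε' x' (i, 0) = 1 := by
      simp only [pt, hε']
      rw [dif_neg hi, if_pos rfl]
    simp only [map_add, map_mul, hF0, mul_zero, hi1, add_zero, aeval_X, e1, one_mul] at e
    exact e
  · exact hi1

end

end Pool.Agent.H1.TC
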