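import Pool.Agent.H1.TC.Bert

/-!
# Smooth coordinate slices exist
-/

set_option autoImplicit false

namespace Pool.Agent.H1.TC

open MvPolynomial

variable {σ : Type} [Fintype σ] [DecidableEq σ]

omit [Fintype σ] [DecidableEq σ] in
lemma aeval_alg {K : Type} [Field K] [Algebra ℚ K] (z : σ → ℚ) (G : MvPolynomial σ ℚ) :
    aeval (fun i => algebraMap ℚ K (z i)) G = algebraMap ℚ K (eval z G) := by
  induction G using MvPolynomial.induction_on with
  | C a => rw [aeval_C, eval_C]
  | add f g hf hg => rw [map_add, map_add, map_add, hf, hg]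
  | mul_X f i hf => rw [map_mul, map_mul, map_mul, hf, aeval_X, eval_X]

/-- **smooth coordinate slices** -/
theorem exists_smooth_slice {F : MvPolynomial (σ × Fin 2) ℚ} (hF : IsForm F) (hs : Smooth F)
    {J : Finset σ} (hJ : J.Nonempty) : ∃ z : σ → ℚ, Smooth (slice J z F) := by
  classical
  choose R hR hRI using fun ε => exists_R hF hs hJ ε
  have hP : (∏ ε, R ε) ≠ 0 := Finset.prod_ne_zero_iff.2 fun ε _ => hR ε
  obtain ⟨z, hz⟩ : ∃ z : σ → ℚ, eval z (∏ ε, R ε) ≠ 0 := by
    by_contra hcon
    push Not at hcon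
    apply hP
    apply MvPolynomial.funext
    intro z
    rw [hcon z, map_zero]
  refine ⟨z, fun y hy => ?_⟩
  by_contra hcon
  push Not at hcon
  -- the chart
  set ε : J → Fin 2 := fun j => if y (j, 0) ≠ 0 then 0 else 1 with hε
  have hyε : ∀ j, y (j, ε j) ≠ 0 := by
    intro j
    simp only [hε]
    split_ifs with h
    · exact h
    · exact (hy j).resolve_left h
  set t : J → ℂ := fun j => (y (j, ε j))⁻¹ with ht
  set x : J → ℂ := fun j => t j * y (j, 1 - ε j) with hx
  have hpt : (fun p : J × Fin 2 => t p.1 * y p) = pt ε x := by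
    funext ⟨j, b⟩
    simp only [pt]
    split_ifs with hb
    · rw [hb]
      exact inv_mul_cancel₀ (hyε j)
    · have hb' : b = 1 - ε j := by
        revert hb
        generalize ε j = e
        revert b e
        decide
      rw [hb']
  have hzero : ∀ p, aeval (pt ε x) (pderiv p (slice J z F)) = 0 := by
    rintro ⟨j, b⟩
    rw [← hpt, scale (mw_pderiv (j := j) (a := 2) b (isForm_slice hF J z).mw rfl), hcon,
      mul_zero]
  -- evaluation
  set θ : MvPolynomial J (MvPolynomial σ ℚ) →+* ℂ := eval₂Hom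
    ((aeval fun i => algebraMap ℚ ℂ (z i) : MvPolynomial σ ℚ →ₐ[ℚ] ℂ) :
      MvPolynomial σ ℚ →+* ℂ) x with hθ
  have hθG : ∀ G, θ (gen J ε G) = aeval (pt ε x) (slice J z G) := by
    intro G
    have h : θ.comp (gen J ε) = ((aeval (pt ε x) : MvPolynomial (J × Fin 2) ℚ →ₐ[ℚ] ℂ) :
        MvPolynomial (J × Fin 2) ℚ →+* ℂ).comp
          ((slice J z : MvPolynomial (σ × Fin 2) ℚ →ₐ[ℚ] MvPolynomial (J × Fin 2) ℚ) :
            MvPolynomial (σ × Fin 2) ℚ →+* MvPolynomial (J × Fin 2) ℚ) := by
      apply MvPolynomial.ringHom_ext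
      · intro q
        rw [← RingHom.comp_apply _ C q, ← RingHom.comp_apply _ C q]
        congr 1
        exact Subsingleton.elim _ _
      · rintro ⟨i, b⟩
        simp only [RingHom.comp_apply, RingHom.coe_coe]
        unfold gen slice
        rw [eval₂Hom_X', aeval_X]
        by_cases hi : i ∈ J
        · rw [dif_pos hi, dif_pos hi, aeval_X]
          simp only [pt]
          split_ifs
          · exact map_one _
          · rw [hθ, eval₂Hom_X']
        · rw [dif_neg hi, dif_neg hi]
          simp only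
          split_ifs
          · rw [map_one, map_one]
          · rw [hθ, eval₂Hom_C, aeval_C]
            simp
    exact RingHom.congr_fun h G
  have hker : Ideal.span (Set.range fun p : J × Fin 2 =>
      gen J ε (pderiv ((p.1 : σ), p.2) F)) ≤ RingHom.ker θ := by
    rw [Ideal.span_le]
    rintro _ ⟨⟨j, b⟩, rfl⟩
    change θ (gen J ε (pderiv ((j : σ), b) F)) = 0
    rw [hθG, ← pderiv_slice]
    exact hzero (j, b)
  have h1 : θ (C (R ε)) = 0 := hker (hRI ε)
  rw [hθ, eval₂Hom_C] at h1
  have h2 : (aeval fun i => algebraMap ℚ ℂ (z i)) (R ε) = algebraMap ℚ ℂ (eval z (R ε)) :=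
    aeval_alg z (R ε)
  have h3 : algebraMap ℚ ℂ (eval z (R ε)) = 0 := by
    rw [← h2]
    exact h1
  have h4 : eval z (R ε) = 0 := by
    rw [← map_zero (algebraMap ℚ ℂ)] at h3
    exact (algebraMap ℚ ℂ).injective h3
  apply hz
  rw [map_prod]
  exact Finset.prod_eq_zero (Finset.mem_univ ε) h4

end Pool.Agent.H1.TC
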