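import Pool.Agent.H1.TC.Form

/-!
# Charts, and the Nullstellensatz
-/

set_option autoImplicit false

namespace Pool.Agent.H1.TC

open MvPolynomial

variable {τ : Type} [Fintype τ] [DecidableEq τ]

/-- the affine chart -/
noncomputable def chart (ε : τ → Fin 2) : MvPolynomial (τ × Fin 2) ℚ →ₐ[ℚ] MvPolynomial τ ℚ :=
  aeval fun p => if p.2 = ε p.1 then 1 else X p.1

/-- the points of the chart -/
def pt {K : Type} [One K] (ε : τ → Fin 2) (x : τ → K) (p : τ × Fin 2) : K :=
  if p.2 = ε p.1 then 1 else x p.1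

section

omit [Fintype τ] [DecidableEq τ]

lemma aeval_chart {K : Type} [Field K] [Algebra ℚ K] (ε : τ → Fin 2) (x : τ → K)
    (G : MvPolynomial (τ × Fin 2) ℚ) : aeval x (chart ε G) = aeval (pt ε x) G := by
  have h : ((aeval x : MvPolynomial τ ℚ →ₐ[ℚ] K).comp (chart ε)) = aeval (pt ε x) := by
    apply MvPolynomial.algHom_ext
    intro p
    simp only [chart, AlgHom.comp_apply, aeval_X, pt]
    split_ifs
    · exact map_one _
    · exact aeval_X _ _
  exact DFunLike.congr_fun h G

end

/-- at the zeros of the form -/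
lemma pderiv_zero_of_nP {K : Type} [Field K] [CharZero K] [Algebra ℚ K]
    {F : MvPolynomial (τ × Fin 2) ℚ} {p : τ × Fin 2} {y : τ × Fin 2 → K} (h0 : aeval y F = 0)
    (h : aeval y (nP p F) = 0) : aeval y (pderiv p F) = 0 := by
  unfold nP hP qP at h
  simp only [map_mul, map_sub, map_add, map_pow, map_ofNat, h0] at h
  have h1 : (-512 : K) * (aeval y (pderiv p F)) ^ 17 = 0 := by
    rw [← h]
    ring
  rcases mul_eq_zero.1 h1 with h2 | h2
  · norm_num at h2
  · exact pow_eq_zero_iff (by norm_num) |>.1 h2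

lemma all_pderiv_zero {K : Type} [Field K] [CharZero K] [Algebra ℚ K]
    {F : MvPolynomial (τ × Fin 2) ℚ} (hF : IsForm F) {ε : τ → Fin 2} {x : τ → K}
    (h0 : aeval (pt ε x) F = 0) {j : τ}
    (h : aeval (pt ε x) (pderiv (j, 1 - ε j) F) = 0) (b : Fin 2) :
    aeval (pt ε x) (pderiv (j, b) F) = 0 := by
  have e := congrArg (aeval (pt ε x)) (euler (hF.wt j))
  simp only [map_add, map_mul, aeval_X, h0, mul_zero] at e
  have hε : ε j = 0 ∨ ε j = 1 := by
    rcases h : ε j with ⟨v, hv⟩
    have : v = 0 ∨ v = 1 := by omega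
    rcases this with rfl | rfl
    · exact Or.inl rfl
    · exact Or.inr rfl
  have hb : b = 0 ∨ b = 1 := by
    rcases b with ⟨v, hv⟩
    have : v = 0 ∨ v = 1 := by omega
    rcases this with rfl | rfl
    · exact Or.inl rfl
    · exact Or.inr rfl
  rcases hε with hε | hε
  · have e1 : pt ε x (j, 0) = 1 := by simp [pt, hε]
    rw [hε, sub_zero] at h
    rw [h, mul_zero, add_zero, e1, one_mul] at e
    rcases hb with rfl | rfl
    · exact e
    · exact h
  · have e1 : pt ε x (j, 1) = 1 := by simp [pt, hε]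
    rw [hε, sub_self] at h
    rw [h, mul_zero, zero_add, e1, one_mul] at e
    rcases hb with rfl | rfl
    · exact h
    · exact e

lemma pt_ne {K : Type} [Field K] (ε : τ → Fin 2) (x : τ → K) (j : τ) :
    pt ε x (j, 0) ≠ 0 ∨ pt ε x (j, 1) ≠ 0 := by
  have hε : ε j = 0 ∨ ε j = 1 := by
    rcases h : ε j with ⟨v, hv⟩
    have : v = 0 ∨ v = 1 := by omega
    rcases this with rfl | rfl
    · exact Or.inl rfl
    · exact Or.inr rfl
  rcases hε with hε | hε
  · left
    simp [pt, hε]
  · right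
    simp [pt, hε]

/-- **the Nullstellensatz** for the form and the products -/
theorem exists_combo {F : MvPolynomial (τ × Fin 2) ℚ} (hF : IsForm F) (hs : Smooth F)
    (ε : τ → Fin 2) : ∃ (A : MvPolynomial τ ℚ) (B : τ → MvPolynomial τ ℚ),
      A * chart ε F + ∑ j, B j * chart ε (nP (j, 1 - ε j) F) = 1 := by
  set g : Option τ → MvPolynomial τ ℚ := fun o => o.elim (chart ε F)
    fun j => chart ε (nP (j, 1 - ε j) F) with hg
  have htop : Ideal.span (Set.range g) = ⊤ := by
    by_contra hne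
    obtain ⟨M, hM, hIM⟩ := Ideal.exists_le_maximal _ hne
    obtain ⟨x, hx⟩ := eq_vanishingIdeal_singleton_of_isMaximal ℂ hM
    have h1 : ∀ o, aeval x (g o) = 0 := by
      intro o
      have : g o ∈ M := hIM (Ideal.subset_span ⟨o, rfl⟩)
      rw [hx, mem_vanishingIdeal_singleton_iff] at this
      exact this
    have h2 : aeval (pt ε x) F = 0 := by
      rw [← aeval_chart]
      exact h1 none
    obtain ⟨⟨j, b⟩, hp⟩ := hs (pt ε x) (pt_ne ε x)
    apply hp
    refine all_pderiv_zero hF h2 ?_ b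
    refine pderiv_zero_of_nP h2 ?_
    rw [← aeval_chart]
    exact h1 (some j)
  have h1 : (1 : MvPolynomial τ ℚ) ∈ Ideal.span (Set.range g) := by
    rw [htop]
    exact Submodule.mem_top
  obtain ⟨c, hc⟩ := Ideal.mem_span_range_iff_exists_fun.1 h1
  rw [Fintype.sum_option] at hc
  exact ⟨c none, fun j => c (some j), hc⟩

end Pool.Agent.H1.TC
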