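import Mathlib

/-!
# The duplication map on the invariant `x³ / k` of the points of `y² = x³ + k`: infinite orbits

Multiplication by two on the curves `y² = x³ + k` acts on `t = x³ / k` by
`τ(t) = t (t - 8)³ / (64 (t + 1)³)`. The `2`-adic valuation shows that the orbits of all rational
numbers `t` other than `0, -1, -4, 8` are infinite.
-/

set_option autoImplicit false

namespace Pool.Agent.H1.TC

/-- the `2`-adic valuation -/
noncomputable abbrev v2 (t : ℚ) : ℤ := padicValRat 2 t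

/-- the map -/
def tau (t : ℚ) : ℚ := t * (t - 8) ^ 3 / (64 * (t + 1) ^ 3)

lemma v2_mul {a b : ℚ} (ha : a ≠ 0) (hb : b ≠ 0) : v2 (a * b) = v2 a + v2 b :=
  padicValRat.mul ha hb

lemma v2_div {a b : ℚ} (ha : a ≠ 0) (hb : b ≠ 0) : v2 (a / b) = v2 a - v2 b :=
  padicValRat.div ha hb

lemma v2_pow (a : ℚ) (n : ℕ) : v2 (a ^ n) = n * v2 a := padicValRat.pow a

lemma v2_two : v2 2 = 1 := by
  have := padicValRat.self (p := 2) (by norm_num)
  exact_mod_cast this

lemma v2_one : v2 1 = 0 := padicValRat.one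

lemma v2_four : v2 4 = 2 := by
  rw [show (4 : ℚ) = 2 ^ 2 by norm_num, v2_pow, v2_two]
  norm_num

lemma v2_eight : v2 8 = 3 := by
  rw [show (8 : ℚ) = 2 ^ 3 by norm_num, v2_pow, v2_two]
  norm_num

lemma v2_neg_eight : v2 (-8) = 3 := by
  change padicValRat 2 (-8) = 3
  rw [padicValRat.neg]
  exact v2_eight

lemma v2_sixtyfour : v2 64 = 6 := by
  rw [show (64 : ℚ) = 2 ^ 6 by norm_num, v2_pow, v2_two]
  norm_num

lemma v2_add_lt {a b : ℚ} (h : a + b ≠ 0) (ha : a ≠ 0) (hb : b ≠ 0) (hv : v2 a < v2 b) :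
    v2 (a + b) = v2 a := padicValRat.add_eq_of_lt h ha hb hv

lemma v2_add_gt {a b : ℚ} (h : a + b ≠ 0) (ha : a ≠ 0) (hb : b ≠ 0) (hv : v2 b < v2 a) :
    v2 (a + b) = v2 b := by
  rw [add_comm]
  exact padicValRat.add_eq_of_lt (by rwa [add_comm]) hb ha hv

lemma v2_add_min {a b : ℚ} (h : a + b ≠ 0) : min (v2 a) (v2 b) ≤ v2 (a + b) :=
  padicValRat.min_le_padicValRat_add h

/-- the exceptional values -/
def Bad (t : ℚ) : Prop := t = 0 ∨ t = -1 ∨ t = -4 ∨ t = 8

section

variable {t : ℚ}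

lemma v2_tau (h0 : t ≠ 0) (h1 : t ≠ -1) (h8 : t ≠ 8) :
    v2 (tau t) = v2 t + 3 * v2 (t - 8) - 6 - 3 * v2 (t + 1) := by
  have e1 : t + 1 ≠ 0 := fun h => h1 (by linarith)
  have e8 : t - 8 ≠ 0 := sub_ne_zero.2 h8
  unfold tau
  rw [v2_div (mul_ne_zero h0 (pow_ne_zero 3 e8)) (mul_ne_zero (by norm_num) (pow_ne_zero 3 e1)),
    v2_mul h0 (pow_ne_zero 3 e8), v2_mul (by norm_num) (pow_ne_zero 3 e1), v2_pow, v2_pow,
    v2_sixtyfour]
  push_cast
  ring

lemma tau_ne_zero (h0 : t ≠ 0) (h1 : t ≠ -1) (h8 : t ≠ 8) : tau t ≠ 0 := by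
  have e1 : t + 1 ≠ 0 := fun h => h1 (by linarith)
  have e8 : t - 8 ≠ 0 := sub_ne_zero.2 h8
  unfold tau
  exact div_ne_zero (mul_ne_zero h0 (pow_ne_zero 3 e8))
    (mul_ne_zero (by norm_num) (pow_ne_zero 3 e1))

lemma neg_one_v : v2 (-1) = 0 := by
  change padicValRat 2 (-1) = 0
  rw [padicValRat.neg]
  exact v2_one

lemma neg_four_v : v2 (-4) = 2 := by
  change padicValRat 2 (-4) = 2
  rw [padicValRat.neg]
  exact v2_four

lemma not_bad_of_v {s : ℚ} (hs : s ≠ 0) (h : v2 s < 0) : ¬ Bad s := by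
  rintro (rfl | rfl | rfl | rfl)
  · exact hs rfl
  · rw [neg_one_v] at h; omega
  · rw [neg_four_v] at h; omega
  · rw [v2_eight] at h; omega

/-- small valuation: the valuation decreases -/
lemma small (hb : ¬ Bad t) (hv : v2 t ≤ 1) : v2 (tau t) < v2 t ∧ v2 (tau t) < 0 := by
  simp only [Bad, not_or] at hb
  obtain ⟨h0, h1, h4, h8⟩ := hb
  have e1 : t + 1 ≠ 0 := fun h => h1 (by linarith)
  have e8 : t - 8 ≠ 0 := sub_ne_zero.2 h8
  have e8' : t + -8 ≠ 0 := by rwa [← sub_eq_add_neg]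
  rw [v2_tau h0 h1 h8]
  have k8 : v2 (t - 8) = v2 t := by
    rw [sub_eq_add_neg]
    exact v2_add_lt e8' h0 (by norm_num) (by rw [v2_neg_eight]; omega)
  rw [k8]
  rcases lt_trichotomy (v2 t) 0 with h | h | h
  · have k1 : v2 (t + 1) = v2 t := v2_add_lt e1 h0 one_ne_zero (by rw [v2_one]; exact h)
    rw [k1]
    omega
  · have k1 := v2_add_min (a := t) (b := 1) e1
    rw [v2_one, h] at k1
    simp only [min_self] at k1
    omega
  · have k1 : v2 (t + 1) = v2 1 := v2_add_gt e1 h0 one_ne_zero (by rw [v2_one]; exact h)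
    rw [v2_one] at k1
    rw [k1]
    omega

/-- large valuation: the valuation increases -/
lemma large (hb : ¬ Bad t) (hv : 3 ≤ v2 t) : v2 t < v2 (tau t) := by
  simp only [Bad, not_or] at hb
  obtain ⟨h0, h1, h4, h8⟩ := hb
  have e1 : t + 1 ≠ 0 := fun h => h1 (by linarith)
  have e8 : t - 8 ≠ 0 := sub_ne_zero.2 h8
  have e8' : t + -8 ≠ 0 := by rwa [← sub_eq_add_neg]
  rw [v2_tau h0 h1 h8]
  have k1 : v2 (t + 1) = v2 1 := v2_add_gt e1 h0 one_ne_zero (by rw [v2_one]; omega)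
  rw [v2_one] at k1
  rw [k1]
  have k8 := v2_add_min (a := t) (b := -8) e8'
  rw [v2_neg_eight, ← sub_eq_add_neg] at k8
  have : 3 ≤ v2 (t - 8) := le_trans (le_min hv le_rfl) k8
  omega

/-- odd numerators and denominators -/
lemma odd_of_v {s : ℚ} (hs : s ≠ 0) (h : v2 s = 0) : Odd s.num ∧ Odd (s.den : ℤ) := by
  have hn : s.num ≠ 0 := Rat.num_ne_zero.2 hs
  have hd : (s.den : ℤ) ≠ 0 := by exact_mod_cast s.den_ne_zero
  have hcop := s.reduced
  have hv : v2 s = padicValInt 2 s.num - padicValNat 2 s.den := rfl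
  rw [hv] at h
  rcases Int.even_or_odd s.num with h1 | h1
  · exfalso
    have h2 : ¬ 2 ∣ s.den := by
      intro h2
      have h3 : 2 ∣ s.num.natAbs := by
        rw [← Int.natCast_dvd]
        exact h1.two_dvd
      have := Nat.dvd_gcd h3 h2
      rw [hcop] at this
      omega
    have h4 : padicValNat 2 s.den = 0 := padicValNat.eq_zero_of_not_dvd h2
    have h5 : 1 ≤ padicValInt 2 s.num := by
      unfold padicValInt
      refine one_le_padicValNat_of_dvd (by omega) ?_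
      rw [← Int.natCast_dvd]
      exact h1.two_dvd
    omega
  · refine ⟨h1, ?_⟩
    rcases Int.even_or_odd (s.den : ℤ) with h2 | h2
    · exfalso
      have h3 : ¬ 2 ∣ s.num.natAbs := by
        intro h3
        rw [← Int.natCast_dvd] at h3
        exact (Int.not_even_iff_odd.2 h1) (even_iff_two_dvd.2 h3)
      have h4 : padicValInt 2 s.num = 0 := padicValNat.eq_zero_of_not_dvd h3
      have h5 : 1 ≤ padicValNat 2 s.den := by
        refine one_le_padicValNat_of_dvd s.den_ne_zero ?_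
        exact_mod_cast h2.two_dvd
      omega
    · exact h2

/-- the auxiliary cubic at units -/
lemma cubic_val {s : ℚ} (hs : s ≠ 0) (h : v2 s = 0) :
    s ^ 3 + 57 * s ^ 2 + 3 * s + 1 ≠ 0 ∧ v2 (s ^ 3 + 57 * s ^ 2 + 3 * s + 1) = 1 := by
  obtain ⟨ha, hb⟩ := odd_of_v hs h
  set a : ℤ := s.num with hadef
  set b : ℤ := (s.den : ℤ) with hbdef
  have hb0 : (b : ℚ) ≠ 0 := by
    have : (s.den : ℚ) ≠ 0 := by exact_mod_cast s.den_ne_zero
    rw [hbdef]
    exact_mod_cast this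
  have hs' : s = a / b := by
    rw [hadef, hbdef]
    push_cast
    exact (Rat.num_div_den s).symm
  set c : ℤ := a ^ 3 + 57 * a ^ 2 * b + 3 * a * b ^ 2 + b ^ 3 with hc
  have hodd : ∃ k : ℤ, Odd k ∧ c = 2 * k := by
    obtain ⟨x, hx⟩ := ha
    obtain ⟨y, hy⟩ := hb
    refine ⟨31 + 120 * x + 240 * x * y + 12 * x * y ^ 2 + 120 * x ^ 2 + 228 * x ^ 2 * y +
      4 * x ^ 3 + 66 * y + 12 * y ^ 2 + 4 * y ^ 3, ?_, ?_⟩
    · refine ⟨15 + 60 * x + 120 * x * y + 6 * x * y ^ 2 + 60 * x ^ 2 + 114 * x ^ 2 * y +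
        2 * x ^ 3 + 33 * y + 6 * y ^ 2 + 2 * y ^ 3, by ring⟩
    · rw [hc, hx, hy]
      ring
  obtain ⟨k, hk, hck⟩ := hodd
  have hk0 : k ≠ 0 := by
    rintro rfl
    exact absurd hk (by decide)
  have hval : s ^ 3 + 57 * s ^ 2 + 3 * s + 1 = 2 * k / b ^ 3 := by
    have h1 : ((c : ℤ) : ℚ) = 2 * k := by rw [hck]; push_cast; ring
    rw [← h1, hc, hs']
    push_cast
    field_simp
  have vb : v2 (b : ℚ) = 0 := by
    change padicValRat 2 ((b : ℤ) : ℚ) = 0
    rw [padicValRat.of_int]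
    have : padicValInt 2 b = 0 := by
      refine padicValInt.eq_zero_of_not_dvd ?_
      intro h2
      exact (Int.not_even_iff_odd.2 hb) (even_iff_two_dvd.2 h2)
    rw [this]
    rfl
  have vk : v2 (k : ℚ) = 0 := by
    change padicValRat 2 ((k : ℤ) : ℚ) = 0
    rw [padicValRat.of_int]
    have : padicValInt 2 k = 0 := by
      refine padicValInt.eq_zero_of_not_dvd ?_
      intro h2
      exact (Int.not_even_iff_odd.2 hk) (even_iff_two_dvd.2 h2)
    rw [this]
    rfl
  have hkq : (k : ℚ) ≠ 0 := by exact_mod_cast hk0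
  rw [hval]
  refine ⟨div_ne_zero (mul_ne_zero two_ne_zero hkq) (pow_ne_zero 3 hb0), ?_⟩
  rw [v2_div (mul_ne_zero two_ne_zero hkq) (pow_ne_zero 3 hb0), v2_mul two_ne_zero hkq, v2_pow,
    v2_two, vk, vb]
  norm_num

/-- valuation two: the distance to `-4` decreases -/
lemma mid (hb : ¬ Bad t) (hv : v2 t = 2) : v2 (tau t) = 2 ∧ tau t ≠ -4 ∧
    v2 (t + 4) < v2 (tau t + 4) := by
  simp only [Bad, not_or] at hb
  obtain ⟨h0, h1, h4, h8⟩ := hb
  have e1 : t + 1 ≠ 0 := fun h => h1 (by linarith)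
  have e4 : t + 4 ≠ 0 := fun h => h4 (by linarith)
  have e8 : t - 8 ≠ 0 := sub_ne_zero.2 h8
  have e8' : t + -8 ≠ 0 := by rwa [← sub_eq_add_neg]
  have k1 : v2 (t + 1) = v2 1 := v2_add_gt e1 h0 one_ne_zero (by rw [v2_one]; omega)
  rw [v2_one] at k1
  have k8 : v2 (t - 8) = v2 t := by
    rw [sub_eq_add_neg]
    exact v2_add_lt e8' h0 (by norm_num) (by rw [v2_neg_eight]; omega)
  set s : ℚ := t / 4 with hs
  have hs0 : s ≠ 0 := div_ne_zero h0 (by norm_num)
  have hvs : v2 s = 0 := by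
    rw [hs, v2_div h0 (by norm_num), v2_four, hv]
    norm_num
  obtain ⟨c0, c1⟩ := cubic_val hs0 hvs
  have key : tau t + 4 = (t + 4) * (s ^ 3 + 57 * s ^ 2 + 3 * s + 1) / (t + 1) ^ 3 := by
    unfold tau
    rw [hs]
    field_simp
    ring
  have vkey : v2 (tau t + 4) = v2 (t + 4) + 1 := by
    rw [key, v2_div (mul_ne_zero e4 c0) (pow_ne_zero 3 e1), v2_mul e4 c0, v2_pow, c1, k1]
    push_cast
    ring
  refine ⟨?_, ?_, ?_⟩
  · rw [v2_tau h0 h1 h8, k1, k8, hv]
    norm_num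
  · intro h
    have : tau t + 4 = 0 := by linarith
    rw [key] at this
    exact (div_ne_zero (mul_ne_zero e4 c0) (pow_ne_zero 3 e1)) this
  · omega

end

/-- **the orbits are infinite** -/
theorem orbit_inj (u : ℕ → ℚ) (h0 : ¬ Bad (u 0)) (hu : ∀ n, ¬ Bad (u n) → u (n + 1) = tau (u n)) :
    (∀ n, ¬ Bad (u n)) ∧ ∀ m n, m < n → u m ≠ u n := by
  rcases lt_trichotomy (v2 (u 0)) 2 with h | h | h
  · have key : ∀ n, ¬ Bad (u n) ∧ v2 (u n) ≤ 1 := by
      intro n
      induction n with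
      | zero => exact ⟨h0, by omega⟩
      | succ n ih =>
        obtain ⟨h1, h2⟩ := small ih.1 ih.2
        rw [hu n ih.1]
        obtain ⟨a0, a1, a4, a8⟩ : u n ≠ 0 ∧ u n ≠ -1 ∧ u n ≠ -4 ∧ u n ≠ 8 := by
          have := ih.1
          simpa only [Bad, not_or] using this
        exact ⟨not_bad_of_v (tau_ne_zero a0 a1 a8) h2, by omega⟩
    refine ⟨fun n => (key n).1, fun m n hmn heq => ?_⟩
    have hmono : StrictAnti fun n => v2 (u n) := strictAnti_nat_of_succ_lt fun n => by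
      rw [hu n (key n).1]
      exact (small (key n).1 (key n).2).1
    have := hmono hmn
    simp only [heq] at this
    exact lt_irrefl _ this
  · have key : ∀ n, ¬ Bad (u n) ∧ v2 (u n) = 2 := by
      intro n
      induction n with
      | zero => exact ⟨h0, h⟩
      | succ n ih =>
        obtain ⟨h1, h2, h3⟩ := mid ih.1 ih.2
        rw [hu n ih.1]
        refine ⟨?_, h1⟩
        obtain ⟨a0, a1, a4, a8⟩ : u n ≠ 0 ∧ u n ≠ -1 ∧ u n ≠ -4 ∧ u n ≠ 8 := by
          have := ih.1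
          simpa only [Bad, not_or] using this
        rintro (h5 | h5 | h5 | h5)
        · exact tau_ne_zero a0 a1 a8 h5
        · rw [h5, neg_one_v] at h1; omega
        · exact h2 h5
        · rw [h5, v2_eight] at h1; omega
    refine ⟨fun n => (key n).1, fun m n hmn heq => ?_⟩
    have hmono : StrictMono fun n => v2 (u n + 4) := strictMono_nat_of_lt_succ fun n => by
      rw [hu n (key n).1]
      exact (mid (key n).1 (key n).2).2.2
    have := hmono hmn
    simp only [heq] at this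
    exact lt_irrefl _ this
  · have key : ∀ n, ¬ Bad (u n) ∧ 3 ≤ v2 (u n) := by
      intro n
      induction n with
      | zero => exact ⟨h0, by omega⟩
      | succ n ih =>
        have h1 := large ih.1 ih.2
        rw [hu n ih.1]
        obtain ⟨a0, a1, a4, a8⟩ : u n ≠ 0 ∧ u n ≠ -1 ∧ u n ≠ -4 ∧ u n ≠ 8 := by
          have := ih.1
          simpa only [Bad, not_or] using this
        have h3 := ih.2
        refine ⟨?_, by omega⟩
        rintro (h5 | h5 | h5 | h5)
        · exact tau_ne_zero a0 a1 a8 h5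
        · rw [h5, neg_one_v] at h1; omega
        · rw [h5, neg_four_v] at h1; omega
        · rw [h5, v2_eight] at h1; omega
    refine ⟨fun n => (key n).1, fun m n hmn heq => ?_⟩
    have hmono : StrictMono fun n => v2 (u n) := strictMono_nat_of_lt_succ fun n => by
      rw [hu n (key n).1]
      exact large (key n).1 (key n).2
    have := hmono hmn
    simp only [heq] at this
    exact lt_irrefl _ this

end Pool.Agent.H1.TC
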