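import Pool.Graph.R_pool_sql_team_seeded_3dad9d7b.NH8.CI
import Pool.Agent.H1.TC.Two

/-!
# The tangent map of a binary cubic form and the duplication map
-/

set_option autoImplicit false

namespace Pool.Agent.H1.TC

open Pool.Agent.NH8.C

section alg

variable {R : Type*} [CommRing R] (a b c e x y : R)

lemma qH_exp (s t : R) : qH a b c e (s * x + t * (-qY a b c e x y)) (s * y + t * qX a b c e x y) =
    s ^ 2 * qH a b c e x y - s * t * qQ a b c e x y + t ^ 2 * qH a b c e x y ^ 2 := by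
  unfold qH qY qX qQ
  ring

/-- the Hessian at the tangent point -/
theorem qH_tangent : qH a b c e (qT a b c e x y) (qU a b c e x y) =
    qH a b c e x y * (9 * qH a b c e x y ^ 3 - 2 * qQ a b c e x y ^ 2) := by
  have h1 : qT a b c e x y = qQ a b c e x y * x + (3 * qH a b c e x y) * (-qY a b c e x y) := by
    rw [qT_eq]
  have h2 : qU a b c e x y = qQ a b c e x y * y + (3 * qH a b c e x y) * qX a b c e x y := by
    rw [qU_eq]
  rw [h1, h2, qH_exp]
  ring

end alg

/-- the invariant -/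
def tInv (a b c e x y : ℚ) : ℚ :=
  -4 * qH a b c e x y ^ 3 / (27 * qD a b c e * qB a b c e x y ^ 2)

section

variable {a b c e x y : ℚ}

lemma W_eq : 27 * qD a b c e * qB a b c e x y ^ 2 =
    4 * qH a b c e x y ^ 3 - qQ a b c e x y ^ 2 := by
  have := syz a b c e x y
  linear_combination this

lemma B_ne (h : ¬ Bad (tInv a b c e x y)) : qB a b c e x y ≠ 0 := by
  intro h0
  apply h
  left
  unfold tInv
  rw [h0]
  simp

lemma Q_ne (hD : qD a b c e ≠ 0) (h : ¬ Bad (tInv a b c e x y)) : qQ a b c e x y ≠ 0 := by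
  intro h0
  have hB := B_ne h
  have hW : 27 * qD a b c e * qB a b c e x y ^ 2 ≠ 0 :=
    mul_ne_zero (mul_ne_zero (by norm_num) hD) (pow_ne_zero 2 hB)
  apply h
  right
  left
  unfold tInv
  rw [W_eq, h0] at *
  rw [div_eq_iff hW]
  ring

lemma tInv_tangent (hD : qD a b c e ≠ 0) (h : ¬ Bad (tInv a b c e x y)) :
    tInv a b c e (qT a b c e x y) (qU a b c e x y) = tau (tInv a b c e x y) := by
  have hB := B_ne h
  have hQ := Q_ne hD h
  have hW : 27 * qD a b c e * qB a b c e x y ^ 2 ≠ 0 :=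
    mul_ne_zero (mul_ne_zero (by norm_num) hD) (pow_ne_zero 2 hB)
  have hWe := W_eq (a := a) (b := b) (c := c) (e := e) (x := x) (y := y)
  unfold tInv tau
  rw [qH_tangent, qB_tangent]
  have e1 : 27 * qD a b c e * (qB a b c e x y * qQ a b c e x y ^ 3) ^ 2 =
      (27 * qD a b c e * qB a b c e x y ^ 2) * qQ a b c e x y ^ 6 := by ring
  rw [e1]
  rw [hWe] at hW ⊢
  generalize qH a b c e x y = H at *
  generalize qQ a b c e x y = Q at *
  have e2 : -4 * H ^ 3 / (4 * H ^ 3 - Q ^ 2) + 1 = -Q ^ 2 / (4 * H ^ 3 - Q ^ 2) := by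
    field_simp
    ring
  have e3 : -4 * H ^ 3 / (4 * H ^ 3 - Q ^ 2) - 8 = -4 * (9 * H ^ 3 - 2 * Q ^ 2) /
      (4 * H ^ 3 - Q ^ 2) := by
    field_simp
    ring
  rw [e2, e3]
  generalize 4 * H ^ 3 - Q ^ 2 = W at *
  field_simp
  ring

/-- homogeneity -/
lemma tInv_smul {l : ℚ} (hl : l ≠ 0) : tInv a b c e (l * x) (l * y) = tInv a b c e x y := by
  unfold tInv
  have h1 : qH a b c e (l * x) (l * y) = l ^ 2 * qH a b c e x y := by unfold qH; ring
  have h2 : qB a b c e (l * x) (l * y) = l ^ 3 * qB a b c e x y := by unfold qB; ring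
  rw [h1, h2]
  rw [show -4 * (l ^ 2 * qH a b c e x y) ^ 3 = l ^ 6 * (-4 * qH a b c e x y ^ 3) by ring,
    show 27 * qD a b c e * (l ^ 3 * qB a b c e x y) ^ 2 =
      l ^ 6 * (27 * qD a b c e * qB a b c e x y ^ 2) by ring,
    mul_div_mul_left _ _ (pow_ne_zero 6 hl)]

lemma prop_of {x y x' y' : ℚ} (h : x * y' = y * x') (h1 : ¬ (x = 0 ∧ y = 0))
    (h2 : ¬ (x' = 0 ∧ y' = 0)) : ∃ l : ℚ, l ≠ 0 ∧ x' = l * x ∧ y' = l * y := by
  by_cases hx : x = 0
  · have hy : y ≠ 0 := fun h0 => h1 ⟨hx, h0⟩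
    have hx' : x' = 0 := by
      rw [hx, zero_mul] at h
      exact (mul_eq_zero.1 h.symm).resolve_left hy
    have hy' : y' ≠ 0 := fun h0 => h2 ⟨hx', h0⟩
    exact ⟨y' / y, div_ne_zero hy' hy, by rw [hx, hx']; ring, by field_simp⟩
  · have hy' : y' = x' / x * y := by
      field_simp
      linear_combination h
    refine ⟨x' / x, ?_, by field_simp, hy'⟩
    intro h0
    rw [div_eq_zero_iff] at h0
    have hx' := h0.resolve_right hx
    apply h2
    refine ⟨hx', ?_⟩
    rw [hy', hx']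
    ring

lemma not_both {x y : ℚ} (h : ¬ Bad (tInv a b c e x y)) : ¬ (x = 0 ∧ y = 0) := by
  rintro ⟨rfl, rfl⟩
  apply B_ne h
  unfold qB
  ring

/-- **the orbit of the tangent map is infinite** -/
theorem orb_inf (hD : qD a b c e ≠ 0) (h : ¬ Bad (tInv a b c e x y)) :
    (∀ n, qB a b c e (orb a b c e x y n 0) (orb a b c e x y n 1) ≠ 0) ∧
    ∀ m n, m < n → orb a b c e x y m 0 * orb a b c e x y n 1 ≠
      orb a b c e x y m 1 * orb a b c e x y n 0 := by
  obtain ⟨h1, h2⟩ := orbit_inj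
    (fun n => tInv a b c e (orb a b c e x y n 0) (orb a b c e x y n 1)) h (fun n hn => by
      exact tInv_tangent hD hn)
  refine ⟨fun n => B_ne (h1 n), fun m n hmn heq => h2 m n hmn ?_⟩
  obtain ⟨l, hl, e1, e2⟩ := prop_of heq (not_both (h1 m)) (not_both (h1 n))
  rw [e1, e2, tInv_smul hl]

end

end Pool.Agent.H1.TC
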