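import Pool.Agent.H1.TC.Zar

/-!
# Degrees of restrictions to lines parallel to the axes
-/

set_option autoImplicit false

namespace Pool.Agent.H1.TC

variable {n : ℕ}

lemma natDegree_single {f : MvPolynomial (Fin n) ℚ} {i : Fin n} {d : ℕ} (h : f.degreeOf i ≤ d)
    (z : Fin n → ℚ) : (restriction f z (Pi.single i 1)).natDegree ≤ d := by
  unfold restriction
  rw [MvPolynomial.aeval_def, MvPolynomial.eval₂_eq']
  refine Polynomial.natDegree_sum_le_of_forall_le _ _ fun m hm => ?_
  have hmi : m i ≤ d := (MvPolynomial.degreeOf_le_iff.1 h) m hm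
  refine (Polynomial.natDegree_C_mul_le _ _).trans ?_
  refine (Polynomial.natDegree_prod_le _ _).trans ?_
  rw [Finset.sum_eq_single i]
  · refine (Polynomial.natDegree_pow_le).trans ?_
    have : (Polynomial.C (z i) + Polynomial.C ((Pi.single i (1 : ℚ) : Fin n → ℚ) i) *
        Polynomial.X).natDegree ≤ 1 := by
      compute_degree
    calc m i * _ ≤ m i * 1 := Nat.mul_le_mul_left _ this
      _ ≤ d := by omega
  · intro k _ hk
    rw [Pi.single_eq_of_ne hk]
    have : (Polynomial.C (z k) + Polynomial.C (0 : ℚ) * Polynomial.X) ^ m k =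
        Polynomial.C (z k ^ m k) := by
      simp
    rw [this, Polynomial.natDegree_C]
  · intro h'
    exact absurd (Finset.mem_univ i) h'

lemma span_single : Submodule.span ℚ (Set.range fun i : Fin n =>
    (Pi.single i (1 : ℚ) : Fin n → ℚ)) = ⊤ := by
  rw [eq_top_iff]
  intro x _
  have h1 : x = ∑ j, x j • (Pi.single j (1 : ℚ) : Fin n → ℚ) := by
    funext k
    simp [Finset.sum_apply, Pi.single_apply]
  rw [h1]
  exact Submodule.sum_mem _ fun j _ => Submodule.smul_mem _ _ (Submodule.subset_span ⟨j, rfl⟩)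

end Pool.Agent.H1.TC
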