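import Pool.Agent.H1.TC.Cov

/-!
# The curve `w³ = q(s)`: density of the rational points in the real points
-/

set_option autoImplicit false

open Set Filter Topology

namespace Pool.Agent.H1.TC

open Pool.Agent.NH8.C Pool.Agent.TH729.CC

/-! ### Real cube roots -/

lemma cube_surj : Function.Surjective (fun x : ℝ => x ^ 3) := by
  intro y
  rcases le_or_gt 0 y with h | h
  · refine ⟨y ^ ((1 : ℝ) / 3), ?_⟩
    change (y ^ ((1 : ℝ) / 3)) ^ 3 = y
    rw [← Real.rpow_natCast, ← Real.rpow_mul h]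
    norm_num
  · refine ⟨-((-y) ^ ((1 : ℝ) / 3)), ?_⟩
    have h' : 0 ≤ -y := by linarith
    have h1 : ((-y) ^ ((1 : ℝ) / 3)) ^ 3 = -y := by
      rw [← Real.rpow_natCast, ← Real.rpow_mul h']
      norm_num
    change (-((-y) ^ ((1 : ℝ) / 3))) ^ 3 = y
    rw [Odd.neg_pow (by decide), h1]
    ring

/-- the cube as an order isomorphism -/
noncomputable def cubeIso : ℝ ≃o ℝ :=
  StrictMono.orderIsoOfSurjective (fun x : ℝ => x ^ 3) (Odd.strictMono_pow (by decide)) cube_surj

/-- the real cube root -/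
noncomputable def cbrt (y : ℝ) : ℝ := cubeIso.symm y

lemma cbrt_cube (y : ℝ) : cbrt y ^ 3 = y := cubeIso.apply_symm_apply y

lemma cube_inj {x y : ℝ} (h : x ^ 3 = y ^ 3) : x = y :=
  (Odd.strictMono_pow (n := 3) (by decide)).injective h

lemma cbrt_unique {x y : ℝ} (h : x ^ 3 = y) : x = cbrt y := cube_inj (by rw [h, cbrt_cube])

lemma cbrt_continuous : Continuous cbrt := cubeIso.symm.continuous

lemma cbrt_ne_zero {y : ℝ} (h : y ≠ 0) : cbrt y ≠ 0 := by
  intro h0
  apply h
  rw [← cbrt_cube y, h0]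
  ring

/-! ### The form -/

/-- the coordinates -/
noncomputable def l0 : E 2 →ₗ[ℝ] ℝ := LinearMap.proj 0
noncomputable def l1 : E 2 →ₗ[ℝ] ℝ := LinearMap.proj 1

lemma rl0 : RL Kq l0 := fun _ hv => hv 0
lemma rl1 : RL Kq l1 := fun _ hv => hv 1

/-- the trilinear form of a binary cubic form -/
noncomputable def Gq (a b c e : ℝ) : Tri 2 :=
  ((Tri.prod l0 l0 l0).smul a).add (((Tri.prod l0 l0 l1).smul b).add
    (((Tri.prod l0 l1 l1).smul c).add ((Tri.prod l1 l1 l1).smul e)))

lemma Gq_apply (a b c e : ℝ) (u v w : E 2) : (Gq a b c e).f u v w =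
    a * (u 0 * v 0 * w 0) + b / 3 * (u 0 * v 0 * w 1 + u 0 * v 1 * w 0 + u 1 * v 0 * w 0) +
      c / 3 * (u 0 * v 1 * w 1 + u 1 * v 0 * w 1 + u 1 * v 1 * w 0) + e * (u 1 * v 1 * w 1) := by
  simp only [Gq, Tri.add, Tri.smul, Tri.prod, LinearMap.add_apply, LinearMap.smul_apply,
    pr3_apply, smul_eq_mul, l0, l1, LinearMap.proj_apply]
  ring

lemma Gq_diag (a b c e : ℝ) (v : E 2) : (Gq a b c e).f v v v = qB a b c e (v 0) (v 1) := by
  rw [Gq_apply, qB]
  ring

lemma Gq_rat (a b c e : ℚ) : Rat3 (Gq a b c e) Kq := by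
  intro u v w hu hv hw
  rw [Gq_apply]
  have m3 : ∀ {x y z : ℝ}, x ∈ Kq → y ∈ Kq → z ∈ Kq → x * y * z ∈ Kq := fun hx hy hz =>
    Kq.mul_mem (Kq.mul_mem hx hy) hz
  have h3 : (3 : ℝ) ∈ Kq := by exact_mod_cast Kq_mem 3
  refine Kq.add_mem (Kq.add_mem (Kq.add_mem ?_ ?_) ?_) ?_
  · exact Kq.mul_mem (Kq_mem a) (m3 (hu 0) (hv 0) (hw 0))
  · exact Kq.mul_mem (Kq.div_mem (Kq_mem b) h3) (Kq.add_mem (Kq.add_mem
      (m3 (hu 0) (hv 0) (hw 1)) (m3 (hu 0) (hv 1) (hw 0))) (m3 (hu 1) (hv 0) (hw 0)))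
  · exact Kq.mul_mem (Kq.div_mem (Kq_mem c) h3) (Kq.add_mem (Kq.add_mem
      (m3 (hu 0) (hv 1) (hw 1)) (m3 (hu 1) (hv 0) (hw 1))) (m3 (hu 1) (hv 1) (hw 0)))
  · exact Kq.mul_mem (Kq_mem e) (m3 (hu 1) (hv 1) (hw 1))

lemma qB_cast (a b c e x y : ℚ) : qB (a : ℝ) b c e x y = ((qB a b c e x y : ℚ) : ℝ) := by
  unfold qB
  push_cast
  ring

lemma qD_cast (a b c e : ℚ) : qD (a : ℝ) b c e = ((qD a b c e : ℚ) : ℝ) := by
  unfold qD
  push_cast
  ring

lemma rt_pair (x y : ℚ) : Rt Kq (![(x : ℝ), (y : ℝ)] : E 2) := by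
  intro i
  fin_cases i
  · exact Kq_mem x
  · exact Kq_mem y

/-- a form with discriminant different from zero is not a cube -/
lemma not_cube {a b c e : ℚ} (hD : qD a b c e ≠ 0) :
    ¬ ∃ k ∈ Kq, ∃ u : Fin 2 → Kq, ∀ v, Rt Kq v → (Gq a b c e).f v v v = k * dt u v ^ 3 := by
  rintro ⟨k, -, u, h⟩
  have h1 := h _ (rt_pair 1 0)
  have h2 := h _ (rt_pair 0 1)
  have h3 := h _ (rt_pair 1 1)
  have h4 := h _ (rt_pair 1 (-1))
  simp only [Gq_diag, dt_apply, Fin.sum_univ_two, Matrix.cons_val_zero, Matrix.cons_val_one, qB]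
    at h1 h2 h3 h4
  push_cast at h1 h2 h3 h4
  set α : ℝ := (u 0 : ℝ)
  set β : ℝ := (u 1 : ℝ)
  have ea : (a : ℝ) = k * α ^ 3 := by linear_combination h1
  have ee : (e : ℝ) = k * β ^ 3 := by linear_combination h2
  have ec : (c : ℝ) = 3 * k * α * β ^ 2 := by linear_combination (h3 + h4) / 2 - h1
  have eb : (b : ℝ) = 3 * k * α ^ 2 * β := by linear_combination (h3 - h4) / 2 - h2
  have : qD (a : ℝ) b c e = 0 := by
    rw [ea, ee, ec, eb]
    unfold qD
    ring
  rw [qD_cast] at this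
  exact hD (by exact_mod_cast this)

/-- **an interior point** -/
theorem exists_int {a b c e : ℚ} (hD : qD a b c e ≠ 0) {x y w : ℚ} (hw : qB a b c e x y = w ^ 3)
    (hb : ¬ Bad (tInv a b c e x y)) : ∃ R, Int' (T3 (Gq a b c e) 1) Kq R := by
  obtain ⟨hB, hinf⟩ := orb_inf hD hb
  obtain ⟨L, hL, hL0, hcov⟩ := bin3 (Gq_rat a b c e) (not_cube hD)
  have hcube : ∀ n, ∃ w : ℚ, qB a b c e (orb a b c e x y n 0) (orb a b c e x y n 1) = w ^ 3 := by
    intro n
    induction n with
    | zero => exact ⟨w, hw⟩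
    | succ n ih =>
      obtain ⟨w', hw'⟩ := ih
      refine ⟨w' * qQ a b c e (orb a b c e x y n 0) (orb a b c e x y n 1), ?_⟩
      have h1 : orb a b c e x y (n + 1) 0 = qT a b c e (orb a b c e x y n 0)
        (orb a b c e x y n 1) := rfl
      have h2 : orb a b c e x y (n + 1) 1 = qU a b c e (orb a b c e x y n 0)
        (orb a b c e x y n 1) := rfl
      rw [h1, h2, qB_tangent, hw']
      ring
  set V : ℕ → E 2 := fun n => ![(orb a b c e x y n 0 : ℝ), (orb a b c e x y n 1 : ℝ)] with hV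
  have hVr : ∀ n, Rt Kq (V n) := fun n => rt_pair _ _
  have hVG : ∀ n, (Gq a b c e).f (V n) (V n) (V n) =
      ((qB a b c e (orb a b c e x y n 0) (orb a b c e x y n 1) : ℚ) : ℝ) := by
    intro n
    rw [Gq_diag, ← qB_cast]
    rfl
  have hex : ∃ n, ¬ ∃ u ∈ L, dt u (V n) = 0 := by
    by_contra hcon
    push Not at hcon
    have hc : ∀ n, ∃ A : L, dt (A : Fin 2 → Kq) (V n) = 0 := by
      intro n
      obtain ⟨u, hu, hu'⟩ := hcon n
      exact ⟨⟨u, hu⟩, hu'⟩
    choose A hA using hc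
    have : Finite L := hL
    obtain ⟨A0, hA0⟩ := Finite.exists_infinite_fiber A
    rw [Set.infinite_coe_iff] at hA0
    obtain ⟨m, hm⟩ := hA0.nonempty
    obtain ⟨n, hn, hnm⟩ := hA0.exists_gt m
    have k1 := hA m
    have k2 := hA n
    have km : A m = A0 := hm
    have kn : A n = A0 := hn
    rw [km] at k1
    rw [kn] at k2
    rw [dt_apply, Fin.sum_univ_two] at k1 k2
    simp only [hV, Matrix.cons_val_zero, Matrix.cons_val_one] at k1 k2
    set α : ℝ := ((A0 : Fin 2 → Kq) 0 : ℝ) with hα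
    set β : ℝ := ((A0 : Fin 2 → Kq) 1 : ℝ) with hβ
    have hprop : (orb a b c e x y m 0 : ℝ) * orb a b c e x y n 1 -
        (orb a b c e x y m 1 : ℝ) * orb a b c e x y n 0 ≠ 0 := by
      have := hinf m n hnm
      intro h
      apply this
      have h4 : ((orb a b c e x y m 0 * orb a b c e x y n 1 : ℚ) : ℝ) =
          ((orb a b c e x y m 1 * orb a b c e x y n 0 : ℚ) : ℝ) := by
        push_cast
        linarith
      exact_mod_cast h4
    have h1 : α * ((orb a b c e x y m 0 : ℝ) * orb a b c e x y n 1 -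
        (orb a b c e x y m 1 : ℝ) * orb a b c e x y n 0) = 0 := by
      linear_combination (orb a b c e x y n 1 : ℝ) * k1 - (orb a b c e x y m 1 : ℝ) * k2
    have h2 : β * ((orb a b c e x y m 0 : ℝ) * orb a b c e x y n 1 -
        (orb a b c e x y m 1 : ℝ) * orb a b c e x y n 0) = 0 := by
      linear_combination (orb a b c e x y m 0 : ℝ) * k2 - (orb a b c e x y n 0 : ℝ) * k1
    have h3 := (mul_eq_zero.1 h1).resolve_right hprop
    have h4 := (mul_eq_zero.1 h2).resolve_right hprop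
    apply hL0 _ A0.2
    funext i
    apply Subtype.ext
    fin_cases i
    · exact h3
    · exact h4
  obtain ⟨n, hn⟩ := hex
  have hne : (Gq a b c e).f (V n) (V n) (V n) ≠ 0 := by
    rw [hVG]
    exact_mod_cast hB n
  rcases hcov (V n) (hVr n) hne with h | h
  · exact absurd h hn
  · obtain ⟨w', hw'⟩ := hcube n
    refine h 1 Kq.one_mem one_ne_zero (w' : ℝ) (Kq_mem w') ?_ ?_
    · intro h0
      apply hB n
      have : w' = 0 := by exact_mod_cast h0
      rw [hw', this]
      ring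
    · rw [hVG, hw']
      push_cast
      ring

/-! ### The real points -/

section real

variable (a b c e : ℝ)

/-- the real point over `v` -/
noncomputable def gpt (v : E 2) : E 3 := cv (cbrt (qB a b c e (v 0) (v 1))) v

lemma gpt_continuous : Continuous (gpt a b c e) := by
  have h : Continuous fun v : E 2 => cbrt (qB a b c e (v 0) (v 1)) := by
    refine cbrt_continuous.comp ?_
    unfold qB
    fun_prop
  refine continuous_pi fun i => ?_
  refine Fin.cases ?_ (fun i => ?_) i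
  · exact h
  · exact continuous_apply i

lemma gpt_zero (v : E 2) : (T3 (Gq a b c e) 1).f (gpt a b c e v) (gpt a b c e v)
    (gpt a b c e v) = 0 := by
  rw [T3_apply]
  simp only [gpt, pv_cv, pw_cv]
  rw [Gq_diag]
  have := cbrt_cube (qB a b c e (v 0) (v 1))
  linear_combination -this

end real

/-- all real points are in the closure, if the discriminant is not zero -/
theorem all_mem {a b c e : ℚ} (hD : qD a b c e ≠ 0) {R : E 3}
    (hR : Int' (T3 (Gq a b c e) 1) Kq R) {v : E 2} (hv : v ≠ 0) :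
    gpt a b c e v ∈ W (T3 (Gq a b c e) 1) Kq := by
  have hrat : Rat3 (T3 (Gq a b c e) 1) Kq := T3_rat (Gq_rat a b c e) Kq.one_mem
  have hN : NH (T3 (Gq a b c e) 1) Kq := by
    by_contra h
    obtain ⟨l, hl⟩ := NH3 h
    exact not_cube hD ⟨1, Kq.one_mem, l, fun v hv => by rw [← hl v hv, one_mul, one_mul]⟩
  have hDR : qD (a : ℝ) b c e ≠ 0 := by
    rw [qD_cast]
    exact_mod_cast hD
  -- smoothness
  have hsm : ∀ v : E 2, v ≠ 0 → ∃ U, (T3 (Gq a b c e) 1).f (gpt a b c e v) (gpt a b c e v) U ≠ 0 := by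
    intro v hv
    by_contra hcon
    push Not at hcon
    have h1 := hcon (cv 1 0)
    rw [T3_apply] at h1
    simp only [pv_cv, pw_cv, map_zero, mul_zero, zero_sub, mul_one, neg_eq_zero] at h1
    have h2 : pw (gpt a b c e v) = 0 := by
      rcases mul_eq_zero.1 h1 with h | h <;> exact h
    have h3 : ∀ u, (Gq a b c e).f v v u = 0 := by
      intro u
      have h4 := hcon (cv 0 u)
      rw [T3_apply] at h4
      simp only [gpt, pv_cv, pw_cv, mul_zero, sub_zero, one_mul] at h4
      exact h4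
    have h5 := h3 ![1, 0]
    have h6 := h3 ![0, 1]
    rw [Gq_apply] at h5 h6
    simp only [Matrix.cons_val_zero, Matrix.cons_val_one, mul_one, mul_zero, add_zero,
      zero_add] at h5 h6
    have e5 : qX (a : ℝ) b c e (v 0) (v 1) = 0 := by
      unfold qX
      linear_combination 3 * h5
    have e6 : qY (a : ℝ) b c e (v 0) (v 1) = 0 := by
      unfold qY
      linear_combination 3 * h6
    have e1 := i3 (a : ℝ) b c e (v 0) (v 1)
    have e2 := i3' (a : ℝ) b c e (v 0) (v 1)
    rw [e5, e6, mul_zero, mul_zero, add_zero] at e1 e2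
    apply hv
    funext i
    fin_cases i
    · have := (mul_eq_zero.1 e1).resolve_left (mul_ne_zero (by norm_num) hDR)
      exact pow_eq_zero_iff (n := 3) (by norm_num) |>.1 this
    · have := (mul_eq_zero.1 e2).resolve_left (mul_ne_zero (by norm_num) hDR)
      exact pow_eq_zero_iff (n := 3) (by norm_num) |>.1 this
  have hcon : IsPreconnected ({0}ᶜ : Set (E 2)) := by
    refine (isConnected_compl_singleton_of_one_lt_rank ?_ 0).isPreconnected
    rw [rank_fin_fun]
    norm_num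
  set u : Set (E 2) := {v | v ≠ 0 ∧ gpt a b c e v ∈ W (T3 (Gq a b c e) 1) Kq} with hu
  have hopen : IsOpen u := by
    rw [isOpen_iff_mem_nhds]
    rintro v ⟨hv0, hvW⟩
    obtain ⟨U, hU⟩ := hsm v hv0
    have h1 := (int_all hrat hN hR hvW hU).2.2
    have h2 := (gpt_continuous (a : ℝ) b c e).continuousAt.eventually h1
    have h3 : ∀ᶠ v' in 𝓝 v, v' ≠ 0 := isOpen_ne.mem_nhds hv0
    filter_upwards [h2, h3] with v' h4 h5
    exact ⟨h5, h4 (gpt_zero _ _ _ _ v')⟩
  have hclosed : closure u ∩ {0}ᶜ ⊆ u := by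
    rintro v ⟨hv, hv0⟩
    refine ⟨hv0, ?_⟩
    have hc : IsClosed ((gpt (a : ℝ) b c e) ⁻¹' W (T3 (Gq a b c e) 1) Kq) :=
      isClosed_closure.preimage (gpt_continuous _ _ _ _)
    exact closure_minimal (fun v hv => hv.2) hc hv
  have hne : (({0}ᶜ : Set (E 2)) ∩ u).Nonempty := by
    -- the interior point
    have hR0 := hR.1
    rw [T3_apply, Gq_diag] at hR0
    have hRw : pw R = cbrt (qB (a : ℝ) b c e (pv R 0) (pv R 1)) := by
      apply cbrt_unique
      linear_combination -hR0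
    have hRg : gpt a b c e (pv R) = R := by
      unfold gpt
      rw [← hRw, cv_eta]
    have hR1 : pv R ≠ 0 := by
      intro h0
      obtain ⟨U, hU⟩ := hR.2.1
      apply hU
      have hw0 : pw R = 0 := by
        rw [hRw, h0]
        simp only [Pi.zero_apply]
        have : qB (a : ℝ) b c e 0 0 = 0 := by unfold qB; ring
        rw [this]
        exact (cbrt_unique (by norm_num)).symm
      have : R = 0 := by
        rw [← cv_eta R, hw0, h0]
        funext i
        refine Fin.cases rfl (fun i => ?_) i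
        rfl
      rw [this]
      simp
    exact ⟨pv R, hR1, hR1, by rw [hRg]; exact hR.mem⟩
  exact (hcon.subset_of_closure_inter_subset hopen hne hclosed hv).2

/-- the case of discriminant zero -/
theorem all_mem_zero {a b c e : ℚ} (hD : qD a b c e = 0)
    (hH : ¬ (b ^ 2 = 3 * a * c ∧ b * c = 9 * a * e ∧ c ^ 2 = 3 * b * e)) :
    ∃ A B C : ℚ, ¬ (A = 0 ∧ B = 0 ∧ C = 0) ∧ ∀ v : E 2,
      (A : ℝ) * v 0 ^ 2 + B * (v 0 * v 1) + C * v 1 ^ 2 ≠ 0 →
      gpt a b c e v ∈ W (T3 (Gq a b c e) 1) Kq := by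
  have hrat : Rat3 (T3 (Gq a b c e) 1) Kq := T3_rat (Gq_rat a b c e) Kq.one_mem
  rcases exists_double hD with ⟨x, y, hxy, hX, hY⟩ | h
  · refine ⟨3 * a * x + b * y, 2 * b * x + 2 * c * y, c * x + 3 * e * y, ?_, fun v hv => ?_⟩
    · rintro ⟨h1, h2, h3⟩
      apply hH
      by_cases hx : x = 0
      · have hy : y ≠ 0 := fun h0 => hxy ⟨hx, h0⟩
        rw [hx] at h1 h2 h3
        have hb : b = 0 := by
          have : b * y = 0 := by linear_combination h1
          exact (mul_eq_zero.1 this).resolve_right hy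
        have hc : c = 0 := by
          have : c * y = 0 := by linear_combination h2 / 2
          exact (mul_eq_zero.1 this).resolve_right hy
        have he : e = 0 := by
          have : e * y = 0 := by linear_combination h3 / 3
          exact (mul_eq_zero.1 this).resolve_right hy
        rw [hb, hc, he]
        exact ⟨by ring, by ring, by ring⟩
      · have ec : c = -3 * e * (y / x) := by
          field_simp
          linear_combination h3
        have eb : b = 3 * e * (y / x) ^ 2 := by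
          have : b = -c * (y / x) := by
            field_simp
            linear_combination h2 / 2
          rw [this, ec]
          ring
        have ea : a = -e * (y / x) ^ 3 := by
          have : a = -b / 3 * (y / x) := by
            field_simp
            linear_combination h1
          rw [this, eb]
          ring
        rw [ea, eb, ec]
        exact ⟨by ring, by ring, by ring⟩
    · set P : E 3 := cv 0 ![(x : ℝ), (y : ℝ)] with hP
      have hPr : Rt Kq P := rt_cv Kq.zero_mem (rt_pair x y)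
      have hX' : qX (a : ℝ) b c e x y = 0 := by
        have : qX (a : ℝ) b c e x y = ((qX a b c e x y : ℚ) : ℝ) := by
          unfold qX
          push_cast
          ring
        rw [this, hX, Rat.cast_zero]
      have hY' : qY (a : ℝ) b c e x y = 0 := by
        have : qY (a : ℝ) b c e x y = ((qY a b c e x y : ℚ) : ℝ) := by
          unfold qY
          push_cast
          ring
        rw [this, hY, Rat.cast_zero]
      refine sing_mem hrat hPr (fun V => ?_) (gpt_zero _ _ _ _ v) ?_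
      · rw [T3_apply]
        simp only [hP, pv_cv, pw_cv]
        rw [Gq_apply]
        simp only [Matrix.cons_val_zero, Matrix.cons_val_one]
        unfold qX at hX'
        unfold qY at hY'
        linear_combination (pv V 0) / 3 * hX' + (pv V 1) / 3 * hY'
      · rw [T3_apply]
        simp only [hP, gpt, pv_cv, pw_cv]
        rw [Gq_apply]
        simp only [Matrix.cons_val_zero, Matrix.cons_val_one]
        intro h0
        apply hv
        push_cast
        linear_combination 3 * h0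
  · exact absurd h hH

/-- from the closure to the rational points -/
theorem to_rat {a b c e : ℚ} {y : ℝ} (hy : qB (a : ℝ) b c e y 1 ≠ 0)
    (hm : gpt a b c e ![y, 1] ∈ W (T3 (Gq a b c e) 1) Kq) {ε : ℝ} (hε : 0 < ε) :
    ∃ s : ℚ, |(s : ℝ) - y| < ε ∧ ∃ w : ℚ, w ≠ 0 ∧ qB a b c e s 1 = w ^ 3 := by
  obtain ⟨u, hu, hu'⟩ := W.seq hm
  have h0 : Tendsto (fun n => u n 0) atTop (𝓝 (gpt a b c e ![y, 1] 0)) :=
    (tendsto_pi_nhds.1 hu') 0
  have h1 : Tendsto (fun n => u n 1) atTop (𝓝 (gpt a b c e ![y, 1] 1)) :=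
    (tendsto_pi_nhds.1 hu') 1
  have h2 : Tendsto (fun n => u n 2) atTop (𝓝 (gpt a b c e ![y, 1] 2)) :=
    (tendsto_pi_nhds.1 hu') 2
  have g0 : gpt a b c e ![y, 1] 0 = cbrt (qB (a : ℝ) b c e y 1) := rfl
  have g1 : gpt a b c e ![y, 1] 1 = y := rfl
  have g2 : gpt a b c e ![y, 1] 2 = 1 := rfl
  rw [g0] at h0
  rw [g1] at h1
  rw [g2] at h2
  have h3 : Tendsto (fun n => u n 1 / u n 2) atTop (𝓝 y) := by
    have := h1.div h2 one_ne_zero
    rwa [div_one] at this
  have e0 : ∀ᶠ n in atTop, u n 0 ≠ 0 := h0.eventually_ne (cbrt_ne_zero hy)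
  have e2 : ∀ᶠ n in atTop, u n 2 ≠ 0 := h2.eventually_ne one_ne_zero
  have e3 : ∀ᶠ n in atTop, |u n 1 / u n 2 - y| < ε := by
    have := h3.eventually (Metric.ball_mem_nhds y hε)
    filter_upwards [this] with n hn
    rwa [Real.dist_eq] at hn
  obtain ⟨n, k0, k2, k3⟩ := (e0.and (e2.and e3)).exists
  obtain ⟨hr, hz⟩ := hu n
  obtain ⟨p, hp⟩ := mem_Kq (hr 0)
  obtain ⟨q, hq⟩ := mem_Kq (hr 1)
  obtain ⟨r, hrr⟩ := mem_Kq (hr 2)
  have hp0 : p ≠ 0 := by
    rintro rfl
    apply k0
    rw [← hp, Rat.cast_zero]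
  have hr0 : r ≠ 0 := by
    rintro rfl
    apply k2
    rw [← hrr, Rat.cast_zero]
  refine ⟨q / r, ?_, p / r, div_ne_zero hp0 hr0, ?_⟩
  · push_cast
    rw [hq, hrr]
    exact k3
  · rw [T3_apply, Gq_diag] at hz
    have v0 : pv (u n) 0 = q := hq.symm
    have v1 : pv (u n) 1 = r := hrr.symm
    have vw : pw (u n) = p := hp.symm
    rw [v0, v1, vw, qB_cast] at hz
    have hz' : qB a b c e q r = p ^ 3 := by
      have : ((qB a b c e q r : ℚ) : ℝ) = ((p ^ 3 : ℚ) : ℝ) := by
        push_cast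
        linear_combination hz
      exact_mod_cast this
    have hh : qB a b c e (q / r) 1 = qB a b c e q r / r ^ 3 := by
      unfold qB
      field_simp
    rw [hh, hz', div_pow]

/-- the polynomial which vanishes at the points of finite order -/
def qN (a b c e x y : ℚ) : ℚ := qH a b c e x y * qQ a b c e x y *
  (qQ a b c e x y ^ 2 - 3 * qH a b c e x y ^ 3) * (2 * qQ a b c e x y ^ 2 - 9 * qH a b c e x y ^ 3)

lemma not_bad {a b c e x y : ℚ} (hD : qD a b c e ≠ 0) (hB : qB a b c e x y ≠ 0)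
    (hN : qN a b c e x y ≠ 0) : ¬ Bad (tInv a b c e x y) := by
  have hW : 27 * qD a b c e * qB a b c e x y ^ 2 ≠ 0 :=
    mul_ne_zero (mul_ne_zero (by norm_num) hD) (pow_ne_zero 2 hB)
  have hWe := W_eq (a := a) (b := b) (c := c) (e := e) (x := x) (y := y)
  unfold tInv
  rw [hWe] at hW ⊢
  unfold qN at hN
  generalize qH a b c e x y = H at *
  generalize qQ a b c e x y = Q at *
  rintro (h | h | h | h)
  · apply hN
    have : H ^ 3 = 0 := by
      rw [div_eq_zero_iff] at h
      have := h.resolve_right hW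
      linarith
    have hH : H = 0 := pow_eq_zero_iff (n := 3) (by norm_num) |>.1 this
    rw [hH]
    ring
  · apply hN
    rw [div_eq_iff hW] at h
    have : Q ^ 2 = 0 := by linarith
    have hQ : Q = 0 := pow_eq_zero_iff (n := 2) (by norm_num) |>.1 this
    rw [hQ]
    ring
  · apply hN
    rw [div_eq_iff hW] at h
    have : Q ^ 2 - 3 * H ^ 3 = 0 := by linarith
    rw [this]
    ring
  · apply hN
    rw [div_eq_iff hW] at h
    have : 2 * Q ^ 2 - 9 * H ^ 3 = 0 := by linarith
    rw [this]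
    ring

lemma poly_fin (A B C D : ℝ) (h : ¬ (A = 0 ∧ B = 0 ∧ C = 0 ∧ D = 0)) :
    {y : ℝ | A * y ^ 3 + B * y ^ 2 + C * y + D = 0}.Finite := by
  set p : Polynomial ℝ := Polynomial.C A * Polynomial.X ^ 3 + Polynomial.C B * Polynomial.X ^ 2 +
    Polynomial.C C * Polynomial.X + Polynomial.C D with hp
  have hp0 : p ≠ 0 := by
    intro h0
    apply h
    have k0 : p.coeff 0 = 0 := by rw [h0, Polynomial.coeff_zero]
    have k1 : p.coeff 1 = 0 := by rw [h0, Polynomial.coeff_zero]
    have k2 : p.coeff 2 = 0 := by rw [h0, Polynomial.coeff_zero]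
    have k3 : p.coeff 3 = 0 := by rw [h0, Polynomial.coeff_zero]
    simp only [hp, Polynomial.coeff_add, Polynomial.coeff_C_mul, Polynomial.coeff_X_pow,
      Polynomial.coeff_X, Polynomial.coeff_C] at k0 k1 k2 k3
    norm_num at k0 k1 k2 k3
    exact ⟨k3, k2, k1, k0⟩
  refine (p.roots.toFinset.finite_toSet).subset ?_
  intro y hy
  simp only [Finset.mem_coe, Multiset.mem_toFinset]
  rw [Polynomial.mem_roots hp0, Polynomial.IsRoot.def, hp]
  simp only [Polynomial.eval_add, Polynomial.eval_mul, Polynomial.eval_C, Polynomial.eval_pow,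
    Polynomial.eval_X]
  exact hy

/-- **density on the curve `w³ = q(s)`** -/
theorem cubes_dense {a b c e : ℚ} {w : ℚ} (hw : w ≠ 0) (he : e = w ^ 3)
    (hN : qN a b c e 0 1 ≠ 0) (y : ℝ) {ε : ℝ} (hε : 0 < ε) :
    ∃ s : ℚ, |(s : ℝ) - y| < ε ∧ ∃ w : ℚ, w ≠ 0 ∧ qB a b c e s 1 = w ^ 3 := by
  have he0 : e ≠ 0 := by
    rw [he]
    exact pow_ne_zero 3 hw
  have hB1 : qB a b c e 0 1 = e := by unfold qB; ring
  have hB0 : qB a b c e 0 1 ≠ 0 := by
    rw [hB1]
    exact he0
  have hH0 : qH a b c e 0 1 ≠ 0 := by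
    intro h0
    apply hN
    unfold qN
    rw [h0]
    ring
  -- the exceptional abscissas
  obtain ⟨S, hS, hmem⟩ : ∃ S : Set ℝ, S.Finite ∧ ∀ y ∉ S,
      gpt a b c e ![y, 1] ∈ W (T3 (Gq a b c e) 1) Kq := by
    by_cases hD : qD a b c e = 0
    · obtain ⟨A, B, C, h1, h2⟩ := all_mem_zero hD (by
        rintro ⟨k1, k2, k3⟩
        apply hH0
        unfold qH
        rw [k1, k2, k3]
        ring)
      refine ⟨{y : ℝ | (0 : ℝ) * y ^ 3 + (A : ℝ) * y ^ 2 + (B : ℝ) * y + (C : ℝ) = 0},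
        poly_fin _ _ _ _ ?_, fun y hy => h2 _ fun h0 => hy ?_⟩
      · rintro ⟨-, k1, k2, k3⟩
        exact h1 ⟨by exact_mod_cast k1, by exact_mod_cast k2, by exact_mod_cast k3⟩
      · simp only [Matrix.cons_val_zero, Matrix.cons_val_one] at h0
        simp only [mem_setOf_eq]
        linarith
    · obtain ⟨R, hR⟩ := exists_int hD (x := 0) (y := 1) (w := w) (by rw [hB1, he])
        (not_bad hD hB0 hN)
      refine ⟨∅, Set.finite_empty, fun y _ => all_mem hD hR ?_⟩
      intro h0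
      have := congrFun h0 1
      simp at this
  set S' : Set ℝ := S ∪ {y : ℝ | (a : ℝ) * y ^ 3 + (b : ℝ) * y ^ 2 + (c : ℝ) * y + (e : ℝ) = 0}
    with hS'
  have hS'fin : S'.Finite := hS.union (poly_fin _ _ _ _ (by
    rintro ⟨-, -, -, k4⟩
    exact he0 (by exact_mod_cast k4)))
  obtain ⟨y', hy', hy'2⟩ : ∃ y' ∈ Metric.ball y (ε / 2), y' ∉ S' := by
    by_contra hcon
    push Not at hcon
    have hinf : (Metric.ball y (ε / 2)).Infinite := by
      rw [Real.ball_eq_Ioo]
      exact Set.Ioo_infinite (by linarith)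
    exact hinf (hS'fin.subset hcon)
  rw [hS', Set.mem_union, not_or] at hy'2
  obtain ⟨s, hs, w', hw', hw''⟩ := to_rat (a := a) (b := b) (c := c) (e := e) (y := y') (by
    intro h0
    apply hy'2.2
    simp only [mem_setOf_eq]
    unfold qB at h0
    linarith) (hmem y' hy'2.1) (half_pos hε)
  refine ⟨s, ?_, w', hw', hw''⟩
  rw [Metric.mem_ball, Real.dist_eq] at hy'
  calc |(s : ℝ) - y| = |((s : ℝ) - y') + (y' - y)| := by ring_nf
    _ ≤ |(s : ℝ) - y'| + |y' - y| := abs_add_le _ _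
    _ < ε := by linarith

end Pool.Agent.H1.TC
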