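import Mathlib

/-!
# Extension of derivations to the algebraic closure of the field of rational functions
-/

set_option autoImplicit false

namespace Pool.Agent.H1.TC

open MvPolynomial TensorProduct

/-- extension of derivations to formally étale algebras -/
theorem exists_derivation {R S T : Type} [CommRing R] [CommRing S] [CommRing T] [Algebra R S]
    [Algebra R T] [Algebra S T] [IsScalarTower R S T] [Algebra.FormallyEtale S T]
    (d : Derivation R S S) :
    ∃ D : Derivation R T T, ∀ s : S, D (algebraMap S T s) = algebraMap S T (d s) := by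
  set L : Ω[S⁄R] →ₗ[S] T := (Algebra.linearMap S T) ∘ₗ d.liftKaehlerDifferential with hL
  set L' : T ⊗[S] Ω[S⁄R] →ₗ[T] T := L.liftBaseChange T with hL'
  set f : Ω[T⁄R] →ₗ[T] T := L' ∘ₗ
    (KaehlerDifferential.tensorKaehlerEquivOfFormallyEtale R S T).symm.toLinearMap with hf
  refine ⟨f.compDer (KaehlerDifferential.D R T), fun s => ?_⟩
  change f (KaehlerDifferential.D R T (algebraMap S T s)) = _
  rw [hf]
  change L' ((KaehlerDifferential.tensorKaehlerEquivOfFormallyEtale R S T).symm
    (KaehlerDifferential.D R T (algebraMap S T s))) = _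
  rw [KaehlerDifferential.tensorKaehlerEquivOfFormallyEtale_symm_D_algebraMap, hL',
    LinearMap.liftBaseChange_tmul, one_smul, hL]
  simp [Derivation.liftKaehlerDifferential_comp_D]

/-- the field of rational functions, and its algebraic closure -/
abbrev Kf (σ : Type) : Type := FractionRing (MvPolynomial σ ℚ)

abbrev Ef (σ : Type) : Type := AlgebraicClosure (Kf σ)

theorem exists_der (σ : Type) (i : σ) :
    ∃ D : Derivation ℚ (Ef σ) (Ef σ), ∀ r : MvPolynomial σ ℚ,
      D (algebraMap (MvPolynomial σ ℚ) (Ef σ) r) =
        algebraMap (MvPolynomial σ ℚ) (Ef σ) (pderiv i r) := by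
  have h1 : Algebra.FormallyEtale (MvPolynomial σ ℚ) (Kf σ) :=
    Algebra.FormallyEtale.of_isLocalization (nonZeroDivisors (MvPolynomial σ ℚ))
  have h2 : Algebra.FormallyEtale (Kf σ) (Ef σ) := Algebra.FormallyEtale.of_isSeparable _ _
  have h3 : Algebra.FormallyEtale (MvPolynomial σ ℚ) (Ef σ) :=
    Algebra.FormallyEtale.comp _ (Kf σ) _
  exact exists_derivation (pderiv i)

/-- derivations and polynomials -/
lemma der_aeval {σ E : Type} [Fintype σ] [Field E] [Algebra ℚ E] (D : Derivation ℚ E E)
    (y : σ → E) (G : MvPolynomial σ ℚ) :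
    D (aeval y G) = ∑ p, aeval y (pderiv p G) * D (y p) := by
  classical
  induction G using MvPolynomial.induction_on with
  | C a =>
    rw [aeval_C, Derivation.map_algebraMap]
    symm
    refine Finset.sum_eq_zero fun p _ => ?_
    rw [pderiv_C, map_zero, zero_mul]
  | add f g hf hg =>
    simp only [map_add, hf, hg, add_mul, Finset.sum_add_distrib]
  | mul_X f i hf =>
    have h1 : ∀ p, aeval y (pderiv p (f * X i)) * D (y p) =
        y i * (aeval y (pderiv p f) * D (y p)) + (if p = i then aeval y f * D (y p) else 0) := by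
      intro p
      rw [pderiv_mul, map_add, map_mul, map_mul, aeval_X, pderiv_X]
      split_ifs with hp
      · rw [hp, Pi.single_eq_same, map_one]
        ring
      · rw [Pi.single_eq_of_ne (Ne.symm hp), map_zero]
        ring
    rw [Finset.sum_congr rfl fun p _ => h1 p, Finset.sum_add_distrib, ← Finset.mul_sum,
      Finset.sum_ite_eq' Finset.univ i, if_pos (Finset.mem_univ i), ← hf, map_mul, aeval_X,
      Derivation.leibniz, smul_eq_mul, smul_eq_mul]
    ring

end Pool.Agent.H1.TC
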