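import Pool.Agent.H1.TC.Zar

/-!
# Cyclic triple covers `w³ = ∑ a_I ∏_{i ∈ I} z_i²`
-/

set_option autoImplicit false

open Set Filter Topology

namespace Pool.Agent.H1.TC

variable {n : ℕ}

/-- the polynomial `∑ a_I ∏_{i ∈ I} z_i²` -/
noncomputable def evenPoly (a : Finset (Fin n) → ℚ) : MvPolynomial (Fin n) ℚ :=
  ∑ I : Finset (Fin n), MvPolynomial.C (a I) * ∏ i ∈ I, MvPolynomial.X i ^ 2

/-- the coefficient of `z_i²` -/
def al (a : Finset (Fin n) → ℚ) (i : Fin n) (z : Fin n → ℚ) : ℚ :=
  ∑ I ∈ Finset.univ.filter (fun I : Finset (Fin n) => i ∈ I), a I * ∏ k ∈ I.erase i, z k ^ 2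

/-- the part without `z_i` -/
def be (a : Finset (Fin n) → ℚ) (i : Fin n) (z : Fin n → ℚ) : ℚ :=
  ∑ I ∈ Finset.univ.filter (fun I : Finset (Fin n) => ¬ i ∈ I), a I * ∏ k ∈ I, z k ^ 2

lemma restriction_even (a : Finset (Fin n) → ℚ) (i : Fin n) (z : Fin n → ℚ) :
    restriction (evenPoly a) z (Pi.single i 1) =
      Polynomial.C (al a i z) * (Polynomial.C (z i) + Polynomial.X) ^ 2 +
        Polynomial.C (be a i z) := by
  unfold restriction evenPoly
  simp only [map_sum, map_mul, map_prod, map_pow, MvPolynomial.aeval_X, MvPolynomial.aeval_C]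
  rw [← Finset.sum_filter_add_sum_filter_not Finset.univ (fun I : Finset (Fin n) => i ∈ I)]
  congr 1
  · unfold al
    rw [map_sum, Finset.sum_mul]
    refine Finset.sum_congr rfl fun I hI => ?_
    have hiI : i ∈ I := (Finset.mem_filter.1 hI).2
    rw [← Finset.mul_prod_erase I _ hiI]
    have h1 : ∏ k ∈ I.erase i, (Polynomial.C (z k) + Polynomial.C
        ((Pi.single i (1 : ℚ) : Fin n → ℚ) k) * Polynomial.X) ^ 2 =
        Polynomial.C (∏ k ∈ I.erase i, z k ^ 2) := by
      rw [map_prod]
      refine Finset.prod_congr rfl fun k hk => ?_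
      have hki : k ≠ i := (Finset.mem_erase.1 hk).1
      rw [Pi.single_eq_of_ne hki]
      simp
    rw [h1, Pi.single_eq_same, map_mul]
    change Polynomial.C (a I) * _ = _
    rw [map_one, one_mul]
    ring
  · unfold be
    rw [map_sum]
    refine Finset.sum_congr rfl fun I hI => ?_
    have hiI : i ∉ I := (Finset.mem_filter.1 hI).2
    rw [map_mul]
    change Polynomial.C (a I) * _ = _
    congr 1
    rw [map_prod]
    refine Finset.prod_congr rfl fun k hk => ?_
    have hki : k ≠ i := by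
      rintro rfl
      exact hiI hk
    rw [Pi.single_eq_of_ne hki]
    simp

lemma cf_even (a : Finset (Fin n) → ℚ) (i : Fin n) (z : Fin n → ℚ) :
    cf (evenPoly a) z (Pi.single i 1) 0 = al a i z * z i ^ 2 + be a i z ∧
    cf (evenPoly a) z (Pi.single i 1) 1 = 2 * al a i z * z i ∧
    cf (evenPoly a) z (Pi.single i 1) 2 = al a i z ∧
    cf (evenPoly a) z (Pi.single i 1) 3 = 0 := by
  have h := coeff_cubic (al a i z * z i ^ 2 + be a i z) (2 * al a i z * z i) (al a i z) 0
  simp only at h
  have e : restriction (evenPoly a) z (Pi.single i 1) =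
      Polynomial.C (al a i z * z i ^ 2 + be a i z) + Polynomial.C (2 * al a i z * z i) *
        Polynomial.X + Polynomial.C (al a i z) * Polynomial.X ^ 2 +
        Polynomial.C 0 * Polynomial.X ^ 3 := by
    rw [restriction_even]
    simp only [Polynomial.C_add, Polynomial.C_mul, Polynomial.C_pow]
    have e2 : (Polynomial.C (2 : ℚ)) = 2 := rfl
    rw [e2, Polynomial.C_0]
    ring
  rw [← e] at h
  exact h

lemma natDegree_even (a : Finset (Fin n) → ℚ) (i : Fin n) (z : Fin n → ℚ) :
    (restriction (evenPoly a) z (Pi.single i 1)).natDegree ≤ 3 := by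
  rw [restriction_even]
  compute_degree
  norm_num

lemma al_pos {a : Finset (Fin n) → ℚ} (ha : ∀ I, 0 < a I) (i : Fin n) (z : Fin n → ℚ) :
    0 < al a i z := by
  unfold al
  refine Finset.sum_pos' (fun I _ => mul_nonneg (ha I).le (Finset.prod_nonneg fun k _ =>
    sq_nonneg _)) ⟨{i}, ?_, ?_⟩
  · simp
  · simp [ha]

lemma be_pos {a : Finset (Fin n) → ℚ} (ha : ∀ I, 0 < a I) (i : Fin n) (z : Fin n → ℚ) :
    0 < be a i z := by
  unfold be
  refine Finset.sum_pos' (fun I _ => mul_nonneg (ha I).le (Finset.prod_nonneg fun k _ =>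
    sq_nonneg _)) ⟨∅, ?_, ?_⟩
  · simp
  · simp [ha]

/-- the equation `p³ = 225 p² + 405 p + 243` has no rational solution `p ≥ 0` -/
lemma no_root {A B : ℚ} (hA : 0 ≤ A) (hB : 0 < B) :
    A ^ 3 ≠ 225 * A ^ 2 * B + 405 * A * B ^ 2 + 243 * B ^ 3 := by
  intro h
  set p : ℚ := A / B with hp
  have hpA : A = p * B := by
    rw [hp]
    field_simp
  have hp0 : 0 ≤ p := div_nonneg hA hB.le
  have h1 : p ^ 3 = 225 * p ^ 2 + 405 * p + 243 := by
    rw [hpA] at h
    have hB3 : B ^ 3 ≠ 0 := by positivity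
    apply mul_right_cancel₀ hB3
    linear_combination h
  -- `p` is an integer
  have h2 : IsIntegral ℤ p := by
    refine ⟨Polynomial.X ^ 3 - 225 * Polynomial.X ^ 2 - 405 * Polynomial.X - 243, ?_, ?_⟩
    · have : (Polynomial.X ^ 3 - 225 * Polynomial.X ^ 2 - 405 * Polynomial.X - 243 :
          Polynomial ℤ) = Polynomial.X ^ 3 + (-(225 * Polynomial.X ^ 2 + 405 * Polynomial.X +
          243)) := by ring
      rw [this]
      refine Polynomial.monic_X_pow_add ?_
      rw [Polynomial.degree_neg]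
      have : (225 * Polynomial.X ^ 2 + 405 * Polynomial.X + 243 : Polynomial ℤ) =
        Polynomial.C 225 * Polynomial.X ^ 2 + Polynomial.C 405 * Polynomial.X +
          Polynomial.C 243 := rfl
      rw [this]
      exact (Polynomial.degree_quadratic_le).trans_lt (by norm_num)
    · simp only [Polynomial.eval₂_sub, Polynomial.eval₂_mul, Polynomial.eval₂_X_pow,
        Polynomial.eval₂_X, Polynomial.eval₂_ofNat]
      rw [h1]
      ring
  obtain ⟨m, hm⟩ := IsIntegrallyClosed.isIntegral_iff.1 h2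
  have hm' : p = (m : ℚ) := by
    rw [← hm]
    rfl
  rw [hm'] at h1 hp0
  have h3 : m ^ 3 = 225 * m ^ 2 + 405 * m + 243 := by exact_mod_cast h1
  have h4 : 0 ≤ m := by exact_mod_cast hp0
  rcases le_or_gt m 226 with h5 | h5
  · nlinarith [mul_nonneg h4 h4, mul_nonneg (mul_nonneg h4 h4) (sub_nonneg.2 h5)]
  · nlinarith [mul_nonneg h4 h4, mul_nonneg (mul_nonneg h4 h4) (sub_nonneg.2 (Int.add_one_le_iff.2 h5))]

lemma covN_even {a : Finset (Fin n) → ℚ} (ha : ∀ I, 0 < a I) (i : Fin n) {z : Fin n → ℚ}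
    (h : covN (evenPoly a) z (Pi.single i 1) = 0) :
    z i = 0 ∨ al a i z * z i ^ 2 = 3 * be a i z := by
  obtain ⟨e0, e1, e2, e3⟩ := cf_even a i z
  have hα := al_pos ha i z
  have hβ := be_pos ha i z
  unfold covN covH covQ at h
  rw [e0, e1, e2, e3] at h
  set α := al a i z
  set β := be a i z
  set t := z i
  have hA : 0 ≤ α * t ^ 2 := by positivity
  rcases mul_eq_zero.1 h with h | h
  · rcases mul_eq_zero.1 h with h | h
    · rcases mul_eq_zero.1 h with h | h
      · right
        have : α * (α * t ^ 2 - 3 * β) = 0 := by linear_combination h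
        rcases mul_eq_zero.1 this with h | h
        · exact absurd h hα.ne'
        · linarith
      · left
        have h2 : (α ^ 2 * (α * t ^ 2 + 9 * β)) * t = 0 := by linear_combination -h / 2
        rcases mul_eq_zero.1 h2 with h | h
        · exact absurd h (by positivity)
        · exact h
    · exfalso
      have h2 : α ^ 3 * ((α * t ^ 2) ^ 3 + 99 * (α * t ^ 2) ^ 2 * β + 243 * (α * t ^ 2) * β ^ 2 +
          81 * β ^ 3) = 0 := by linear_combination h
      have h3 : 0 < α ^ 3 * ((α * t ^ 2) ^ 3 + 99 * (α * t ^ 2) ^ 2 * β +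
          243 * (α * t ^ 2) * β ^ 2 + 81 * β ^ 3) := by positivity
      exact absurd h2 h3.ne'
  · exfalso
    have h2 : α ^ 3 * ((α * t ^ 2) ^ 3 - (225 * (α * t ^ 2) ^ 2 * β + 405 * (α * t ^ 2) * β ^ 2 +
          243 * β ^ 3)) = 0 := by linear_combination -h
    rcases mul_eq_zero.1 h2 with h | h
    · exact absurd h (by positivity)
    · exact no_root hA hβ (sub_eq_zero.1 h)

/-! ### Uniqueness -/

lemma log_mono_nonneg {x y : ℝ} (hx : 0 < x) (hy : 0 < y) :
    0 ≤ (x - y) * (Real.log x - Real.log y) := by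
  rcases le_total x y with h | h
  · have := Real.log_le_log hx h
    nlinarith
  · have := Real.log_le_log hy h
    exact mul_nonneg (by linarith) (by linarith)

lemma log_mono_eq {x y : ℝ} (hx : 0 < x) (hy : 0 < y)
    (h : (x - y) * (Real.log x - Real.log y) = 0) : x = y := by
  rcases mul_eq_zero.1 h with h | h
  · linarith
  · exact Real.log_injOn_pos hx hy (by linarith)

/-- **uniqueness of the critical point** -/
theorem unique_pt {a : Finset (Fin n) → ℚ} (ha : ∀ I, 0 < a I) {p q : Fin n → ℚ}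
    (hs : ∀ i, SignType.sign (p i) = SignType.sign (q i))
    (hp : ∀ i, p i = 0 ∨ al a i p * p i ^ 2 = 3 * be a i p)
    (hq : ∀ i, q i = 0 ∨ al a i q * q i ^ 2 = 3 * be a i q) : p = q := by
  classical
  -- the monomials
  set m : (Fin n → ℚ) → Finset (Fin n) → ℝ := fun z I => ((a I * ∏ k ∈ I, z k ^ 2 : ℚ) : ℝ)
    with hm
  set F : (Fin n → ℚ) → ℝ := fun z => ∑ I, m z I with hF
  have hm0 : ∀ z I, 0 ≤ m z I := fun z I => by
    have : 0 ≤ a I * ∏ k ∈ I, z k ^ 2 := mul_nonneg (ha I).le (Finset.prod_nonneg fun k _ =>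
      sq_nonneg _)
    simp only [hm]
    exact_mod_cast this
  have hFpos : ∀ z, 0 < F z := fun z => by
    refine Finset.sum_pos' (fun I _ => hm0 z I) ⟨∅, Finset.mem_univ _, ?_⟩
    simp only [hm, Finset.prod_empty, mul_one]
    exact_mod_cast ha ∅
  -- marginals
  have hmarg : ∀ z i, ((al a i z * z i ^ 2 : ℚ) : ℝ) =
      ∑ I ∈ Finset.univ.filter (fun I : Finset (Fin n) => i ∈ I), m z I := by
    intro z i
    unfold al
    rw [Finset.sum_mul]
    push_cast
    refine Finset.sum_congr rfl fun I hI => ?_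
    have hiI : i ∈ I := (Finset.mem_filter.1 hI).2
    simp only [hm]
    push_cast
    rw [← Finset.mul_prod_erase I _ hiI]
    ring
  have hbe : ∀ z i, ((be a i z : ℚ) : ℝ) =
      ∑ I ∈ Finset.univ.filter (fun I : Finset (Fin n) => ¬ i ∈ I), m z I := by
    intro z i
    unfold be
    push_cast
    refine Finset.sum_congr rfl fun I hI => ?_
    simp only [hm]
    push_cast
    rfl
  have htot : ∀ z i, F z = ((al a i z * z i ^ 2 : ℚ) : ℝ) + ((be a i z : ℚ) : ℝ) := by
    intro z i
    rw [hmarg, hbe, Finset.sum_filter_add_sum_filter_not]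
  have hmg : ∀ z : Fin n → ℚ, (∀ i, z i = 0 ∨ al a i z * z i ^ 2 = 3 * be a i z) → ∀ i,
      (∑ I ∈ Finset.univ.filter (fun I : Finset (Fin n) => i ∈ I), m z I / F z) =
        if z i = 0 then 0 else 3 / 4 := by
    intro z hz i
    rw [← Finset.sum_div, ← hmarg]
    split_ifs with h0
    · rw [h0]
      simp
    · have h1 := (hz i).resolve_left h0
      have h2 : ((al a i z * z i ^ 2 : ℚ) : ℝ) = 3 * ((be a i z : ℚ) : ℝ) := by
        rw [h1]
        push_cast
        rfl
      have h3 := htot z i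
      have h4 := hFpos z
      rw [div_eq_div_iff h4.ne' (by norm_num)]
      linarith
  have hzero : ∀ i, p i = 0 ↔ q i = 0 := fun i => by
    rw [← sign_eq_zero_iff, hs i, sign_eq_zero_iff]
  -- the two probability measures
  set P : Finset (Fin n) → ℝ := fun I => m p I / F p with hP
  set R : Finset (Fin n) → ℝ := fun I => m q I / F q with hR
  have hP1 : ∑ I, P I = 1 := by
    simp only [hP]
    rw [← Finset.sum_div]
    exact div_self (hFpos p).ne'
  have hR1 : ∑ I, R I = 1 := by
    simp only [hR]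
    rw [← Finset.sum_div]
    exact div_self (hFpos q).ne'
  have hPR : ∀ i, ∑ I ∈ Finset.univ.filter (fun I : Finset (Fin n) => i ∈ I), P I =
      ∑ I ∈ Finset.univ.filter (fun I : Finset (Fin n) => i ∈ I), R I := by
    intro i
    rw [hmg p hp i, hmg q hq i]
    by_cases h : p i = 0
    · rw [if_pos h, if_pos ((hzero i).1 h)]
    · rw [if_neg h, if_neg fun h' => h ((hzero i).2 h')]
  set t : Fin n → ℝ := fun k => Real.log ((p k : ℝ) ^ 2) - Real.log ((q k : ℝ) ^ 2) with ht
  set c : ℝ := Real.log (F p) - Real.log (F q) with hc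
  -- either both are zero, or both are positive
  have hdich : ∀ I, (P I = 0 ∧ R I = 0) ∨ (0 < P I ∧ 0 < R I ∧
      Real.log (P I) - Real.log (R I) = ∑ k ∈ I, t k - c) := by
    intro I
    by_cases h : ∃ k ∈ I, p k = 0
    · left
      obtain ⟨k, hk, hk0⟩ := h
      have h1 : m p I = 0 := by
        simp only [hm]
        rw [Finset.prod_eq_zero hk (by rw [hk0]; ring), mul_zero, Rat.cast_zero]
      have h2 : m q I = 0 := by
        simp only [hm]
        rw [Finset.prod_eq_zero hk (by rw [(hzero k).1 hk0]; ring), mul_zero, Rat.cast_zero]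
      exact ⟨by simp only [hP, h1, zero_div], by simp only [hR, h2, zero_div]⟩
    · right
      push Not at h
      have hq' : ∀ k ∈ I, q k ≠ 0 := fun k hk h' => h k hk ((hzero k).2 h')
      have haI : (0 : ℝ) < (a I : ℝ) := by exact_mod_cast ha I
      have hlog : ∀ z : Fin n → ℚ, (∀ k ∈ I, z k ≠ 0) → 0 < m z I ∧
          Real.log (m z I) = Real.log (a I) + ∑ k ∈ I, Real.log ((z k : ℝ) ^ 2) := by
        intro z hz
        have h1 : ∀ k ∈ I, (z k : ℝ) ^ 2 ≠ 0 := fun k hk =>
          pow_ne_zero 2 (by exact_mod_cast hz k hk)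
        have h2 : (0 : ℝ) < ∏ k ∈ I, (z k : ℝ) ^ 2 := Finset.prod_pos fun k hk =>
          lt_of_le_of_ne (sq_nonneg _) (h1 k hk).symm
        have h3 : m z I = (a I : ℝ) * ∏ k ∈ I, (z k : ℝ) ^ 2 := by
          simp only [hm]
          push_cast
          rfl
        rw [h3]
        refine ⟨mul_pos haI h2, ?_⟩
        rw [Real.log_mul haI.ne' h2.ne', Real.log_prod h1]
      obtain ⟨h1, h2⟩ := hlog p h
      obtain ⟨h3, h4⟩ := hlog q hq'
      refine ⟨div_pos h1 (hFpos p), div_pos h3 (hFpos q), ?_⟩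
      simp only [hP, hR]
      rw [Real.log_div h1.ne' (hFpos p).ne', Real.log_div h3.ne' (hFpos q).ne', h2, h4]
      simp only [ht, hc]
      rw [Finset.sum_sub_distrib]
      ring
  have hterm : ∀ I, (P I - R I) * (Real.log (P I) - Real.log (R I)) =
      (P I - R I) * (∑ k ∈ I, t k) - (P I - R I) * c := by
    intro I
    rcases hdich I with ⟨h1, h2⟩ | ⟨-, -, h3⟩
    · rw [h1, h2]
      ring
    · rw [h3]
      ring
  have hsum : ∑ I, (P I - R I) * (Real.log (P I) - Real.log (R I)) = 0 := by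
    simp only [hterm]
    rw [Finset.sum_sub_distrib, ← Finset.sum_mul, Finset.sum_sub_distrib, hP1, hR1]
    have h1 : ∑ I : Finset (Fin n), (P I - R I) * (∑ k ∈ I, t k) = 0 := by
      have h2 : ∀ I : Finset (Fin n), (P I - R I) * (∑ k ∈ I, t k) =
          ∑ k, if k ∈ I then (P I - R I) * t k else 0 := by
        intro I
        rw [Finset.mul_sum, ← Finset.sum_filter]
        refine Finset.sum_congr ?_ fun _ _ => rfl
        ext k
        simp
      simp only [h2]
      rw [Finset.sum_comm]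
      refine Finset.sum_eq_zero fun k _ => ?_
      rw [← Finset.sum_filter, ← Finset.sum_mul, Finset.sum_sub_distrib, hPR k]
      ring
    rw [h1]
    ring
  have heq : ∀ I, P I = R I := by
    have h1 := (Finset.sum_eq_zero_iff_of_nonneg (fun I _ => by
      rcases hdich I with ⟨h1, h2⟩ | ⟨h1, h2, -⟩
      · rw [h1, h2]
        simp
      · exact log_mono_nonneg h1 h2)).1 hsum
    intro I
    rcases hdich I with ⟨h2, h3⟩ | ⟨h2, h3, -⟩
    · rw [h2, h3]
    · exact log_mono_eq h2 h3 (h1 I (Finset.mem_univ _))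
  have hFF : F p = F q := by
    have h1 := heq ∅
    simp only [hP, hR, hm, Finset.prod_empty, mul_one] at h1
    have h2 : (0 : ℝ) < (a ∅ : ℝ) := by exact_mod_cast ha ∅
    rw [div_eq_div_iff (hFpos p).ne' (hFpos q).ne'] at h1
    exact (mul_left_cancel₀ h2.ne' h1).symm
  funext k
  have h1 := heq {k}
  simp only [hP, hR, hm, Finset.prod_singleton] at h1
  rw [hFF, div_left_inj' (hFpos q).ne'] at h1
  have h2 : a {k} * p k ^ 2 = a {k} * q k ^ 2 := by exact_mod_cast h1
  have h3 : p k ^ 2 = q k ^ 2 := mul_left_cancel₀ (ha {k}).ne' h2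
  rcases sq_eq_sq_iff_eq_or_eq_neg.1 h3 with h4 | h4
  · exact h4
  · have h5 := hs k
    rw [h4, Left.sign_neg] at h5
    have h6 : SignType.sign (q k) = 0 := by
      rcases hx : SignType.sign (q k) with _ | _ | _
      · rfl
      · rw [hx] at h5
        exact absurd h5 (by decide)
      · rw [hx] at h5
        exact absurd h5 (by decide)
    rw [sign_eq_zero_iff] at h6
    rw [h4, h6]
    simp

/-! ### Finiteness -/

theorem even_finite {a : Finset (Fin n) → ℚ} (ha : ∀ I, 0 < a I) :
    {A : AffineSubspace ℚ (Fin n → ℚ) | Terminal (evenPoly a)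
      (Set.range fun i : Fin n => (Pi.single i (1 : ℚ) : Fin n → ℚ)) A ∧
      ∃ z ∈ A, z ∈ cubeSet (evenPoly a)}.Finite := by
  classical
  set V : Set (Fin n → ℚ) := Set.range fun i : Fin n => (Pi.single i (1 : ℚ) : Fin n → ℚ) with hV
  have key : ∀ A : AffineSubspace ℚ (Fin n → ℚ), (Terminal (evenPoly a) V A ∧
      ∃ z ∈ A, z ∈ cubeSet (evenPoly a)) → ∃ p ∈ A, ∀ i, p i = 0 ∨
        al a i p * p i ^ 2 = 3 * be a i p := by
    rintro A ⟨⟨-, h2⟩, z, hz, -⟩
    set p : Fin n → ℚ := fun i => if (Pi.single i (1 : ℚ) : Fin n → ℚ) ∈ A.direction then 0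
      else z i with hp
    have hpz : p - z ∈ A.direction := by
      have e : p - z = ∑ i, (if (Pi.single i (1 : ℚ) : Fin n → ℚ) ∈ A.direction then
          (-z i) • (Pi.single i (1 : ℚ) : Fin n → ℚ) else 0) := by
        funext k
        rw [Finset.sum_apply, Finset.sum_eq_single k]
        · simp only [hp, Pi.sub_apply]
          split_ifs
          · simp
          · simp
        · intro i _ hik
          split_ifs
          · simp [Pi.single_apply, hik.symm]
          · rfl
        · intro h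
          exact absurd (Finset.mem_univ k) h
      rw [e]
      refine Submodule.sum_mem _ fun i _ => ?_
      split_ifs with h
      · exact Submodule.smul_mem _ _ h
      · exact Submodule.zero_mem _
    have hpA : p ∈ A := by
      have := AffineSubspace.vadd_mem_of_mem_direction hpz hz
      rwa [vadd_eq_add, sub_add_cancel] at this
    refine ⟨p, hpA, fun i => ?_⟩
    by_cases h : (Pi.single i (1 : ℚ) : Fin n → ℚ) ∈ A.direction
    · left
      simp only [hp]
      rw [if_pos h]
    · exact covN_even ha i ((h2 _ ⟨i, rfl⟩ h).1 p hpA)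
  choose! P hPA hP using key
  refine Set.Finite.of_injOn (f := fun A : AffineSubspace ℚ (Fin n → ℚ) =>
    (({i | (Pi.single i (1 : ℚ) : Fin n → ℚ) ∈ A.direction} : Set (Fin n)),
      fun i => SignType.sign (P A i))) (t := Set.univ) (fun _ _ => Set.mem_univ _) ?_
    Set.finite_univ
  intro A hA B hB hAB
  simp only [Prod.mk.injEq] at hAB
  obtain ⟨h1, h2⟩ := hAB
  have h3 : P A = P B := unique_pt ha (fun i => congrFun h2 i) (hP A hA) (hP B hB)
  have h4 : A.direction = B.direction := by
    rw [hA.1.1, hB.1.1]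
    congr 1
    ext v
    constructor
    · rintro ⟨⟨i, rfl⟩, hv⟩
      have : i ∈ {i | (Pi.single i (1 : ℚ) : Fin n → ℚ) ∈ B.direction} := by
        rw [← h1]
        exact hv
      exact ⟨⟨i, rfl⟩, this⟩
    · rintro ⟨⟨i, rfl⟩, hv⟩
      have : i ∈ {i | (Pi.single i (1 : ℚ) : Fin n → ℚ) ∈ A.direction} := by
        rw [h1]
        exact hv
      exact ⟨⟨i, rfl⟩, this⟩
  refine AffineSubspace.ext_of_direction_eq h4 ⟨P A, hPA A hA, ?_⟩
  rw [h3]
  exact hPA B hB

lemma even_ne_zero {a : Finset (Fin n) → ℚ} (ha : ∀ I, 0 < a I) (z : Fin n → ℚ) :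
    MvPolynomial.eval z (evenPoly a) ≠ 0 := by
  have h : MvPolynomial.eval z (evenPoly a) = ∑ I, a I * ∏ i ∈ I, z i ^ 2 := by
    unfold evenPoly
    simp only [map_sum, map_mul, map_prod, map_pow, MvPolynomial.eval_X, MvPolynomial.eval_C]
  rw [h]
  refine (Finset.sum_pos' (fun I _ => mul_nonneg (ha I).le (Finset.prod_nonneg fun k _ =>
    sq_nonneg _)) ⟨∅, Finset.mem_univ _, ?_⟩).ne'
  simp [ha]

/-- **the closure is semialgebraic** -/
theorem even_semialg {a : Finset (Fin n) → ℚ} (ha : ∀ I, 0 < a I) :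
    Pool.Agent.H581R2.SA (closure (XQ (evenPoly a))) := by
  refine semialg_closure (V := Set.range fun i : Fin n => (Pi.single i (1 : ℚ) : Fin n → ℚ))
    ?_ (even_finite ha) ?_
  · rintro _ ⟨i, rfl⟩ z
    exact natDegree_even a i z
  · have : {z : Fin n → ℚ | MvPolynomial.eval z (evenPoly a) = 0} = ∅ :=
      eq_empty_of_forall_notMem fun z hz => even_ne_zero ha z hz
    rw [this, rc_empty]
    exact Pool.Agent.H581R2.SA.empty

end Pool.Agent.H1.TC
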