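import Pool.Agent.H1.TC.Link

/-!
# The closure of the set of rational points with `w ≠ 0`
-/

set_option autoImplicit false

open Set Filter Topology

namespace Pool.Agent.H1.TC

open Pool.Agent.H581R2 Pool.Agent.TH729.SQ

variable {n : ℕ}

/-- the rational points over a set -/
def XS (f : MvPolynomial (Fin n) ℚ) (S : Set (Fin n → ℚ)) : Set (Fin (n + 1) → ℝ) :=
  {x | ∃ q : Fin (n + 1) → ℚ, Fin.tail q ∈ S ∧ q 0 ^ 3 = MvPolynomial.eval (Fin.tail q) f ∧
    ∀ i, x i = (q i : ℝ)}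

theorem closure_XS (f : MvPolynomial (Fin n) ℚ) {S : Set (Fin n → ℚ)} (hS : S ⊆ cubes f) :
    closure (XS f S) = {x | x ∈ XR f ∧ Fin.tail x ∈ rc S} := by
  have htail : Continuous fun x : Fin (n + 1) → ℝ => (Fin.tail x : Fin n → ℝ) :=
    continuous_pi fun i => continuous_apply (Fin.succ i)
  apply Subset.antisymm
  · refine closure_minimal ?_ ?_
    · rintro x ⟨q, hqS, hq, hx⟩
      have e1 : Fin.tail x = fun i => ((Fin.tail q i : ℚ) : ℝ) := by
        funext i
        exact hx _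
      refine ⟨?_, subset_closure ⟨Fin.tail q, hqS, fun i => hx _⟩⟩
      change x 0 ^ 3 = MvPolynomial.aeval (Fin.tail x) f
      rw [e1, aeval_cast, ← hq, hx 0]
      push_cast
      rfl
    · refine IsClosed.inter ?_ ?_
      · exact isClosed_eq ((continuous_apply 0).pow 3) ((aeval_continuous f).comp htail)
      · exact isClosed_closure.preimage htail
  · rintro x ⟨hx, hxc⟩
    rw [Metric.mem_closure_iff]
    intro ε hε
    have hc : Continuous fun y : Fin n → ℝ => cbrt (MvPolynomial.aeval y f) :=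
      cbrt_continuous.comp (aeval_continuous f)
    obtain ⟨δ, hδ, h1⟩ := (Metric.continuous_iff.1 hc) (Fin.tail x) ε hε
    obtain ⟨q, hqS, hq⟩ := mem_rc.1 hxc (min δ ε) (lt_min hδ hε)
    obtain ⟨w, hw⟩ := hS hqS
    have h2 := h1 (fun i => (q i : ℝ)) ((dist_pi_lt_iff hδ).2 fun i => by
      rw [Real.dist_eq, abs_sub_comm]
      exact (hq i).trans_le (min_le_left _ _))
    have h3 : x 0 = cbrt (MvPolynomial.aeval (Fin.tail x) f) := cbrt_unique hx
    have h4 : (w : ℝ) = cbrt (MvPolynomial.aeval (fun i => (q i : ℝ)) f) := by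
      apply cbrt_unique
      rw [aeval_cast, ← hw]
      push_cast
      rfl
    rw [← h3, ← h4] at h2
    refine ⟨fun i => ((Fin.cons w q : Fin (n + 1) → ℚ) i : ℝ), ⟨Fin.cons w q, ?_, ?_,
      fun i => rfl⟩, ?_⟩
    · rw [Fin.tail_cons]
      exact hqS
    · rw [Fin.cons_zero, Fin.tail_cons]
      exact hw
    · rw [dist_pi_lt_iff hε]
      intro i
      refine Fin.cases ?_ (fun i => ?_) i
      · rw [Fin.cons_zero, dist_comm]
        exact h2
      · rw [Fin.cons_succ, Real.dist_eq]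
        exact (hq i).trans_le (min_le_right _ _)

/-- the rational points with `w ≠ 0` -/
def X0 (f : MvPolynomial (Fin n) ℚ) : Set (Fin (n + 1) → ℝ) :=
  {x | ∃ q : Fin (n + 1) → ℚ, q 0 ≠ 0 ∧ q 0 ^ 3 = MvPolynomial.eval (Fin.tail q) f ∧
    ∀ i, x i = (q i : ℝ)}

lemma X0_eq (f : MvPolynomial (Fin n) ℚ) : X0 f = XS f (cubeSet f) := by
  ext x
  constructor
  · rintro ⟨q, h0, hq, hx⟩
    exact ⟨q, ⟨q 0, h0, hq⟩, hq, hx⟩
  · rintro ⟨q, ⟨w, hw, hw3⟩, hq, hx⟩
    refine ⟨q, ?_, hq, hx⟩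
    intro h0
    rw [h0, ← hw3] at hq
    exact pow_ne_zero 3 hw (by rw [← hq]; ring)

/-- **the structure of the closure** of the set of rational points with `w ≠ 0` -/
theorem closure_X0 {f : MvPolynomial (Fin n) ℚ} {V : Set (Fin n → ℚ)}
    (hd : ∀ v ∈ V, ∀ z, (restriction f z v).natDegree ≤ 3)
    (hfin : {A : AffineSubspace ℚ (Fin n → ℚ) | Terminal f V A ∧
      ∃ z ∈ A, z ∈ cubeSet f}.Finite) :
    ∃ 𝒜 : Set (AffineSubspace ℚ (Fin n → ℚ)), 𝒜.Finite ∧
      (∀ A ∈ 𝒜, (A : Set (Fin n → ℚ)).Nonempty ∧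
        A.direction = Submodule.span ℚ {v | v ∈ V ∧ v ∈ A.direction}) ∧
      closure (X0 f) = {x | x ∈ XR f ∧ ∃ A ∈ 𝒜, Fin.tail x ∈ rc (A : Set (Fin n → ℚ))} := by
  have hfin' : {A : AffineSubspace ℚ (Fin n → ℚ) | (Terminal f V A ∧
      ∃ z ∈ A, z ∈ cubeSet f) ∧ rc (A : Set (Fin n → ℚ)) ⊆ rc (cubeSet f)}.Finite :=
    hfin.subset fun A hA => hA.1
  refine ⟨_, hfin', fun A hA => ⟨?_, hA.1.1.1⟩, ?_⟩
  · obtain ⟨z, hz, -⟩ := hA.1.2
    exact ⟨z, hz⟩
  rw [X0_eq, closure_XS f (fun z hz => by rw [cubes_eq]; exact Or.inl hz)]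
  ext x
  refine and_congr_right fun _ => ?_
  constructor
  · intro hx
    have hcl : IsClosed (⋃ A ∈ hfin'.toFinset, rc (A : Set (Fin n → ℚ))) :=
      isClosed_biUnion_finset fun A _ => isClosed_closure
    have hsub : rc (cubeSet f) ⊆ ⋃ A ∈ hfin'.toFinset, rc (A : Set (Fin n → ℚ)) := by
      refine closure_minimal ?_ hcl
      rintro y ⟨q, hq, hy⟩
      obtain ⟨A, hqA, hA1, hA2⟩ := exists_terminal hd hq
      rw [mem_iUnion₂]
      exact ⟨A, hfin'.mem_toFinset.2 ⟨⟨hA1, q, hqA, hq⟩, hA2⟩,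
        subset_closure ⟨q, hqA, hy⟩⟩
    have := hsub hx
    rw [mem_iUnion₂] at this
    obtain ⟨A, hA, hxA⟩ := this
    exact ⟨A, hfin'.mem_toFinset.1 hA, hxA⟩
  · rintro ⟨A, hA, hxA⟩
    exact hA.2 hxA

/-- the real closure of a coordinate subspace -/
lemma rc_coord {A : AffineSubspace ℚ (Fin n → ℚ)} {p : Fin n → ℚ} (hp : p ∈ A)
    {J : Finset (Fin n)} (hJ : ∀ i, i ∈ J ↔ (Pi.single i (1 : ℚ) : Fin n → ℚ) ∉ A.direction)
    (hA : A.direction = Submodule.span ℚ {v | v ∈ (Set.range fun i : Fin n =>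
      (Pi.single i (1 : ℚ) : Fin n → ℚ)) ∧ v ∈ A.direction}) :
    rc (A : Set (Fin n → ℚ)) = {x | ∀ j ∈ J, x j = (p j : ℝ)} := by
  have hmem : ∀ z : Fin n → ℚ, z ∈ A ↔ ∀ j ∈ J, z j = p j := by
    intro z
    constructor
    · intro hz j hj
      have h1 : z - p ∈ A.direction := AffineSubspace.vsub_mem_direction hz hp
      have h2 : A.direction ≤ LinearMap.ker (LinearMap.proj j : (Fin n → ℚ) →ₗ[ℚ] ℚ) := by
        rw [hA, Submodule.span_le]
        rintro _ ⟨⟨i, rfl⟩, hi⟩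
        have hij : i ≠ j := by
          rintro rfl
          exact (hJ i).1 hj hi
        simp [Pi.single_eq_of_ne hij.symm]
      have h3 := h2 h1
      rw [LinearMap.mem_ker, LinearMap.proj_apply, Pi.sub_apply] at h3
      linarith
    · intro hz
      have h1 : z - p ∈ A.direction := by
        have e : z - p = ∑ i, (z i - p i) • (Pi.single i (1 : ℚ) : Fin n → ℚ) := by
          funext k
          simp [Finset.sum_apply, Pi.single_apply]
        rw [e]
        refine Submodule.sum_mem _ fun i _ => ?_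
        by_cases hi : i ∈ J
        · rw [hz i hi, sub_self, zero_smul]
          exact Submodule.zero_mem _
        · rw [hJ, not_not] at hi
          exact Submodule.smul_mem _ _ hi
      have := AffineSubspace.vadd_mem_of_mem_direction h1 hp
      rwa [vadd_eq_add, sub_add_cancel] at this
  apply Subset.antisymm
  · refine closure_minimal ?_ ?_
    · rintro x ⟨q, hq, hx⟩ j hj
      rw [hx j, (hmem q).1 hq j hj]
    · have : {x : Fin n → ℝ | ∀ j ∈ J, x j = (p j : ℝ)} =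
          ⋂ j ∈ J, {x : Fin n → ℝ | x j = (p j : ℝ)} := by
        ext x
        simp
      rw [this]
      exact isClosed_biInter fun j _ => isClosed_eq (continuous_apply j) continuous_const
  · intro x hx
    rw [mem_rc]
    intro ε hε
    have h : ∀ i, ∃ q : ℚ, |x i - (q : ℝ)| < ε ∧ (i ∈ J → q = p i) := by
      intro i
      by_cases hi : i ∈ J
      · refine ⟨p i, ?_, fun _ => rfl⟩
        rw [hx i hi, sub_self, abs_zero]
        exact hε
      · obtain ⟨q, h1, h2⟩ := exists_rat_btwn (show x i - ε < x i by linarith)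
        refine ⟨q, ?_, fun h => absurd h hi⟩
        rw [abs_lt]
        constructor <;> linarith
    choose q hq1 hq2 using h
    exact ⟨q, (hmem q).2 fun j hj => hq2 j hj, hq1⟩

/-- **explicit form** for the coordinate directions -/
theorem closure_X0_coord {f : MvPolynomial (Fin n) ℚ}
    (hd : ∀ i : Fin n, ∀ z, (restriction f z (Pi.single i 1)).natDegree ≤ 3)
    (hfin : {A : AffineSubspace ℚ (Fin n → ℚ) | Terminal f
      (Set.range fun i : Fin n => (Pi.single i (1 : ℚ) : Fin n → ℚ)) A ∧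
      ∃ z ∈ A, z ∈ cubeSet f}.Finite) :
    ∃ S : Finset (Finset (Fin n) × (Fin n → ℚ)),
      closure (X0 f) = {x | x ∈ XR f ∧ ∃ s ∈ S, ∀ j ∈ s.1, Fin.tail x j = (s.2 j : ℝ)} := by
  classical
  obtain ⟨𝒜, h1, h2, h3⟩ := closure_X0 (by
    rintro _ ⟨i, rfl⟩ z
    exact hd i z) hfin
  have h4 : ∀ A ∈ 𝒜, ∃ p, p ∈ A := fun A hA => (h2 A hA).1
  choose! p hp using h4
  set JA : AffineSubspace ℚ (Fin n → ℚ) → Finset (Fin n) := fun A =>
    Finset.univ.filter fun i => (Pi.single i (1 : ℚ) : Fin n → ℚ) ∉ A.direction with hJA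
  refine ⟨h1.toFinset.image fun A => (JA A, p A), ?_⟩
  rw [h3]
  ext x
  refine and_congr_right fun _ => ?_
  have key : ∀ A ∈ 𝒜, (Fin.tail x ∈ rc (A : Set (Fin n → ℚ)) ↔
      ∀ j ∈ JA A, Fin.tail x j = (p A j : ℝ)) := by
    intro A hA
    rw [rc_coord (hp A hA) (J := JA A) (fun i => by simp [hJA]) (h2 A hA).2]
    rfl
  constructor
  · rintro ⟨A, hA, hx⟩
    exact ⟨(JA A, p A), Finset.mem_image_of_mem _ (h1.mem_toFinset.2 hA), (key A hA).1 hx⟩
  · rintro ⟨s, hs, hx⟩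
    obtain ⟨A, hA, rfl⟩ := Finset.mem_image.1 hs
    exact ⟨A, h1.mem_toFinset.1 hA, (key A (h1.mem_toFinset.1 hA)).2 hx⟩

/-- such sets are semialgebraic -/
lemma SA_coord (f : MvPolynomial (Fin n) ℚ) (S : Finset (Finset (Fin n) × (Fin n → ℚ))) :
    SA {x | x ∈ XR f ∧ ∃ s ∈ S, ∀ j ∈ s.1, Fin.tail x j = (s.2 j : ℝ)} := by
  refine SAP.and (SAP.eq (f := fun x : Fin (n + 1) → ℝ => x 0 ^ 3)
      (g := fun x : Fin (n + 1) → ℝ => MvPolynomial.aeval (Fin.tail x) f)
      ((PF.coord 0).pow 3) ?_) ?_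
  · exact (PF.aeval f).comp (φ := fun (x : Fin (n + 1) → ℝ) i => Fin.tail x i)
      fun i => PF.coord (Fin.succ i)
  · refine SAP.exists_mem S fun s _ => SAP.forall_mem s.1 fun j _ => ?_
    exact SAP.eq (PF.coord (Fin.succ j)) (PF.const _)

lemma closure_all {f : MvPolynomial (Fin n) ℚ} (h1 : SA (closure (X0 f)))
    (h2 : SA (closure {x : Fin (n + 1) → ℝ | ∃ q : Fin (n + 1) → ℚ, q 0 = 0 ∧
      MvPolynomial.eval (Fin.tail q) f = 0 ∧ ∀ i, x i = (q i : ℝ)})) :
    SA (closure (XQ f)) := by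
  have e : XQ f = X0 f ∪ {x : Fin (n + 1) → ℝ | ∃ q : Fin (n + 1) → ℚ, q 0 = 0 ∧
      MvPolynomial.eval (Fin.tail q) f = 0 ∧ ∀ i, x i = (q i : ℝ)} := by
    ext x
    constructor
    · rintro ⟨q, hq, hx⟩
      by_cases h0 : q 0 = 0
      · right
        refine ⟨q, h0, ?_, hx⟩
        rw [← hq, h0]
        ring
      · exact Or.inl ⟨q, h0, hq, hx⟩
    · rintro (⟨q, -, hq, hx⟩ | ⟨q, h0, hq, hx⟩)
      · exact ⟨q, hq, hx⟩
      · refine ⟨q, ?_, hx⟩
        rw [hq, h0]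
        ring
  rw [e, closure_union]
  exact h1.union h2

end Pool.Agent.H1.TC
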