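import Pool.Agent.H1.TC.Deg

/-!
# Forms of multidegree `(3, …, 3)`
-/

set_option autoImplicit false

namespace Pool.Agent.H1.TC

open MvPolynomial

variable {τ : Type}

/-- forms of multidegree `(3, …, 3)` -/
def IsForm (F : MvPolynomial (τ × Fin 2) ℚ) : Prop :=
  ∀ m ∈ F.support, ∀ j, m (j, 0) + m (j, 1) = 3

/-- smooth forms -/
def Smooth (F : MvPolynomial (τ × Fin 2) ℚ) : Prop :=
  ∀ x : τ × Fin 2 → ℂ, (∀ j, x (j, 0) ≠ 0 ∨ x (j, 1) ≠ 0) → ∃ p, aeval x (pderiv p F) ≠ 0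

section weights

variable [Fintype τ] [DecidableEq τ]

/-- the degree with respect to the pair of variables `j` -/
def wt (j : τ) (p : τ × Fin 2) : ℕ := if p.1 = j then 1 else 0

/-- the multidegree -/
def mw (p : τ × Fin 2) : τ → ℕ := Pi.single p.1 1

lemma IsForm.wt {F : MvPolynomial (τ × Fin 2) ℚ} (hF : IsForm F) (j : τ) :
    F.IsWeightedHomogeneous (wt j) 3 := by
  intro m hm
  have h := hF m (mem_support_iff.2 hm) j
  rw [Finsupp.weight_apply, Finsupp.sum_fintype _ _ (fun _ => by simp), Fintype.sum_prod_type,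
    Finset.sum_eq_single j]
  · simp only [TC.wt, Fin.sum_univ_two, if_true, smul_eq_mul, mul_one]
    exact h
  · intro i _ hij
    simp [TC.wt, hij]
  · intro h'
    exact absurd (Finset.mem_univ j) h'

lemma IsForm.mw {F : MvPolynomial (τ × Fin 2) ℚ} (hF : IsForm F) :
    F.IsWeightedHomogeneous (mw (τ := τ)) (fun _ => 3) := by
  intro m hm
  funext j
  have h := hF m (mem_support_iff.2 hm) j
  rw [Finsupp.weight_apply, Finsupp.sum_fintype _ _ (fun _ => by simp), Fintype.sum_prod_type,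
    Finset.sum_apply, Finset.sum_eq_single j]
  · rw [Finset.sum_apply]
    simp only [TC.mw, Fin.sum_univ_two, Pi.smul_apply, Pi.single_eq_same, smul_eq_mul, mul_one]
    exact h
  · intro i _ hij
    rw [Finset.sum_apply]
    refine Finset.sum_eq_zero fun b _ => ?_
    simp [TC.mw, Pi.smul_apply, Pi.single_eq_of_ne hij.symm]
  · intro h'
    exact absurd (Finset.mem_univ j) h'

/-- Euler's relation for a pair of variables -/
lemma euler {G : MvPolynomial (τ × Fin 2) ℚ} {j : τ} {d : ℕ}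
    (h : G.IsWeightedHomogeneous (wt j) d) :
    X (j, 0) * pderiv (j, 0) G + X (j, 1) * pderiv (j, 1) G = (d : MvPolynomial (τ × Fin 2) ℚ) * G := by
  have h1 := h.sum_weight_X_mul_pderiv
  rw [Fintype.sum_prod_type, Finset.sum_eq_single j] at h1
  · simp only [wt, Fin.sum_univ_two, if_true, one_smul, nsmul_eq_mul] at h1
    exact h1
  · intro i _ hij
    simp [wt, hij]
  · intro h'
    exact absurd (Finset.mem_univ j) h'

lemma wt_pderiv {G : MvPolynomial (τ × Fin 2) ℚ} {j : τ} {d : ℕ} (b : Fin 2)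
    (h : G.IsWeightedHomogeneous (wt j) (d + 1)) :
    (pderiv (j, b) G).IsWeightedHomogeneous (wt j) d :=
  h.pderiv (by simp [wt])

lemma pderiv_comm (p q : τ × Fin 2) (G : MvPolynomial (τ × Fin 2) ℚ) :
    pderiv p (pderiv q G) = pderiv q (pderiv p G) := by
  induction G using MvPolynomial.induction_on with
  | C a => simp
  | add f g hf hg => simp only [map_add, hf, hg]
  | mul_X f i hf =>
    classical
    simp only [pderiv_mul, map_add, pderiv_X, hf]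
    rcases eq_or_ne p i with rfl | hp
    · rcases eq_or_ne q p with rfl | hq
      · ring
      · simp [Pi.single_eq_of_ne hq.symm]
    · rcases eq_or_ne q i with rfl | hq
      · simp [Pi.single_eq_of_ne hp.symm]
      · simp [Pi.single_eq_of_ne hp.symm, Pi.single_eq_of_ne hq.symm]

/-! ### Covariants -/

/-- twice the Hessian covariant in the direction of a coordinate -/
noncomputable def hP (p : τ × Fin 2) (F : MvPolynomial (τ × Fin 2) ℚ) :
    MvPolynomial (τ × Fin 2) ℚ :=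
  2 * pderiv p F ^ 2 - 3 * F * pderiv p (pderiv p F)

/-- twice the cubic covariant -/
noncomputable def qP (p : τ × Fin 2) (F : MvPolynomial (τ × Fin 2) ℚ) :
    MvPolynomial (τ × Fin 2) ℚ :=
  4 * pderiv p F ^ 3 - 9 * F * pderiv p F * pderiv p (pderiv p F) +
    9 * F ^ 2 * pderiv p (pderiv p (pderiv p F))

/-- a multiple of the product -/
noncomputable def nP (p : τ × Fin 2) (F : MvPolynomial (τ × Fin 2) ℚ) :
    MvPolynomial (τ × Fin 2) ℚ :=
  hP p F * qP p F * (2 * qP p F ^ 2 - 3 * hP p F ^ 3) * (4 * qP p F ^ 2 - 9 * hP p F ^ 3)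

omit [Fintype τ] [DecidableEq τ] in
lemma cov_alg {R : Type} [CommRing R] {x y F F0 F1 F00 F01 F11 A B C D h k : R}
    (e0 : x * F0 + y * F1 = 3 * F) (e10 : x * F00 + y * F01 = 2 * F0)
    (e11 : x * F01 + y * F11 = 2 * F1) (E00 : F00 = x * A + y * B) (E01 : F01 = x * B + y * C)
    (E11 : F11 = x * C + y * D)
    (hh : h = (B ^ 2 - A * C) * x ^ 2 + (B * C - A * D) * (x * y) + (C ^ 2 - B * D) * y ^ 2)
    (hk : k = (2 * B ^ 3 - 3 * A * B * C + A ^ 2 * D) * x ^ 3 +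
    (3 * B ^ 2 * C - 6 * A * C ^ 2 + 3 * A * B * D) * (x ^ 2 * y) +
    (-3 * B * C ^ 2 + 6 * B ^ 2 * D - 3 * A * C * D) * (x * y ^ 2) +
    (-2 * C ^ 3 + 3 * B * C * D - A * D ^ 2) * y ^ 3) :
    2 * (2 * F0 ^ 2 - 3 * F * F00) = y ^ 2 * h ∧ 2 * (2 * F1 ^ 2 - 3 * F * F11) = x ^ 2 * h ∧
    4 * (4 * F0 ^ 3 - 9 * F * F0 * F00 + 9 * F ^ 2 * A) = -(y ^ 3 * k) ∧
    4 * (4 * F1 ^ 3 - 9 * F * F1 * F11 + 9 * F ^ 2 * D) = x ^ 3 * k := by
  have E0 : 2 * F0 = x ^ 2 * A + 2 * x * y * B + y ^ 2 * C := by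
    linear_combination -e10 + x * E00 + y * E01
  have E1 : 2 * F1 = x ^ 2 * B + 2 * x * y * C + y ^ 2 * D := by
    linear_combination -e11 + x * E01 + y * E11
  have E : 6 * F = x ^ 3 * A + 3 * x ^ 2 * y * B + 3 * x * y ^ 2 * C + y ^ 3 * D := by
    linear_combination -2 * e0 + x * E0 + y * E1
  refine ⟨?_, ?_, ?_, ?_⟩
  · have : 2 * (2 * F0 ^ 2 - 3 * F * F00) = (2 * F0) ^ 2 - (6 * F) * F00 := by ring
    rw [this, E0, E, E00, hh]
    ring
  · have : 2 * (2 * F1 ^ 2 - 3 * F * F11) = (2 * F1) ^ 2 - (6 * F) * F11 := by ring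
    rw [this, E1, E, E11, hh]
    ring
  · have : 4 * (4 * F0 ^ 3 - 9 * F * F0 * F00 + 9 * F ^ 2 * A) =
      2 * (2 * F0) ^ 3 - 3 * (6 * F) * (2 * F0) * F00 + (6 * F) ^ 2 * A := by ring
    rw [this, E0, E, E00, hk]
    ring
  · have : 4 * (4 * F1 ^ 3 - 9 * F * F1 * F11 + 9 * F ^ 2 * D) =
      2 * (2 * F1) ^ 3 - 3 * (6 * F) * (2 * F1) * F11 + (6 * F) ^ 2 * D := by ring
    rw [this, E1, E, E11, hk]
    ring

omit [Fintype τ] [DecidableEq τ] in
lemma cov_alg2 {R : Type} [CommRing R] {x y h k h0 h1 q0 q1 : R}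
    (H0 : 2 * h0 = y ^ 2 * h) (H1 : 2 * h1 = x ^ 2 * h) (Q0 : 4 * q0 = -(y ^ 3 * k))
    (Q1 : 4 * q1 = x ^ 3 * k) :
    512 * (y ^ 17 * (h1 * q1 * (2 * q1 ^ 2 - 3 * h1 ^ 3) * (4 * q1 ^ 2 - 9 * h1 ^ 3))) =
    512 * (-(x ^ 17 * (h0 * q0 * (2 * q0 ^ 2 - 3 * h0 ^ 3) * (4 * q0 ^ 2 - 9 * h0 ^ 3)))) := by
  have N0 : 512 * (h0 * q0 * (2 * q0 ^ 2 - 3 * h0 ^ 3) * (4 * q0 ^ 2 - 9 * h0 ^ 3)) =
      -(y ^ 17 * (h * k * (k ^ 2 - 3 * h ^ 3) * (2 * k ^ 2 - 9 * h ^ 3))) := by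
    have : 512 * (h0 * q0 * (2 * q0 ^ 2 - 3 * h0 ^ 3) * (4 * q0 ^ 2 - 9 * h0 ^ 3)) =
      (2 * h0) * (4 * q0) * ((4 * q0) ^ 2 - 3 * (2 * h0) ^ 3) *
        (2 * (4 * q0) ^ 2 - 9 * (2 * h0) ^ 3) := by ring
    rw [this, H0, Q0]
    ring
  have N1 : 512 * (h1 * q1 * (2 * q1 ^ 2 - 3 * h1 ^ 3) * (4 * q1 ^ 2 - 9 * h1 ^ 3)) =
      x ^ 17 * (h * k * (k ^ 2 - 3 * h ^ 3) * (2 * k ^ 2 - 9 * h ^ 3)) := by
    have : 512 * (h1 * q1 * (2 * q1 ^ 2 - 3 * h1 ^ 3) * (4 * q1 ^ 2 - 9 * h1 ^ 3)) =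
      (2 * h1) * (4 * q1) * ((4 * q1) ^ 2 - 3 * (2 * h1) ^ 3) *
        (2 * (4 * q1) ^ 2 - 9 * (2 * h1) ^ 3) := by ring
    rw [this, H1, Q1]
    ring
  linear_combination y ^ 17 * N1 + x ^ 17 * N0

/-- **covariance** -/
theorem nP_cov {F : MvPolynomial (τ × Fin 2) ℚ} (hF : IsForm F) (j : τ) :
    X (j, 1) ^ 17 * nP (j, 1) F = -(X (j, 0) ^ 17 * nP (j, 0) F) := by
  have e0 := euler (hF.wt j)
  have h0 := wt_pderiv (d := 2) 0 (hF.wt j)
  have h1 := wt_pderiv (d := 2) 1 (hF.wt j)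
  have e10 := euler h0
  have e11 := euler h1
  have h00 := wt_pderiv (d := 1) 0 h0
  have h01 := wt_pderiv (d := 1) 1 h0
  have h11 := wt_pderiv (d := 1) 1 h1
  have e200 := euler h00
  have e201 := euler h01
  have e211 := euler h11
  rw [pderiv_comm (j, 0) (j, 1) F] at e11
  rw [pderiv_comm (j, 0) (j, 1) (pderiv (j, 0) F)] at e201
  have ec : pderiv (j, 0) (pderiv (j, 1) (pderiv (j, 1) F)) =
      pderiv (j, 1) (pderiv (j, 1) (pderiv (j, 0) F)) := by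
    rw [pderiv_comm (j, 0) (j, 1) (pderiv (j, 1) F), pderiv_comm (j, 0) (j, 1) F]
  rw [ec] at e211
  push_cast at e0 e10 e11 e200 e201 e211
  rw [one_mul] at e200 e201 e211
  obtain ⟨H0, H1, Q0, Q1⟩ := cov_alg e0 e10 e11 e200.symm e201.symm e211.symm rfl rfl
  have h512 : (512 : MvPolynomial (τ × Fin 2) ℚ) ≠ 0 := by norm_num
  exact mul_left_cancel₀ h512 (cov_alg2 H0 H1 Q0 Q1)

/-! ### Scaling -/

variable {K : Type} [Field K] [Algebra ℚ K]

lemma scale {G : MvPolynomial (τ × Fin 2) ℚ} {m : τ → ℕ}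
    (h : G.IsWeightedHomogeneous (mw (τ := τ)) m) (t : τ → K) (x : τ × Fin 2 → K) :
    aeval (fun p => t p.1 * x p) G = (∏ i, t i ^ m i) * aeval x G := by
  rw [aeval_def, aeval_def, eval₂_eq', eval₂_eq', Finset.mul_sum]
  refine Finset.sum_congr rfl fun d hd => ?_
  have h1 := h (mem_support_iff.1 hd)
  have h2 : ∏ p : τ × Fin 2, (t p.1 * x p) ^ d p =
      (∏ i, t i ^ m i) * ∏ p : τ × Fin 2, x p ^ d p := by
    simp only [mul_pow]
    rw [Finset.prod_mul_distrib]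
    congr 1
    rw [Fintype.prod_prod_type]
    refine Finset.prod_congr rfl fun i _ => ?_
    change ∏ b : Fin 2, t i ^ d (i, b) = t i ^ m i
    rw [Finset.prod_pow_eq_pow_sum]
    congr 1
    rw [← h1, Finsupp.weight_apply, Finsupp.sum_fintype _ _ (fun _ => by simp),
      Fintype.sum_prod_type, Finset.sum_apply, Finset.sum_eq_single i]
    · rw [Finset.sum_apply]
      refine Finset.sum_congr rfl fun b _ => ?_
      simp [mw]
    · intro k _ hik
      rw [Finset.sum_apply]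
      refine Finset.sum_eq_zero fun b _ => ?_
      simp [mw, Pi.single_eq_of_ne hik.symm]
    · intro h'
      exact absurd (Finset.mem_univ i) h'
  rw [h2]
  ring

lemma prod_update (t : τ → K) (j : τ) (a : ℕ) (m : τ → ℕ) (h : m j = a + 1) :
    t j * ∏ i, t i ^ (Function.update m j a) i = ∏ i, t i ^ m i := by
  rw [← Finset.mul_prod_erase _ _ (Finset.mem_univ j), ← Finset.mul_prod_erase _ _
    (Finset.mem_univ j), Function.update_self, h, pow_succ]
  have : ∀ i ∈ Finset.univ.erase j, t i ^ (Function.update m j a) i = t i ^ m i := by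
    intro i hi
    rw [Function.update_of_ne (Finset.ne_of_mem_erase hi)]
  rw [Finset.prod_congr rfl this]
  ring

lemma mw_pderiv {G : MvPolynomial (τ × Fin 2) ℚ} {m : τ → ℕ} {j : τ} {a : ℕ} (b : Fin 2)
    (h : G.IsWeightedHomogeneous (mw (τ := τ)) m) (ha : m j = a + 1) :
    (pderiv (j, b) G).IsWeightedHomogeneous (mw (τ := τ)) (Function.update m j a) := by
  refine h.pderiv ?_
  funext i
  rcases eq_or_ne i j with rfl | hij
  · simp [mw, ha]
  · simp [mw, hij]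

/-- scaling of the product -/
theorem nP_scale {F : MvPolynomial (τ × Fin 2) ℚ} (hF : IsForm F) (j : τ) (b : Fin 2) (t : τ → K)
    (x : τ × Fin 2 → K) :
    t j ^ 17 * aeval (fun p => t p.1 * x p) (nP (j, b) F) =
      (∏ i, t i ^ 3) ^ 17 * aeval x (nP (j, b) F) := by
  have h0 := hF.mw
  have h1 := mw_pderiv (j := j) (a := 2) b h0 rfl
  have h2 := mw_pderiv (j := j) (a := 1) b h1 (by simp)
  have h3 := mw_pderiv (j := j) (a := 0) b h2 (by simp)
  have s0 := scale h0 t x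
  have s1 := scale h1 t x
  have s2 := scale h2 t x
  have s3 := scale h3 t x
  have p1 := prod_update t j 2 (fun _ => 3) rfl
  have p2 := prod_update t j 1 (Function.update (fun _ => 3) j 2) (by simp)
  have p3 := prod_update t j 0 (Function.update (Function.update (fun _ => 3) j 2) j 1) (by simp)
  set T := ∏ i, t i ^ 3
  set T1 := ∏ i, t i ^ (Function.update (fun _ => 3) j 2) i
  set T2 := ∏ i, t i ^ (Function.update (Function.update (fun _ => 3) j 2) j 1) i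
  set T3 := ∏ i, t i ^ (Function.update (Function.update (Function.update (fun _ => 3) j 2) j 1)
    j 0) i
  unfold nP hP qP
  simp only [map_mul, map_sub, map_add, map_pow, map_ofNat, s0, s1, s2, s3]
  set f := aeval x F
  set f1 := aeval x (pderiv (j, b) F)
  set f2 := aeval x (pderiv (j, b) (pderiv (j, b) F))
  set f3 := aeval x (pderiv (j, b) (pderiv (j, b) (pderiv (j, b) F)))
  have q1 : t j * (T1 * f1) = T * f1 := by rw [← p1]; ring
  have q2 : t j ^ 2 * (T2 * f2) = T * f2 := by rw [← p1, ← p2]; ring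
  have q3 : t j ^ 3 * (T3 * f3) = T * f3 := by rw [← p1, ← p2, ← p3]; ring
  have H : t j ^ 2 * (2 * (T1 * f1) ^ 2 - 3 * (T * f) * (T2 * f2)) =
      T ^ 2 * (2 * f1 ^ 2 - 3 * f * f2) := by
    have : t j ^ 2 * (2 * (T1 * f1) ^ 2 - 3 * (T * f) * (T2 * f2)) =
      2 * (t j * (T1 * f1)) ^ 2 - 3 * (T * f) * (t j ^ 2 * (T2 * f2)) := by ring
    rw [this, q1, q2]
    ring
  have Q : t j ^ 3 * (4 * (T1 * f1) ^ 3 - 9 * (T * f) * (T1 * f1) * (T2 * f2) +
      9 * (T * f) ^ 2 * (T3 * f3)) = T ^ 3 * (4 * f1 ^ 3 - 9 * f * f1 * f2 + 9 * f ^ 2 * f3) := by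
    have : t j ^ 3 * (4 * (T1 * f1) ^ 3 - 9 * (T * f) * (T1 * f1) * (T2 * f2) +
      9 * (T * f) ^ 2 * (T3 * f3)) = 4 * (t j * (T1 * f1)) ^ 3 -
        9 * (T * f) * (t j * (T1 * f1)) * (t j ^ 2 * (T2 * f2)) +
        9 * (T * f) ^ 2 * (t j ^ 3 * (T3 * f3)) := by ring
    rw [this, q1, q2, q3]
    ring
  generalize (2 * (T1 * f1) ^ 2 - 3 * (T * f) * (T2 * f2)) = h' at H ⊢
  generalize (4 * (T1 * f1) ^ 3 - 9 * (T * f) * (T1 * f1) * (T2 * f2) +
      9 * (T * f) ^ 2 * (T3 * f3)) = q' at Q ⊢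
  generalize (2 * f1 ^ 2 - 3 * f * f2) = h at H ⊢
  generalize (4 * f1 ^ 3 - 9 * f * f1 * f2 + 9 * f ^ 2 * f3) = q at Q ⊢
  have e : t j ^ 17 * (h' * q' * (2 * q' ^ 2 - 3 * h' ^ 3) * (4 * q' ^ 2 - 9 * h' ^ 3)) =
      (t j ^ 2 * h') * (t j ^ 3 * q') * (2 * (t j ^ 3 * q') ^ 2 - 3 * (t j ^ 2 * h') ^ 3) *
        (4 * (t j ^ 3 * q') ^ 2 - 9 * (t j ^ 2 * h') ^ 3) := by ring
  rw [e, H, Q]
  ring

end weights

end Pool.Agent.H1.TC
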