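import Pool.Agent.H1.TC.Bert2

/-!
# The affine covariants and the forms; terminal subspaces for smooth forms
-/

set_option autoImplicit false

namespace Pool.Agent.H1.TC

open MvPolynomial

variable {n : ℕ}

lemma restriction_add (f g : MvPolynomial (Fin n) ℚ) (z v : Fin n → ℚ) :
    restriction (f + g) z v = restriction f z v + restriction g z v := by
  unfold restriction
  rw [map_add]

lemma restriction_mul (f g : MvPolynomial (Fin n) ℚ) (z v : Fin n → ℚ) :
    restriction (f * g) z v = restriction f z v * restriction g z v := by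
  unfold restriction
  rw [map_mul]

lemma restriction_X (i : Fin n) (z v : Fin n → ℚ) :
    restriction (X i) z v = Polynomial.C (z i) + Polynomial.C (v i) * Polynomial.X := by
  unfold restriction
  rw [aeval_X]

lemma restriction_C (a : ℚ) (z v : Fin n → ℚ) :
    restriction (C a) z v = Polynomial.C a := by
  unfold restriction
  rw [aeval_C]
  rfl

lemma derivative_restriction (f : MvPolynomial (Fin n) ℚ) (z : Fin n → ℚ) (j : Fin n) :
    Polynomial.derivative (restriction f z (Pi.single j 1)) =
      restriction (pderiv j f) z (Pi.single j 1) := by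
  induction f using MvPolynomial.induction_on with
  | C a =>
    rw [restriction_C, pderiv_C, Polynomial.derivative_C, ← C_0, restriction_C,
      Polynomial.C_0]
  | add f g hf hg => rw [restriction_add, map_add, map_add, hf, hg, restriction_add]
  | mul_X f i hf =>
    have h : Polynomial.derivative (restriction (X i) z (Pi.single j 1)) =
        restriction (pderiv j (X i)) z (Pi.single j 1) := by
      rw [restriction_X, pderiv_X]
      by_cases hij : i = j
      · subst hij
        rw [Pi.single_eq_same, Pi.single_eq_same, ← C_1, restriction_C]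
        simp
      · rw [Pi.single_eq_of_ne hij, Pi.single_eq_of_ne hij, ← C_0, restriction_C]
        simp
    rw [restriction_mul, Polynomial.derivative_mul, pderiv_mul, restriction_add,
      restriction_mul, restriction_mul, hf, h]

lemma cf_zero (f : MvPolynomial (Fin n) ℚ) (z v : Fin n → ℚ) : cf f z v 0 = eval z f := by
  have := restriction_eval f z v 0
  rw [← Polynomial.coeff_zero_eq_eval_zero, zero_smul, add_zero] at this
  exact this

lemma cf_succ (f : MvPolynomial (Fin n) ℚ) (z : Fin n → ℚ) (j : Fin n) (k : ℕ) :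
    cf f z (Pi.single j 1) (k + 1) * ((k : ℚ) + 1) = cf (pderiv j f) z (Pi.single j 1) k := by
  unfold cf
  rw [← derivative_restriction, Polynomial.coeff_derivative]

/-- the covariants in terms of partial derivatives -/
lemma covN_pderiv (f : MvPolynomial (Fin n) ℚ) (z : Fin n → ℚ) (j : Fin n) :
    256 * covN f z (Pi.single j 1) =
      (2 * eval z (pderiv j f) ^ 2 - 3 * eval z f * eval z (pderiv j (pderiv j f))) *
      (4 * eval z (pderiv j f) ^ 3 - 9 * eval z f * eval z (pderiv j f) *
        eval z (pderiv j (pderiv j f)) + 9 * eval z f ^ 2 *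
          eval z (pderiv j (pderiv j (pderiv j f)))) *
      (2 * (4 * eval z (pderiv j f) ^ 3 - 9 * eval z f * eval z (pderiv j f) *
        eval z (pderiv j (pderiv j f)) + 9 * eval z f ^ 2 *
          eval z (pderiv j (pderiv j (pderiv j f)))) ^ 2 -
        3 * (2 * eval z (pderiv j f) ^ 2 - 3 * eval z f * eval z (pderiv j (pderiv j f))) ^ 3) *
      (4 * (4 * eval z (pderiv j f) ^ 3 - 9 * eval z f * eval z (pderiv j f) *
        eval z (pderiv j (pderiv j f)) + 9 * eval z f ^ 2 *
          eval z (pderiv j (pderiv j (pderiv j f)))) ^ 2 -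
        9 * (2 * eval z (pderiv j f) ^ 2 -
          3 * eval z f * eval z (pderiv j (pderiv j f))) ^ 3) := by
  have h0 := cf_zero f z (Pi.single j 1)
  have h1 := cf_succ f z j 0
  have h2 := cf_succ f z j 1
  have h2' := cf_succ (pderiv j f) z j 0
  have h3 := cf_succ f z j 2
  have h3' := cf_succ (pderiv j f) z j 1
  have h3'' := cf_succ (pderiv j (pderiv j f)) z j 0
  rw [cf_zero] at h1 h2' h3''
  norm_num at h1 h2 h2' h3 h3' h3''
  have e2 : cf f z (Pi.single j 1) 2 * 2 = eval z (pderiv j (pderiv j f)) := by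
    rw [h2, h2']
  have e3 : cf f z (Pi.single j 1) 3 * 6 = eval z (pderiv j (pderiv j (pderiv j f))) := by
    rw [← h3'', ← h3', ← h3]
    ring
  unfold covN covQ covH
  rw [h0, h1, ← e2, ← e3]
  ring

lemma pderiv_chart (j : Fin n) (G : MvPolynomial (Fin n × Fin 2) ℚ) :
    pderiv j (chart (fun _ => 0) G) = chart (fun _ => 0) (pderiv (j, 1) G) := by
  induction G using MvPolynomial.induction_on with
  | C a =>
    have h : chart (fun _ : Fin n => (0 : Fin 2)) (C a) = C a := by
      unfold chart
      exact aeval_C _ _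
    rw [h, pderiv_C, pderiv_C, map_zero]
  | add f g hf hg => simp only [map_add, hf, hg]
  | mul_X f p hf =>
    have h : pderiv j (chart (fun _ : Fin n => (0 : Fin 2)) (X p)) =
        chart (fun _ => 0) (pderiv (j, 1) (X p)) := by
      rcases p with ⟨i, c⟩
      unfold chart
      rw [aeval_X, pderiv_X]
      simp only
      by_cases hc : c = 0
      · rw [if_pos hc, pderiv_one, Pi.single_eq_of_ne, map_zero]
        rintro h
        rw [Prod.mk.injEq] at h
        rw [hc] at h
        exact absurd h.2 (by decide)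
      · rw [if_neg hc, pderiv_X]
        have hc1 : c = 1 := by
          rcases c with ⟨v, hv⟩
          have : v = 0 ∨ v = 1 := by omega
          rcases this with rfl | rfl
          · exact absurd rfl hc
          · rfl
        by_cases hij : i = j
        · rw [hij, hc1, Pi.single_eq_same, Pi.single_eq_same, map_one]
        · rw [Pi.single_eq_of_ne hij, Pi.single_eq_of_ne, map_zero]
          rintro h
          rw [Prod.mk.injEq] at h
          exact hij h.1
    rw [map_mul, pderiv_mul, pderiv_mul, map_add, map_mul, map_mul, hf, h]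

lemma eval_chart (z : Fin n → ℚ) (G : MvPolynomial (Fin n × Fin 2) ℚ) :
    eval z (chart (fun _ => 0) G) = aeval (pt (fun _ => 0) z) G :=
  aeval_chart (K := ℚ) _ _ _

/-- the affine covariants and the form -/
theorem covN_chart (F : MvPolynomial (Fin n × Fin 2) ℚ) (z : Fin n → ℚ) (j : Fin n) :
    256 * covN (chart (fun _ => 0) F) z (Pi.single j 1) =
      aeval (pt (fun _ => 0) z) (nP (j, 1) F) := by
  rw [covN_pderiv]
  unfold nP hP qP
  simp only [pderiv_chart, eval_chart, map_mul, map_sub, map_add, map_pow, map_ofNat]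

lemma nP_slice {σ : Type} [DecidableEq σ] (J : Finset σ) (z : σ → ℚ) (j : J) (b : Fin 2)
    (F : MvPolynomial (σ × Fin 2) ℚ) :
    nP (j, b) (slice J z F) = slice J z (nP ((j : σ), b) F) := by
  unfold nP hP qP
  simp only [pderiv_slice, map_mul, map_sub, map_add, map_pow, map_ofNat]

/-- the points in a slice at which the products vanish are finite in number -/
theorem finite_slice {F : MvPolynomial (Fin n × Fin 2) ℚ} (hF : IsForm F) (J : Finset (Fin n))
    (z₀ : Fin n → ℚ) (hs : J.Nonempty → Smooth (slice J z₀ F)) :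
    {p : Fin n → ℚ | (∀ i, i ∉ J → p i = z₀ i) ∧
      ∀ j ∈ J, covN (chart (fun _ => 0) F) p (Pi.single j 1) = 0}.Finite := by
  rcases J.eq_empty_or_nonempty with rfl | hJ
  · refine (Set.finite_singleton z₀).subset ?_
    rintro p ⟨h1, -⟩
    exact funext fun i => h1 i (Finset.notMem_empty i)
  have h1 := finite_zeros (isForm_slice hF J z₀) (hs hJ)
  refine Set.Finite.of_injOn (f := fun (p : Fin n → ℚ) (j : J) => p j) (t := _) ?_ ?_ h1
  · rintro p ⟨h2, h3⟩ j
    rw [nP_slice, aeval_slice]
    have e : extp J z₀ (pt (fun _ => 0) fun j : J => p j) = pt (fun _ => 0) p := by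
      funext ⟨i, b⟩
      simp only [extp, pt]
      split_ifs with h4 h5 h5
      · rfl
      · rfl
      · rfl
      · exact (h2 i h4).symm
    rw [e, ← covN_chart, h3 j j.2, mul_zero]
  · rintro p ⟨h2, -⟩ q ⟨h4, -⟩ hpq
    funext i
    by_cases hi : i ∈ J
    · exact congrFun hpq ⟨i, hi⟩
    · rw [h2 i hi, h4 i hi]

/-- **terminal subspaces for smooth forms** -/
theorem smooth_finite {F : MvPolynomial (Fin n × Fin 2) ℚ} (hF : IsForm F) (hs : Smooth F) :
    {A : AffineSubspace ℚ (Fin n → ℚ) | Terminal (chart (fun _ => 0) F)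
      (Set.range fun i : Fin n => (Pi.single i (1 : ℚ) : Fin n → ℚ)) A ∧
      ∃ z ∈ A, z ∈ cubeSet (chart (fun _ => 0) F)}.Finite := by
  classical
  set V : Set (Fin n → ℚ) := Set.range fun i : Fin n => (Pi.single i (1 : ℚ) : Fin n → ℚ) with hV
  set f := chart (fun _ => 0) F with hf
  have hz0 : ∀ J : Finset (Fin n), ∃ z₀ : Fin n → ℚ, J.Nonempty → Smooth (slice J z₀ F) := by
    intro J
    rcases J.eq_empty_or_nonempty with rfl | hJ
    · exact ⟨0, fun h => absurd h Finset.not_nonempty_empty⟩
    · obtain ⟨z₀, h⟩ := exists_smooth_slice hF hs hJ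
      exact ⟨z₀, fun _ => h⟩
  choose z₀ hz₀ using hz0
  set JA : AffineSubspace ℚ (Fin n → ℚ) → Finset (Fin n) := fun A =>
    Finset.univ.filter fun i => (Pi.single i (1 : ℚ) : Fin n → ℚ) ∉ A.direction with hJA
  set T : Finset (Fin n) → Set (Fin n → ℚ) := fun J => {p | (∀ i, i ∉ J → p i = z₀ J i) ∧
      ∀ j ∈ J, covN f p (Pi.single j 1) = 0} with hT
  have hTfin : ∀ J, (T J).Finite := fun J => finite_slice hF J (z₀ J) (hz₀ J)
  have key : ∀ A : AffineSubspace ℚ (Fin n → ℚ), (Terminal f V A ∧
      ∃ z ∈ A, z ∈ cubeSet f) → ∃ p ∈ A, p ∈ T (JA A) := by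
    rintro A ⟨⟨-, h2⟩, z, hz, -⟩
    set p : Fin n → ℚ := fun i => if (Pi.single i (1 : ℚ) : Fin n → ℚ) ∈ A.direction then
      z₀ (JA A) i else z i with hp
    have hpz : p - z ∈ A.direction := by
      have e : p - z = ∑ i, (if (Pi.single i (1 : ℚ) : Fin n → ℚ) ∈ A.direction then
          (z₀ (JA A) i - z i) • (Pi.single i (1 : ℚ) : Fin n → ℚ) else 0) := by
        funext k
        rw [Finset.sum_apply, Finset.sum_eq_single k]
        · simp only [hp, Pi.sub_apply]
          split_ifs
          · simp
          · simp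
        · intro i _ hik
          split_ifs
          · simp [hik.symm]
          · rfl
        · intro h
          exact absurd (Finset.mem_univ k) h
      rw [e]
      refine Submodule.sum_mem _ fun i _ => ?_
      split_ifs with h
      · exact Submodule.smul_mem _ _ h
      · exact Submodule.zero_mem _
    have hpA : p ∈ A := by
      have := AffineSubspace.vadd_mem_of_mem_direction hpz hz
      rwa [vadd_eq_add, sub_add_cancel] at this
    refine ⟨p, hpA, fun i hi => ?_, fun j hj => ?_⟩
    · have h : (Pi.single i (1 : ℚ) : Fin n → ℚ) ∈ A.direction := by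
        by_contra h
        exact hi (Finset.mem_filter.2 ⟨Finset.mem_univ i, h⟩)
      simp only [hp]
      rw [if_pos h]
    · have h : (Pi.single j (1 : ℚ) : Fin n → ℚ) ∉ A.direction := (Finset.mem_filter.1 hj).2
      exact (h2 _ ⟨j, rfl⟩ h).1 p hpA
  choose! P hPA hP using key
  have htfin : {q : Finset (Fin n) × (Fin n → ℚ) | q.2 ∈ T q.1}.Finite := by
    have h1 : (⋃ J : Finset (Fin n), (fun p => (J, p)) '' T J).Finite :=
      Set.finite_iUnion fun J => (hTfin J).image _
    refine h1.subset ?_
    rintro ⟨J, p⟩ hq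
    exact Set.mem_iUnion.2 ⟨J, p, hq, rfl⟩
  refine Set.Finite.of_injOn (f := fun A : AffineSubspace ℚ (Fin n → ℚ) => (JA A, P A))
    (t := _) (fun A hA => hP A hA) ?_ htfin
  intro A hA B hB hAB
  simp only [Prod.mk.injEq] at hAB
  obtain ⟨h1, h3⟩ := hAB
  have hdir : ∀ i, (Pi.single i (1 : ℚ) : Fin n → ℚ) ∈ A.direction ↔
      (Pi.single i (1 : ℚ) : Fin n → ℚ) ∈ B.direction := by
    intro i
    have h5 : i ∈ JA A ↔ i ∈ JA B := by rw [h1]
    simp only [hJA, Finset.mem_filter, Finset.mem_univ, true_and] at h5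
    exact not_iff_not.1 h5
  have h4 : A.direction = B.direction := by
    rw [hA.1.1, hB.1.1]
    congr 1
    ext v
    constructor
    · rintro ⟨⟨i, rfl⟩, hv⟩
      exact ⟨⟨i, rfl⟩, (hdir i).1 hv⟩
    · rintro ⟨⟨i, rfl⟩, hv⟩
      exact ⟨⟨i, rfl⟩, (hdir i).2 hv⟩
  refine AffineSubspace.ext_of_direction_eq h4 ⟨P A, hPA A hA, ?_⟩
  rw [h3]
  exact hPA B hB

end Pool.Agent.H1.TC
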