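import Pool.Agent.H1.TC.Den

/-!
# Cyclic triple covers `w³ = f(z)`: moving along directions of degree at most three
-/

set_option autoImplicit false

open Set Filter Topology

namespace Pool.Agent.H1.TC

open Pool.Agent.NH8.C

variable {n : ℕ}

/-- The polynomial `f(z + s v)` in `s`. -/
noncomputable def restriction (f : MvPolynomial (Fin n) ℚ) (z v : Fin n → ℚ) : Polynomial ℚ :=
  MvPolynomial.aeval (fun k => Polynomial.C (z k) + Polynomial.C (v k) * Polynomial.X) f

lemma restriction_eval (f : MvPolynomial (Fin n) ℚ) (z v : Fin n → ℚ) (s : ℚ) :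
    (restriction f z v).eval s = MvPolynomial.eval (z + s • v) f := by
  unfold restriction
  induction f using MvPolynomial.induction_on with
  | C a => simp
  | add p q hp hq => simp only [map_add, Polynomial.eval_add, hp, hq]
  | mul_X p i hp =>
    simp only [map_mul, Polynomial.eval_mul, hp, MvPolynomial.aeval_X, Polynomial.eval_add,
      Polynomial.eval_C, Polynomial.eval_X, MvPolynomial.eval_X, Pi.add_apply, Pi.smul_apply,
      smul_eq_mul]
    ring

/-- The coefficient of `s ^ k` in `f(z + s v)`. -/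
noncomputable def cf (f : MvPolynomial (Fin n) ℚ) (z v : Fin n → ℚ) (k : ℕ) : ℚ :=
  (restriction f z v).coeff k

/-- The Hessian covariant of `f(z + s v)` at `s = 0`. -/
noncomputable def covH (f : MvPolynomial (Fin n) ℚ) (z v : Fin n → ℚ) : ℚ :=
  cf f z v 1 ^ 2 - 3 * cf f z v 0 * cf f z v 2

/-- The cubic covariant of `f(z + s v)` at `s = 0`. -/
noncomputable def covQ (f : MvPolynomial (Fin n) ℚ) (z v : Fin n → ℚ) : ℚ :=
  2 * cf f z v 1 ^ 3 - 9 * cf f z v 0 * cf f z v 1 * cf f z v 2 +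
    27 * cf f z v 0 ^ 2 * cf f z v 3

/-- The product which vanishes if the point is of finite order on the curve `w³ = f(z + s v)`. -/
noncomputable def covN (f : MvPolynomial (Fin n) ℚ) (z v : Fin n → ℚ) : ℚ :=
  covH f z v * covQ f z v * (covQ f z v ^ 2 - 3 * covH f z v ^ 3) *
    (2 * covQ f z v ^ 2 - 9 * covH f z v ^ 3)

lemma covN_eq (f : MvPolynomial (Fin n) ℚ) (z v : Fin n → ℚ) :
    qN (cf f z v 3) (cf f z v 2) (cf f z v 1) (cf f z v 0) 0 1 = -covN f z v := by
  have h1 : qH (cf f z v 3) (cf f z v 2) (cf f z v 1) (cf f z v 0) 0 1 = covH f z v := by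
    unfold qH covH
    ring
  have h2 : qQ (cf f z v 3) (cf f z v 2) (cf f z v 1) (cf f z v 0) 0 1 = -covQ f z v := by
    unfold qQ covQ
    ring
  unfold qN covN
  rw [h1, h2]
  ring

/-- the points with a nonzero cube as value -/
def cubeSet (f : MvPolynomial (Fin n) ℚ) : Set (Fin n → ℚ) :=
  {z | ∃ w : ℚ, w ≠ 0 ∧ w ^ 3 = MvPolynomial.eval z f}

/-- **moving in one direction** -/
theorem move {f : MvPolynomial (Fin n) ℚ} {z v : Fin n → ℚ}
    (hd : (restriction f z v).natDegree ≤ 3) (hz : z ∈ cubeSet f) (hN : covN f z v ≠ 0) (α : ℝ)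
    {ε : ℝ} (hε : 0 < ε) : ∃ s : ℚ, |(s : ℝ) - α| < ε ∧ z + s • v ∈ cubeSet f := by
  obtain ⟨w, hw, hwz⟩ := hz
  have h0 : cf f z v 0 = w ^ 3 := by
    have := restriction_eval f z v 0
    rw [← Polynomial.coeff_zero_eq_eval_zero, zero_smul, add_zero, ← hwz] at this
    exact this
  obtain ⟨s, hs, w', hw', hs'⟩ := cubes_dense (a := cf f z v 3) (b := cf f z v 2)
    (c := cf f z v 1) hw h0 (by rw [covN_eq]; exact neg_ne_zero.2 hN) α hε
  refine ⟨s, hs, w', hw', ?_⟩
  rw [← hs', ← restriction_eval, Polynomial.eval_eq_sum_range' (n := 4) (by omega)]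
  simp only [Finset.sum_range_succ, Finset.sum_range_zero]
  unfold qB cf
  ring

/-- moving in a direction in which the polynomial is a constant times a cube -/
theorem move_free {f : MvPolynomial (Fin n) ℚ} {z v : Fin n → ℚ}
    (hd : (restriction f z v).natDegree ≤ 3) (hz : z ∈ cubeSet f) (hH : covH f z v = 0)
    (hQ : covQ f z v = 0) (α : ℝ) {ε : ℝ} (hε : 0 < ε) :
    ∃ s : ℚ, |(s : ℝ) - α| < ε ∧ z + s • v ∈ cubeSet f := by
  obtain ⟨w, hw, hwz⟩ := hz
  have h0 : cf f z v 0 = w ^ 3 := by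
    have := restriction_eval f z v 0
    rw [← Polynomial.coeff_zero_eq_eval_zero, zero_smul, add_zero, ← hwz] at this
    exact this
  have hc0 : cf f z v 0 ≠ 0 := by
    rw [h0]
    exact pow_ne_zero 3 hw
  have h2 : cf f z v 2 = cf f z v 1 ^ 2 / (3 * cf f z v 0) := by
    unfold covH at hH
    field_simp
    linear_combination -hH
  have h3 : cf f z v 3 = cf f z v 1 ^ 3 / (27 * cf f z v 0 ^ 2) := by
    unfold covH at hH
    unfold covQ at hQ
    field_simp
    linear_combination hQ - 3 * cf f z v 1 * hH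
  set l : ℚ := cf f z v 1 / (3 * cf f z v 0) with hl
  obtain ⟨s, hs, hs1⟩ : ∃ s : ℚ, |(s : ℝ) - α| < ε ∧ 1 + l * s ≠ 0 := by
    obtain ⟨s₁, h1, h1'⟩ := exists_rat_btwn (show α < α + ε / 2 by linarith)
    obtain ⟨s₂, h2, h2'⟩ := exists_rat_btwn (show α + ε / 2 < α + ε by linarith)
    by_cases h : 1 + l * s₁ = 0
    · refine ⟨s₂, ?_, fun h' => ?_⟩
      · rw [abs_lt]
        constructor <;> linarith
      · have hne : s₂ - s₁ ≠ 0 := by
          intro h3
          have h4 : s₂ = s₁ := by linarith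
          rw [h4] at h2
          linarith
        have h5 : l * (s₂ - s₁) = 0 := by linear_combination h' - h
        have h6 : l = 0 := (mul_eq_zero.1 h5).resolve_right hne
        rw [h6] at h
        norm_num at h
    · refine ⟨s₁, ?_, h⟩
      rw [abs_lt]
      constructor <;> linarith
  refine ⟨s, hs, w * (1 + l * s), mul_ne_zero hw hs1, ?_⟩
  rw [← restriction_eval, Polynomial.eval_eq_sum_range' (n := 4) (by omega)]
  simp only [Finset.sum_range_succ, Finset.sum_range_zero]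
  have k0 : (restriction f z v).coeff 0 = cf f z v 0 := rfl
  have k1 : (restriction f z v).coeff 1 = cf f z v 1 := rfl
  have k2 : (restriction f z v).coeff 2 = cf f z v 2 := rfl
  have k3 : (restriction f z v).coeff 3 = cf f z v 3 := rfl
  rw [k0, k1, k2, k3, h2, h3, mul_pow, ← h0, hl]
  field_simp
  ring

/-! ### Continuity, and polynomials along lines -/

lemma cf_C (a : ℚ) (z v : Fin n → ℚ) (k : ℕ) :
    cf (MvPolynomial.C a) z v k = if k = 0 then a else 0 := by
  unfold cf restriction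
  rw [MvPolynomial.aeval_C]
  change (Polynomial.C a).coeff k = _
  rw [Polynomial.coeff_C]

lemma cf_add (p q : MvPolynomial (Fin n) ℚ) (z v : Fin n → ℚ) (k : ℕ) :
    cf (p + q) z v k = cf p z v k + cf q z v k := by
  unfold cf restriction
  rw [map_add, Polynomial.coeff_add]

lemma cf_mul_X (p : MvPolynomial (Fin n) ℚ) (i : Fin n) (z v : Fin n → ℚ) (k : ℕ) :
    cf (p * MvPolynomial.X i) z v k = cf p z v k * z i +
      (if k = 0 then 0 else cf p z v (k - 1) * v i) := by
  unfold cf restriction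
  rw [map_mul, MvPolynomial.aeval_X, mul_add, Polynomial.coeff_add, Polynomial.coeff_mul_C,
    ← mul_assoc, mul_assoc _ (Polynomial.C (v i)), mul_comm (Polynomial.C (v i)), ← mul_assoc]
  rcases k with _ | k
  · simp
  · simp [Polynomial.coeff_mul_C, Polynomial.coeff_mul_X]

lemma cf_continuous (f : MvPolynomial (Fin n) ℚ) (v : Fin n → ℚ) :
    ∀ k, Continuous fun z => cf f z v k := by
  induction f using MvPolynomial.induction_on with
  | C a =>
    intro k
    simp only [cf_C]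
    exact continuous_const
  | add p q hp hq =>
    intro k
    simp only [cf_add]
    exact (hp k).add (hq k)
  | mul_X p i hp =>
    intro k
    simp only [cf_mul_X]
    refine ((hp k).mul (continuous_apply i)).add ?_
    split_ifs
    · exact continuous_const
    · exact (hp _).mul continuous_const

lemma covN_continuous (f : MvPolynomial (Fin n) ℚ) (v : Fin n → ℚ) :
    Continuous fun z => covN f z v := by
  have h0 := cf_continuous f v 0
  have h1 := cf_continuous f v 1
  have h2 := cf_continuous f v 2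
  have h3 := cf_continuous f v 3
  unfold covN covQ covH
  fun_prop

/-- functions given by polynomials -/
def PolyFun (φ : ℚ → ℚ) : Prop := ∃ P : Polynomial ℚ, ∀ t, φ t = P.eval t

lemma PolyFun.add {φ ψ : ℚ → ℚ} (h : PolyFun φ) (h' : PolyFun ψ) : PolyFun fun t => φ t + ψ t := by
  obtain ⟨P, hP⟩ := h
  obtain ⟨Q, hQ⟩ := h'
  exact ⟨P + Q, fun t => by simp only [Polynomial.eval_add, hP, hQ]⟩
lemma PolyFun.sub {φ ψ : ℚ → ℚ} (h : PolyFun φ) (h' : PolyFun ψ) : PolyFun fun t => φ t - ψ t := by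
  obtain ⟨P, hP⟩ := h
  obtain ⟨Q, hQ⟩ := h'
  exact ⟨P - Q, fun t => by simp only [Polynomial.eval_sub, hP, hQ]⟩
lemma PolyFun.mul {φ ψ : ℚ → ℚ} (h : PolyFun φ) (h' : PolyFun ψ) : PolyFun fun t => φ t * ψ t := by
  obtain ⟨P, hP⟩ := h
  obtain ⟨Q, hQ⟩ := h'
  exact ⟨P * Q, fun t => by simp only [Polynomial.eval_mul, hP, hQ]⟩
lemma PolyFun.pow {φ : ℚ → ℚ} (h : PolyFun φ) (k : ℕ) : PolyFun fun t => φ t ^ k := by
  obtain ⟨P, hP⟩ := h
  exact ⟨P ^ k, fun t => by simp only [Polynomial.eval_pow, hP]⟩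
lemma PolyFun.const (a : ℚ) : PolyFun fun _ => a := ⟨Polynomial.C a, fun t => by simp⟩

lemma cf_polyFun (f : MvPolynomial (Fin n) ℚ) (v z d : Fin n → ℚ) :
    ∀ k, PolyFun fun t => cf f (z + t • d) v k := by
  induction f using MvPolynomial.induction_on with
  | C a =>
    intro k
    simp only [cf_C]
    exact PolyFun.const _
  | add p q hp hq =>
    intro k
    simp only [cf_add]
    exact (hp k).add (hq k)
  | mul_X p i hp =>
    intro k
    simp only [cf_mul_X]
    refine ((hp k).mul ?_).add ?_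
    · refine ⟨Polynomial.C (z i) + Polynomial.C (d i) * Polynomial.X, fun t => ?_⟩
      simp only [Pi.add_apply, Pi.smul_apply, smul_eq_mul, Polynomial.eval_add,
        Polynomial.eval_C, Polynomial.eval_mul, Polynomial.eval_X]
      ring
    · split_ifs
      · exact PolyFun.const _
      · exact (hp _).mul (PolyFun.const _)

lemma covN_polyFun (f : MvPolynomial (Fin n) ℚ) (v z d : Fin n → ℚ) :
    PolyFun fun t => covN f (z + t • d) v := by
  have h0 := cf_polyFun f v z d 0
  have h1 := cf_polyFun f v z d 1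
  have h2 := cf_polyFun f v z d 2
  have h3 := cf_polyFun f v z d 3
  have hH : PolyFun fun t => covH f (z + t • d) v :=
    (h1.pow 2).sub (((PolyFun.const 3).mul h0).mul h2)
  have hQ : PolyFun fun t => covQ f (z + t • d) v :=
    (((PolyFun.const 2).mul (h1.pow 3)).sub ((((PolyFun.const 9).mul h0).mul h1).mul h2)).add
      (((PolyFun.const 27).mul (h0.pow 2)).mul h3)
  exact ((hH.mul hQ).mul ((hQ.pow 2).sub ((PolyFun.const 3).mul (hH.pow 3)))).mul
    (((PolyFun.const 2).mul (hQ.pow 2)).sub ((PolyFun.const 9).mul (hH.pow 3)))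

/-- a polynomial function which is not zero at `1` is not zero at small positive rational numbers -/
lemma PolyFun.exists_small {φ : ℚ → ℚ} (h : PolyFun φ) (h1 : φ 1 ≠ 0) {δ : ℝ} (hδ : 0 < δ) :
    ∃ t : ℚ, 0 < t ∧ (t : ℝ) < δ ∧ φ t ≠ 0 := by
  obtain ⟨P, hP⟩ := h
  have hP0 : P ≠ 0 := by
    rintro rfl
    apply h1
    rw [hP, Polynomial.eval_zero]
  have hfin : {t : ℚ | P.eval t = 0}.Finite := by
    refine (P.roots.toFinset.finite_toSet).subset fun t ht => ?_
    simp only [Finset.mem_coe, Multiset.mem_toFinset]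
    rw [Polynomial.mem_roots hP0]
    exact ht
  by_contra hcon
  push Not at hcon
  have hsub : (fun k : ℕ => (1 : ℚ) / (k + 1)) '' {k : ℕ | (1 : ℝ) / (k + 1) < δ} ⊆
      {t : ℚ | P.eval t = 0} := by
    rintro _ ⟨k, hk, rfl⟩
    have h2 := hcon ((1 : ℚ) / (k + 1)) (by positivity) (by
      push_cast
      exact hk)
    rw [hP] at h2
    exact h2
  have hinf : {k : ℕ | (1 : ℝ) / (k + 1) < δ}.Infinite := by
    obtain ⟨m, hm⟩ := exists_nat_gt (1 / δ)
    refine (Set.Ici_infinite m).mono fun k hk => ?_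
    have hk' : (m : ℝ) ≤ k := by exact_mod_cast hk
    have h3 : 1 / δ < (k : ℝ) + 1 := by linarith
    have hp : (0 : ℝ) < (k : ℝ) + 1 := by positivity
    change (1 : ℝ) / (k + 1) < δ
    rw [div_lt_iff₀ hp]
    rw [div_lt_iff₀ hδ] at h3
    linarith
  refine hinf.image ?_ (hfin.subset hsub)
  intro k _ l _ hkl
  simp only at hkl
  have h4 : (k : ℚ) + 1 ≠ 0 := by positivity
  have h5 : (l : ℚ) + 1 ≠ 0 := by positivity
  field_simp at hkl
  have : (l : ℚ) = k := by linarith
  exact_mod_cast this.symm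

/-! ### Subspaces -/

/-- the points of the set near all points of `z + L`, in `z + L` -/
def Dn (f : MvPolynomial (Fin n) ℚ) (z : Fin n → ℚ) (L : Submodule ℚ (Fin n → ℚ)) : Prop :=
  ∀ u ∈ L, ∀ ε : ℝ, 0 < ε → ∃ z' ∈ cubeSet f, z' - z ∈ L ∧ dist z' (z + u) < ε

lemma Dn_bot {f : MvPolynomial (Fin n) ℚ} {z : Fin n → ℚ} (hz : z ∈ cubeSet f) : Dn f z ⊥ := by
  intro u hu ε hε
  rw [Submodule.mem_bot] at hu
  refine ⟨z, hz, by simp, ?_⟩
  rw [hu, add_zero, dist_self]
  exact hε

lemma dist_smul_le (s t : ℚ) (v : Fin n → ℚ) : dist (s • v) (t • v) ≤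
    |(s : ℝ) - t| * dist v 0 := by
  refine (dist_pi_le_iff (by positivity)).2 fun i => ?_
  have h1 : dist (v i) 0 ≤ dist v 0 := dist_le_pi_dist v 0 i
  have h2 : dist ((s • v) i) ((t • v) i) = |(s : ℝ) - t| * dist (v i) 0 := by
    rw [Rat.dist_eq, Rat.dist_eq]
    simp only [Pi.smul_apply, smul_eq_mul, Rat.cast_mul, Rat.cast_zero, sub_zero]
    rw [← sub_mul, abs_mul]
  rw [h2]
  exact mul_le_mul_of_nonneg_left h1 (abs_nonneg _)

/-- **extending the space of directions** -/
theorem Dn_step {f : MvPolynomial (Fin n) ℚ} {z v : Fin n → ℚ}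
    {L : Submodule ℚ (Fin n → ℚ)} (hd : ∀ z, (restriction f z v).natDegree ≤ 3) (hL : Dn f z L)
    {u₀ : Fin n → ℚ} (hu₀ : u₀ ∈ L) (hN : covN f (z + u₀) v ≠ 0) :
    Dn f z (L ⊔ Submodule.span ℚ {v}) := by
  intro u' hu' ε hε
  obtain ⟨u, hu, y, hy, rfl⟩ := Submodule.mem_sup.1 hu'
  obtain ⟨α, rfl⟩ := Submodule.mem_span_singleton.1 hy
  -- a point of `z + L` where the product does not vanish
  obtain ⟨t, ht0, htδ, ht⟩ := (covN_polyFun f v (z + u) (u₀ - u)).exists_small (by
    have : z + u + (1 : ℚ) • (u₀ - u) = z + u₀ := by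
      rw [one_smul]
      abel
    rw [this]
    exact hN) (δ := ε / (3 * (dist (u₀ - u) 0 + 1))) (by positivity)
  set u₁ : Fin n → ℚ := u + t • (u₀ - u) with hu₁
  have hu₁L : u₁ ∈ L := L.add_mem hu (L.smul_mem t (L.sub_mem hu₀ hu))
  have hN₁ : covN f (z + u₁) v ≠ 0 := by
    rw [hu₁, ← add_assoc]
    exact ht
  have hd₁ : dist (z + u₁) (z + u) < ε / 3 := by
    rw [dist_add_left, hu₁]
    have h1 : dist (u + t • (u₀ - u)) u = dist (t • (u₀ - u)) ((0 : ℚ) • (u₀ - u)) := by
      rw [zero_smul]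
      conv_lhs => rw [← add_zero u, add_assoc, dist_add_left]
      rw [zero_add, add_zero]
    rw [h1]
    refine (dist_smul_le t 0 (u₀ - u)).trans_lt ?_
    rw [Rat.cast_zero, sub_zero, abs_of_pos (by exact_mod_cast ht0)]
    have h2 : 0 ≤ dist (u₀ - u) 0 := dist_nonneg
    rw [lt_div_iff₀ (by positivity)] at htδ
    nlinarith
  -- nearby points
  have hopen : IsOpen {x : Fin n → ℚ | covN f x v ≠ 0} :=
    isOpen_ne_fun (covN_continuous f v) continuous_const
  obtain ⟨δ, hδ, hball⟩ := Metric.isOpen_iff.1 hopen (z + u₁) hN₁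
  obtain ⟨z₁, hz₁, hz₁L, hz₁d⟩ := hL u₁ hu₁L (min δ (ε / 3)) (lt_min hδ (by positivity))
  have hN₂ : covN f z₁ v ≠ 0 := hball (Metric.mem_ball.2 (hz₁d.trans_le (min_le_left _ _)))
  obtain ⟨s, hs, hsz⟩ := move (hd z₁) hz₁ hN₂ (α : ℝ) (ε := ε / (3 * (dist v 0 + 1)))
    (by positivity)
  refine ⟨z₁ + s • v, hsz, ?_, ?_⟩
  · have : z₁ + s • v - z = (z₁ - z) + s • v := by abel
    rw [this]
    exact Submodule.add_mem_sup hz₁L (Submodule.mem_span_singleton.2 ⟨s, rfl⟩)
  · have h1 : dist (z₁ + s • v) (z + (u + α • v)) ≤ dist z₁ (z + u₁) + dist (z + u₁) (z + u) +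
        dist (s • v) (α • v) := by
      have h2 : dist (z₁ + s • v) (z + (u + α • v)) ≤ dist z₁ (z + u) + dist (s • v) (α • v) := by
        rw [← add_assoc]
        exact dist_add_add_le _ _ _ _
      exact h2.trans (by gcongr; exact dist_triangle _ _ _)
    have h3 : dist z₁ (z + u₁) < ε / 3 := hz₁d.trans_le (min_le_right _ _)
    have h4 : dist (s • v) (α • v) ≤ |(s : ℝ) - α| * dist v 0 := dist_smul_le s α v
    have h5 : |(s : ℝ) - α| * dist v 0 < ε / 3 := by
      have h6 : 0 ≤ dist v 0 := dist_nonneg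
      have h7 : 0 ≤ |(s : ℝ) - α| := abs_nonneg _
      rw [lt_div_iff₀ (by positivity)] at hs
      nlinarith
    linarith

/-- extending the space of directions by a free direction -/
theorem Dn_free {f : MvPolynomial (Fin n) ℚ} {z v : Fin n → ℚ}
    {L : Submodule ℚ (Fin n → ℚ)} (hd : ∀ z, (restriction f z v).natDegree ≤ 3) (hL : Dn f z L)
    (hH : ∀ u ∈ L, covH f (z + u) v = 0 ∧ covQ f (z + u) v = 0) :
    Dn f z (L ⊔ Submodule.span ℚ {v}) := by
  intro u' hu' ε hε
  obtain ⟨u, hu, y, hy, rfl⟩ := Submodule.mem_sup.1 hu'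
  obtain ⟨α, rfl⟩ := Submodule.mem_span_singleton.1 hy
  obtain ⟨z₁, hz₁, hz₁L, hz₁d⟩ := hL u hu (ε / 3) (by positivity)
  have hz₁u : z₁ = z + (z₁ - z) := by abel
  obtain ⟨s, hs, hsz⟩ := move_free (hd z₁) hz₁ (by rw [hz₁u]; exact (hH _ hz₁L).1)
    (by rw [hz₁u]; exact (hH _ hz₁L).2) (α : ℝ) (ε := ε / (3 * (dist v 0 + 1))) (by positivity)
  refine ⟨z₁ + s • v, hsz, ?_, ?_⟩
  · have : z₁ + s • v - z = (z₁ - z) + s • v := by abel
    rw [this]
    exact Submodule.add_mem_sup hz₁L (Submodule.mem_span_singleton.2 ⟨s, rfl⟩)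
  · have h1 : dist (z₁ + s • v) (z + (u + α • v)) ≤ dist z₁ (z + u) + dist (s • v) (α • v) := by
      rw [← add_assoc]
      exact dist_add_add_le _ _ _ _
    have h4 : dist (s • v) (α • v) ≤ |(s : ℝ) - α| * dist v 0 := dist_smul_le s α v
    have h5 : |(s : ℝ) - α| * dist v 0 < ε / 3 := by
      have h6 : 0 ≤ dist v 0 := dist_nonneg
      have h7 : 0 ≤ |(s : ℝ) - α| := abs_nonneg _
      rw [lt_div_iff₀ (by positivity)] at hs
      nlinarith
    linarith

/-- **a maximal subspace of directions** -/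
theorem exists_max {f : MvPolynomial (Fin n) ℚ} {V : Set (Fin n → ℚ)}
    (hd : ∀ v ∈ V, ∀ z, (restriction f z v).natDegree ≤ 3) {z : Fin n → ℚ} (hz : z ∈ cubeSet f) :
    ∃ L : Submodule ℚ (Fin n → ℚ), Dn f z L ∧ L = Submodule.span ℚ {v | v ∈ V ∧ v ∈ L} ∧
      ∀ v ∈ V, v ∉ L → (∀ u ∈ L, covN f (z + u) v = 0) ∧
        ∃ u ∈ L, covH f (z + u) v ≠ 0 ∨ covQ f (z + u) v ≠ 0 := by
  set P : Set (Submodule ℚ (Fin n → ℚ)) :=
    {L | Dn f z L ∧ L = Submodule.span ℚ {v | v ∈ V ∧ v ∈ L}} with hP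
  have hne : P.Nonempty := by
    refine ⟨⊥, Dn_bot hz, ?_⟩
    symm
    rw [Submodule.span_eq_bot]
    rintro v ⟨-, hv⟩
    exact (Submodule.mem_bot ℚ).1 hv
  obtain ⟨L, ⟨hL1, hL2⟩, hmax⟩ := (wellFounded_gt (α := Submodule ℚ (Fin n → ℚ))).has_min P hne
  refine ⟨L, hL1, hL2, fun v hv hvL => ?_⟩
  have key : ¬ Dn f z (L ⊔ Submodule.span ℚ {v}) := by
    intro h1
    have hlt : L < L ⊔ Submodule.span ℚ {v} := by
      refine lt_of_le_of_ne le_sup_left fun h => hvL ?_
      rw [h]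
      exact Submodule.mem_sup_right (Submodule.mem_span_singleton_self v)
    refine hmax (L ⊔ Submodule.span ℚ {v}) ⟨h1, ?_⟩ hlt
    apply le_antisymm
    · refine sup_le ?_ ?_
      · conv_lhs => rw [hL2]
        exact Submodule.span_mono fun x hx => ⟨hx.1, Submodule.mem_sup_left hx.2⟩
      · rw [Submodule.span_singleton_le_iff_mem]
        exact Submodule.subset_span ⟨hv,
          Submodule.mem_sup_right (Submodule.mem_span_singleton_self v)⟩
    · exact Submodule.span_le.2 fun x hx => hx.2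
  constructor
  · intro u hu
    by_contra hN
    exact key (Dn_step (hd v hv) hL1 hu hN)
  · by_contra hcon
    push Not at hcon
    exact key (Dn_free (hd v hv) hL1 hcon)

end Pool.Agent.H1.TC
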