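import Pool.Agent.H1.TC.Multi
import Pool.Graph.R_seed8.TH729.SQ.Tools

/-!
# Cyclic triple covers `w³ = f(z)`: the closure of the set of rational points
-/

set_option autoImplicit false

open Set Filter Topology

namespace Pool.Agent.H1.TC

open Pool.Agent.H581R2 Pool.Agent.TH729.SQ

variable {n : ℕ}

/-- the closure in `ℝⁿ` of a set of rational points -/
def rc {n : ℕ} (S : Set (Fin n → ℚ)) : Set (Fin n → ℝ) :=
  closure {x | ∃ q ∈ S, ∀ i, x i = (q i : ℝ)}

lemma mem_rc {S : Set (Fin n → ℚ)} {x : Fin n → ℝ} :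
    x ∈ rc S ↔ ∀ ε : ℝ, 0 < ε → ∃ q ∈ S, ∀ i, |x i - (q i : ℝ)| < ε := by
  unfold rc
  rw [Metric.mem_closure_iff]
  refine forall_congr' fun ε => forall_congr' fun hε => ?_
  constructor
  · rintro ⟨y, ⟨q, hq, hy⟩, hd⟩
    refine ⟨q, hq, fun i => ?_⟩
    have := (dist_pi_lt_iff hε).1 hd i
    rwa [Real.dist_eq, hy] at this
  · rintro ⟨q, hq, h⟩
    refine ⟨fun i => (q i : ℝ), ⟨q, hq, fun i => rfl⟩, (dist_pi_lt_iff hε).2 fun i => ?_⟩
    rw [Real.dist_eq]
    exact h i

lemma rc_mono {S T : Set (Fin n → ℚ)} (h : S ⊆ T) : rc S ⊆ rc T :=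
  closure_mono fun _ ⟨q, hq, hx⟩ => ⟨q, h hq, hx⟩

lemma rc_union (S T : Set (Fin n → ℚ)) : rc (S ∪ T) = rc S ∪ rc T := by
  unfold rc
  rw [← closure_union]
  congr 1
  ext x
  constructor
  · rintro ⟨q, hq | hq, hx⟩
    · exact Or.inl ⟨q, hq, hx⟩
    · exact Or.inr ⟨q, hq, hx⟩
  · rintro (⟨q, hq, hx⟩ | ⟨q, hq, hx⟩)
    · exact ⟨q, Or.inl hq, hx⟩
    · exact ⟨q, Or.inr hq, hx⟩

lemma rc_empty : rc (∅ : Set (Fin n → ℚ)) = ∅ := by
  unfold rc
  simp

lemma subset_rc {S T : Set (Fin n → ℚ)}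
    (h : ∀ q ∈ S, ∀ ε : ℝ, 0 < ε → ∃ r ∈ T, dist r q < ε) : rc S ⊆ rc T := by
  intro x hx
  rw [mem_rc] at hx ⊢
  intro ε hε
  obtain ⟨q, hq, hxq⟩ := hx (ε / 2) (by positivity)
  obtain ⟨r, hr, hrq⟩ := h q hq (ε / 2) (by positivity)
  refine ⟨r, hr, fun i => ?_⟩
  have h1 := (dist_pi_lt_iff (by positivity)).1 hrq i
  rw [Rat.dist_eq] at h1
  have h2 := hxq i
  rw [abs_lt] at h1 h2 ⊢
  constructor <;> linarith [h1.1, h1.2, h2.1, h2.2]

lemma rc_univ : rc (univ : Set (Fin n → ℚ)) = univ := by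
  refine eq_univ_of_forall fun x => ?_
  rw [mem_rc]
  intro ε hε
  have h : ∀ i, ∃ q : ℚ, x i - ε < q ∧ (q : ℝ) < x i := fun i => exists_rat_btwn (by linarith)
  choose q hq using h
  refine ⟨q, mem_univ _, fun i => ?_⟩
  rw [abs_lt]
  constructor <;> linarith [(hq i).1, (hq i).2]

/-- the affine subspaces on which the moves stop -/
def Terminal (f : MvPolynomial (Fin n) ℚ) (V : Set (Fin n → ℚ))
    (A : AffineSubspace ℚ (Fin n → ℚ)) : Prop :=
  A.direction = Submodule.span ℚ {v | v ∈ V ∧ v ∈ A.direction} ∧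
    ∀ v ∈ V, v ∉ A.direction → (∀ p ∈ A, covN f p v = 0) ∧
      ∃ p ∈ A, covH f p v ≠ 0 ∨ covQ f p v ≠ 0

/-- **the structure of the closure** -/
theorem exists_terminal {f : MvPolynomial (Fin n) ℚ} {V : Set (Fin n → ℚ)}
    (hd : ∀ v ∈ V, ∀ z, (restriction f z v).natDegree ≤ 3) {z : Fin n → ℚ} (hz : z ∈ cubeSet f) :
    ∃ A : AffineSubspace ℚ (Fin n → ℚ), z ∈ A ∧ Terminal f V A ∧
      rc (A : Set (Fin n → ℚ)) ⊆ rc (cubeSet f) := by
  obtain ⟨L, h1, h2, h3⟩ := exists_max hd hz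
  refine ⟨AffineSubspace.mk' z L, AffineSubspace.self_mem_mk' _ _, ⟨?_, ?_⟩, ?_⟩
  · rw [AffineSubspace.direction_mk']
    exact h2
  · intro v hv hvA
    rw [AffineSubspace.direction_mk'] at hvA
    obtain ⟨h4, u, hu, h5⟩ := h3 v hv hvA
    constructor
    · intro p hp
      rw [AffineSubspace.mem_mk'] at hp
      have h6 := h4 (p - z) hp
      rwa [add_sub_cancel] at h6
    · refine ⟨z + u, ?_, h5⟩
      rw [AffineSubspace.mem_mk']
      simpa using hu
  · refine subset_rc fun p hp ε hε => ?_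
    have hp' : p - z ∈ L := (AffineSubspace.mem_mk' (p := z) (q := p) (direction := L)).1 hp
    obtain ⟨z', h6, -, h7⟩ := h1 (p - z) hp' ε hε
    rw [add_sub_cancel] at h7
    exact ⟨z', h6, h7⟩

/-- **density** -/
theorem dense_of_point {f : MvPolynomial (Fin n) ℚ} {V : Set (Fin n → ℚ)}
    (hV : Submodule.span ℚ V = ⊤)
    (hd : ∀ v ∈ V, ∀ z, (restriction f z v).natDegree ≤ 3) {z : Fin n → ℚ} (hz : z ∈ cubeSet f)
    (hN : ∀ v ∈ V, covN f z v ≠ 0 ∨ ∀ p, covH f p v = 0 ∧ covQ f p v = 0) :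
    rc (cubeSet f) = univ := by
  obtain ⟨A, hzA, ⟨h1, h2⟩, h3⟩ := exists_terminal hd hz
  have h4 : A.direction = ⊤ := by
    rw [← top_le_iff, ← hV, Submodule.span_le]
    intro v hv
    by_contra hvA
    obtain ⟨h5, p, hp, h6⟩ := h2 v hv hvA
    rcases hN v hv with h7 | h7
    · exact h7 (h5 z hzA)
    · rcases h6 with h6 | h6
      · exact h6 (h7 p).1
      · exact h6 (h7 p).2
  have h5 : (A : Set (Fin n → ℚ)) = univ := by
    refine eq_univ_of_forall fun p => ?_
    have h6 : p -ᵥ z ∈ A.direction := by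
      rw [h4]
      exact Submodule.mem_top
    have h7 := AffineSubspace.vadd_mem_of_mem_direction h6 hzA
    rwa [vsub_vadd] at h7
  rw [h5, rc_univ] at h3
  exact eq_univ_of_univ_subset h3

/-! ### Affine subspaces -/

lemma exists_proj (L : Submodule ℚ (Fin n → ℚ)) :
    ∃ P : (Fin n → ℚ) →ₗ[ℚ] (Fin n → ℚ), (∀ x ∈ L, P x = x) ∧ ∀ x, P x ∈ L := by
  obtain ⟨g, hg⟩ := L.subtype.exists_leftInverse_of_injective L.ker_subtype
  refine ⟨L.subtype ∘ₗ g, fun x hx => ?_, fun x => ?_⟩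
  · have := LinearMap.congr_fun hg ⟨x, hx⟩
    simp only [LinearMap.comp_apply, Submodule.subtype_apply, LinearMap.id_apply] at this
    simp only [LinearMap.comp_apply, Submodule.subtype_apply, this]
  · simp only [LinearMap.comp_apply, Submodule.subtype_apply]
    exact (g x).2

lemma SA.rc_affine (A : AffineSubspace ℚ (Fin n → ℚ)) : SA (rc (A : Set (Fin n → ℚ))) := by
  by_cases hA : (A : Set (Fin n → ℚ)) = ∅
  · rw [hA, rc_empty]
    exact SA.empty
  obtain ⟨p, hp⟩ := nonempty_iff_ne_empty.2 hA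
  obtain ⟨P, hP1, hP2⟩ := exists_proj A.direction
  set M : Fin n → Fin n → ℚ := fun i j => P (Pi.single j 1) i with hM
  have hPM : ∀ y i, P y i = ∑ j, y j * M i j := by
    intro y i
    have h1 : y = ∑ j, y j • (Pi.single j (1 : ℚ) : Fin n → ℚ) := by
      funext k
      simp [Finset.sum_apply, Pi.single_apply]
    conv_lhs => rw [h1]
    rw [map_sum, Finset.sum_apply]
    refine Finset.sum_congr rfl fun j _ => ?_
    rw [map_smul, Pi.smul_apply, smul_eq_mul]
  have key : rc (A : Set (Fin n → ℚ)) = {x | ∀ i, ∑ j, (x j - (p j : ℝ)) * (M i j : ℝ) =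
      x i - (p i : ℝ)} := by
    apply Subset.antisymm
    · refine closure_minimal ?_ ?_
      · rintro x ⟨q, hq, hx⟩ i
        have h1 : q - p ∈ A.direction := AffineSubspace.vsub_mem_direction hq hp
        have h2 : P (q - p) i = (q - p) i := by rw [hP1 _ h1]
        rw [hPM] at h2
        have h3 : ((∑ j, (q - p) j * M i j : ℚ) : ℝ) = ((q - p) i : ℚ) := by rw [h2]
        push_cast [Pi.sub_apply] at h3
        rw [hx i]
        rw [← h3]
        refine Finset.sum_congr rfl fun j _ => ?_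
        rw [hx j]
      · rw [ofPred_forall]
        refine isClosed_iInter fun i => isClosed_eq ?_ ?_
        · fun_prop
        · fun_prop
    · intro x hx
      rw [mem_rc]
      intro ε hε
      -- rational approximation
      have hcont : Continuous fun y : Fin n → ℝ => fun i => ∑ j, y j * (M i j : ℝ) := by
        fun_prop
      have h1 := (Metric.continuous_iff.1 hcont) (fun j => x j - (p j : ℝ)) (ε / 2)
        (by positivity)
      obtain ⟨δ, hδ, h1⟩ := h1
      have h2 : ∀ j, ∃ q : ℚ, (x j - (p j : ℝ)) - δ < q ∧ (q : ℝ) < x j - (p j : ℝ) :=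
        fun j => exists_rat_btwn (by linarith)
      choose q hq using h2
      have h3 := h1 (fun j => (q j : ℝ)) ((dist_pi_lt_iff hδ).2 fun j => by
        rw [Real.dist_eq, abs_lt]
        constructor <;> linarith [(hq j).1, (hq j).2])
      refine ⟨p + P q, ?_, fun i => ?_⟩
      · have h4 := AffineSubspace.vadd_mem_of_mem_direction (hP2 q) hp
        rwa [vadd_eq_add, add_comm] at h4
      · have h5 := (dist_pi_lt_iff (by positivity)).1 h3 i
        rw [Real.dist_eq] at h5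
        rw [hx i] at h5
        have h6 : ((P q i : ℚ) : ℝ) = ∑ j, (q j : ℝ) * (M i j : ℝ) := by
          rw [hPM]
          push_cast
          rfl
        rw [Pi.add_apply, Rat.cast_add, h6]
        rw [abs_lt] at h5 ⊢
        constructor <;> linarith [h5.1, h5.2]
  rw [key]
  refine SAP.forall_fin (p := fun i x => ∑ j, (x j - (p j : ℝ)) * (M i j : ℝ) =
      x i - (p i : ℝ)) fun i => SAP.eq ?_ ((PF.coord i).sub (PF.const _))
  exact PF.sum _ fun j _ => ((PF.coord j).sub (PF.const _)).mul (PF.const _)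

/-! ### The graph -/

/-- the rational points at which the value is a cube -/
def cubes (f : MvPolynomial (Fin n) ℚ) : Set (Fin n → ℚ) :=
  {z | ∃ w : ℚ, w ^ 3 = MvPolynomial.eval z f}

/-- the rational points of `w³ = f(z)` -/
def XQ (f : MvPolynomial (Fin n) ℚ) : Set (Fin (n + 1) → ℝ) :=
  {x | ∃ q : Fin (n + 1) → ℚ, q 0 ^ 3 = MvPolynomial.eval (Fin.tail q) f ∧
    ∀ i, x i = (q i : ℝ)}

/-- the real points of `w³ = f(z)` -/
def XR (f : MvPolynomial (Fin n) ℚ) : Set (Fin (n + 1) → ℝ) :=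
  {x | x 0 ^ 3 = MvPolynomial.aeval (Fin.tail x) f}

lemma aeval_continuous (f : MvPolynomial (Fin n) ℚ) :
    Continuous fun x : Fin n → ℝ => (MvPolynomial.aeval x f : ℝ) := by
  induction f using MvPolynomial.induction_on with
  | C a =>
    simp only [MvPolynomial.aeval_C]
    exact continuous_const
  | add p q hp hq =>
    simp only [map_add]
    exact hp.add hq
  | mul_X p i hp =>
    simp only [map_mul, MvPolynomial.aeval_X]
    exact hp.mul (continuous_apply i)

lemma aeval_cast (f : MvPolynomial (Fin n) ℚ) (q : Fin n → ℚ) :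
    (MvPolynomial.aeval (fun i => (q i : ℝ)) f : ℝ) = ((MvPolynomial.eval q f : ℚ) : ℝ) := by
  induction f using MvPolynomial.induction_on with
  | C a => simp
  | add p r hp hr => simp only [map_add, hp, hr, Rat.cast_add]
  | mul_X p i hp =>
    simp only [map_mul, MvPolynomial.aeval_X, hp, MvPolynomial.eval_X, Rat.cast_mul]

theorem closure_XQ (f : MvPolynomial (Fin n) ℚ) :
    closure (XQ f) = {x | x ∈ XR f ∧ Fin.tail x ∈ rc (cubes f)} := by
  have htail : Continuous fun x : Fin (n + 1) → ℝ => (Fin.tail x : Fin n → ℝ) :=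
    continuous_pi fun i => continuous_apply (Fin.succ i)
  apply Subset.antisymm
  · refine closure_minimal ?_ ?_
    · rintro x ⟨q, hq, hx⟩
      have e1 : Fin.tail x = fun i => ((Fin.tail q i : ℚ) : ℝ) := by
        funext i
        exact hx _
      refine ⟨?_, subset_closure ⟨Fin.tail q, ⟨q 0, hq⟩, fun i => hx _⟩⟩
      change x 0 ^ 3 = MvPolynomial.aeval (Fin.tail x) f
      rw [e1, aeval_cast, ← hq, hx 0]
      push_cast
      rfl
    · refine IsClosed.inter ?_ ?_
      · exact isClosed_eq ((continuous_apply 0).pow 3) ((aeval_continuous f).comp htail)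
      · exact isClosed_closure.preimage htail
  · rintro x ⟨hx, hxc⟩
    rw [Metric.mem_closure_iff]
    intro ε hε
    have hc : Continuous fun y : Fin n → ℝ => cbrt (MvPolynomial.aeval y f) :=
      cbrt_continuous.comp (aeval_continuous f)
    obtain ⟨δ, hδ, h1⟩ := (Metric.continuous_iff.1 hc) (Fin.tail x) ε hε
    obtain ⟨q, ⟨w, hw⟩, hq⟩ := mem_rc.1 hxc (min δ ε) (lt_min hδ hε)
    have h2 := h1 (fun i => (q i : ℝ)) ((dist_pi_lt_iff hδ).2 fun i => by
      rw [Real.dist_eq, abs_sub_comm]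
      exact (hq i).trans_le (min_le_left _ _))
    have h3 : x 0 = cbrt (MvPolynomial.aeval (Fin.tail x) f) := cbrt_unique hx
    have h4 : (w : ℝ) = cbrt (MvPolynomial.aeval (fun i => (q i : ℝ)) f) := by
      apply cbrt_unique
      rw [aeval_cast, ← hw]
      push_cast
      rfl
    rw [← h3, ← h4] at h2
    refine ⟨fun i => ((Fin.cons w q : Fin (n + 1) → ℚ) i : ℝ), ⟨Fin.cons w q, ?_, fun i => rfl⟩, ?_⟩
    · rw [Fin.cons_zero, Fin.tail_cons]
      exact hw
    · rw [dist_pi_lt_iff hε]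
      intro i
      refine Fin.cases ?_ (fun i => ?_) i
      · rw [Fin.cons_zero, dist_comm]
        exact h2
      · rw [Fin.cons_succ, Real.dist_eq]
        exact (hq i).trans_le (min_le_right _ _)

lemma cubes_eq (f : MvPolynomial (Fin n) ℚ) :
    cubes f = cubeSet f ∪ {z | MvPolynomial.eval z f = 0} := by
  ext z
  constructor
  · rintro ⟨w, hw⟩
    by_cases h0 : w = 0
    · right
      change MvPolynomial.eval z f = 0
      rw [← hw, h0]
      ring
    · exact Or.inl ⟨w, h0, hw⟩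
  · rintro (⟨w, -, hw⟩ | h)
    · exact ⟨w, hw⟩
    · exact ⟨0, by rw [show MvPolynomial.eval z f = 0 from h]; ring⟩

/-- the closure is everything -/
theorem closure_eq_XR {f : MvPolynomial (Fin n) ℚ} (h : rc (cubes f) = univ) :
    closure (XQ f) = XR f := by
  rw [closure_XQ, h]
  ext x
  simp

/-- **semialgebraicity**, if there are finitely many terminal subspaces -/
theorem semialg_closure {f : MvPolynomial (Fin n) ℚ} {V : Set (Fin n → ℚ)}
    (hd : ∀ v ∈ V, ∀ z, (restriction f z v).natDegree ≤ 3)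
    (hfin : {A : AffineSubspace ℚ (Fin n → ℚ) | Terminal f V A ∧
      ∃ z ∈ A, z ∈ cubeSet f}.Finite)
    (h0 : SA (rc {z : Fin n → ℚ | MvPolynomial.eval z f = 0})) : SA (closure (XQ f)) := by
  classical
  have h1 : SA (rc (cubeSet f)) := by
    have hfin' : {A : AffineSubspace ℚ (Fin n → ℚ) | (Terminal f V A ∧
        ∃ z ∈ A, z ∈ cubeSet f) ∧ rc (A : Set (Fin n → ℚ)) ⊆ rc (cubeSet f)}.Finite :=
      hfin.subset fun A hA => hA.1
    refine SAP.congr (SAP.exists_mem hfin'.toFinset (p := fun A x =>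
      x ∈ rc (A : Set (Fin n → ℚ))) fun A _ => SA.rc_affine A) fun x => ?_
    constructor
    · intro hx
      have hcl : IsClosed (⋃ A ∈ hfin'.toFinset, rc (A : Set (Fin n → ℚ))) :=
        isClosed_biUnion_finset fun A _ => isClosed_closure
      have hsub : rc (cubeSet f) ⊆ ⋃ A ∈ hfin'.toFinset, rc (A : Set (Fin n → ℚ)) := by
        refine closure_minimal ?_ hcl
        rintro y ⟨q, hq, hy⟩
        obtain ⟨A, hqA, hA1, hA2⟩ := exists_terminal hd hq
        rw [mem_iUnion₂]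
        exact ⟨A, hfin'.mem_toFinset.2 ⟨⟨hA1, q, hqA, hq⟩, hA2⟩,
          subset_closure ⟨q, hqA, hy⟩⟩
      have := hsub hx
      rw [mem_iUnion₂] at this
      obtain ⟨A, hA, hxA⟩ := this
      exact ⟨A, hA, hxA⟩
    · rintro ⟨A, hA, hxA⟩
      exact (hfin'.mem_toFinset.1 hA).2 hxA
  have h2 : SA (rc (cubes f)) := by
    rw [cubes_eq, rc_union]
    exact h1.union h0
  rw [closure_XQ]
  refine SA.inter (S := XR f) (T := {x | Fin.tail x ∈ rc (cubes f)}) ?_ ?_
  · refine SAP.eq (f := fun x : Fin (n + 1) → ℝ => x 0 ^ 3)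
      (g := fun x : Fin (n + 1) → ℝ => MvPolynomial.aeval (Fin.tail x) f)
      ((PF.coord 0).pow 3) ?_
    exact (PF.aeval f).comp (φ := fun (x : Fin (n + 1) → ℝ) i => Fin.tail x i)
      fun i => PF.coord (Fin.succ i)
  · exact h2.preimage (φ := fun (x : Fin (n + 1) → ℝ) i => Fin.tail x i)
      fun i => PF.coord (Fin.succ i)

/-- the classical form of semialgebraic sets -/
lemma SA.of_frozen {m : ℕ} (P : Fin m → MvPolynomial (Fin n) ℚ)
    (G : Fin m → Finset (MvPolynomial (Fin n) ℚ)) :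
    SA {x : Fin n → ℝ | ∃ j : Fin m, (MvPolynomial.aeval x (P j) : ℝ) = 0 ∧
        ∀ g ∈ G j, (0 : ℝ) < MvPolynomial.aeval x g} :=
  SAP.exists_fin fun j => (SAP.eq_zero (PF.aeval (P j))).and
    (SAP.forall_mem _ fun g _ => SAP.pos (PF.aeval g))

end Pool.Agent.H1.TC
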