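import Pool.Agent.H1.TC.Arith
import Pool.Agent.H1.TC.Der

/-!
# Slices of forms
-/

set_option autoImplicit false

namespace Pool.Agent.H1.TC

open MvPolynomial

variable {σ : Type} [Fintype σ] [DecidableEq σ]

/-- the slice of a form in the coordinates outside of `J` -/
noncomputable def slice (J : Finset σ) (z : σ → ℚ) :
    MvPolynomial (σ × Fin 2) ℚ →ₐ[ℚ] MvPolynomial (J × Fin 2) ℚ :=
  aeval fun p => if h : p.1 ∈ J then X (⟨p.1, h⟩, p.2) else if p.2 = 0 then 1 else C (z p.1)

/-- the corresponding point -/
def extp {K : Type} [Field K] [Algebra ℚ K] (J : Finset σ) (z : σ → ℚ) (y : J × Fin 2 → K)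
    (p : σ × Fin 2) : K :=
  if h : p.1 ∈ J then y (⟨p.1, h⟩, p.2) else if p.2 = 0 then 1 else algebraMap ℚ K (z p.1)

omit [Fintype σ] in
lemma aeval_slice {K : Type} [Field K] [Algebra ℚ K] (J : Finset σ) (z : σ → ℚ)
    (y : J × Fin 2 → K) (G : MvPolynomial (σ × Fin 2) ℚ) :
    aeval y (slice J z G) = aeval (extp J z y) G := by
  have h : ((aeval y : MvPolynomial (J × Fin 2) ℚ →ₐ[ℚ] K).comp (slice J z)) =
      aeval (extp J z y) := by
    apply MvPolynomial.algHom_ext
    intro p
    simp only [slice, AlgHom.comp_apply, aeval_X, extp]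
    split_ifs
    · exact aeval_X _ _
    · exact map_one _
    · exact aeval_C _ _
  exact DFunLike.congr_fun h G

omit [Fintype σ] in
lemma pderiv_slice (J : Finset σ) (z : σ → ℚ) (j : J) (b : Fin 2)
    (G : MvPolynomial (σ × Fin 2) ℚ) :
    pderiv (j, b) (slice J z G) = slice J z (pderiv ((j : σ), b) G) := by
  induction G using MvPolynomial.induction_on with
  | C a =>
    have h : slice J z (C a) = C a := by
      unfold slice
      exact aeval_C _ _
    rw [h, pderiv_C, pderiv_C, map_zero]
  | add f g hf hg => simp only [map_add, hf, hg]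
  | mul_X f p hf =>
    have h : pderiv (j, b) (slice J z (X p)) =
        slice J z (pderiv ((j : σ), b) (X p)) := by
      rcases p with ⟨i, c⟩
      unfold slice
      rw [aeval_X, pderiv_X]
      by_cases hi : i ∈ J
      · rw [dif_pos hi, pderiv_X]
        by_cases h1 : ((j : σ), b) = (i, c)
        · have h2 : (j, b) = ((⟨i, hi⟩ : J), c) := by
            rw [Prod.mk.injEq] at h1 ⊢
            exact ⟨Subtype.ext h1.1, h1.2⟩
          have e1 : (Pi.single (j, b) 1 : J × Fin 2 → MvPolynomial (J × Fin 2) ℚ)
              ((⟨i, hi⟩ : J), c) = 1 := by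
            rw [← h2]
            exact Pi.single_eq_same _ _
          have e2 : (Pi.single ((j : σ), b) 1 : σ × Fin 2 → MvPolynomial (σ × Fin 2) ℚ)
              (i, c) = 1 := by
            rw [← h1]
            exact Pi.single_eq_same _ _
          rw [e2, map_one]
          exact e1
        · have h2 : (j, b) ≠ ((⟨i, hi⟩ : J), c) := by
            intro h3
            apply h1
            rw [Prod.mk.injEq] at h3 ⊢
            exact ⟨congrArg Subtype.val h3.1, h3.2⟩
          rw [Pi.single_eq_of_ne (Ne.symm h1), Pi.single_eq_of_ne (Ne.symm h2), map_zero]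
      · rw [dif_neg hi]
        have h1 : ((j : σ), b) ≠ (i, c) := by
          intro h3
          rw [Prod.mk.injEq] at h3
          apply hi
          rw [← h3.1]
          exact j.2
        rw [Pi.single_eq_of_ne (Ne.symm h1), map_zero]
        simp only
        split_ifs
        · exact pderiv_one
        · exact pderiv_C
    rw [map_mul, pderiv_mul, pderiv_mul, map_add, map_mul, map_mul, hf, h]

omit [Fintype σ] [DecidableEq σ] in
lemma isForm_iff {τ : Type} [Fintype τ] [DecidableEq τ] {F : MvPolynomial (τ × Fin 2) ℚ} :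
    IsForm F ↔ ∀ j, F.IsWeightedHomogeneous (wt j) 3 := by
  refine ⟨fun h j => h.wt j, fun h m hm j => ?_⟩
  have h1 := h j (mem_support_iff.1 hm)
  rw [Finsupp.weight_apply, Finsupp.sum_fintype _ _ (fun _ => by simp), Fintype.sum_prod_type,
    Finset.sum_eq_single j] at h1
  · simp only [wt, Fin.sum_univ_two, if_true, smul_eq_mul, mul_one] at h1
    exact h1
  · intro i _ hij
    simp [wt, hij]
  · intro h'
    exact absurd (Finset.mem_univ j) h'

lemma isForm_slice {F : MvPolynomial (σ × Fin 2) ℚ} (hF : IsForm F) (J : Finset σ) (z : σ → ℚ) :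
    IsForm (slice J z F) := by
  rw [isForm_iff]
  intro j
  have hX : ∀ p : σ × Fin 2, (slice J z (X p)).IsWeightedHomogeneous (wt j)
      (wt (j : σ) p) := by
    rintro ⟨i, b⟩
    unfold slice
    rw [aeval_X]
    by_cases hi : i ∈ J
    · rw [dif_pos hi]
      have h1 := isWeightedHomogeneous_X ℚ (wt j) ((⟨i, hi⟩ : J), b)
      have h2 : wt j ((⟨i, hi⟩ : J), b) = wt (j : σ) (i, b) := by
        unfold wt
        simp only [← Subtype.coe_inj]
      rw [h2] at h1
      exact h1
    · rw [dif_neg hi]
      have h2 : wt (j : σ) (i, b) = 0 := by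
        unfold wt
        simp only
        rw [if_neg]
        rintro rfl
        exact hi j.2
      rw [h2]
      simp only
      split_ifs
      · exact isWeightedHomogeneous_one _ _
      · exact isWeightedHomogeneous_C _ _
  have h1 : slice J z F = ∑ m ∈ F.support, C (coeff m F) * ∏ p, (slice J z (X p)) ^ m p := by
    conv_lhs => rw [F.as_sum]
    rw [map_sum]
    refine Finset.sum_congr rfl fun m _ => ?_
    rw [monomial_eq, map_mul, Finsupp.prod_fintype _ _ (fun _ => pow_zero _), map_prod]
    congr 1
    · unfold slice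
      exact aeval_C _ _
    · refine Finset.prod_congr rfl fun p _ => ?_
      rw [map_pow]
  rw [h1]
  refine IsWeightedHomogeneous.sum _ _ _ fun m hm => ?_
  have h2 : (∏ p, (slice J z (X p)) ^ m p).IsWeightedHomogeneous (wt j) 3 := by
    have h3 := IsWeightedHomogeneous.prod Finset.univ (fun p => (slice J z (X p)) ^ m p)
      (fun p => m p • wt (j : σ) p) (w := wt j) fun p _ => (hX p).pow (m p)
    have h4 : ∑ p, m p • wt (j : σ) p = 3 := by
      rw [Fintype.sum_prod_type, Finset.sum_eq_single (j : σ)]
      · simp only [wt, Fin.sum_univ_two, if_true, smul_eq_mul, mul_one]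
        exact hF m hm j
      · intro i _ hij
        simp [wt, hij]
      · intro h'
        exact absurd (Finset.mem_univ _) h'
    rw [h4] at h3
    exact h3
  have h5 := (isWeightedHomogeneous_C (wt j) (coeff m F)).mul h2
  rw [zero_add] at h5
  exact h5

end Pool.Agent.H1.TC
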