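import Pool.Agent.H1.TC.Values

/-!
# The semialgebraic form of Mazur's conjecture for smooth cyclic triple covers of `(ℙ¹)ⁿ`

Let `n ≥ 1`, and let `F` be a form over `ℚ` of multidegree `(3, …, 3)` on `(ℙ¹)ⁿ` such that the
divisor `F = 0` is smooth, and let `X : w³ = F` be the cyclic triple cover of `(ℙ¹)ⁿ` branched
along this divisor: an elliptic curve for `n = 1`, a K3 surface for `n = 2` and a Calabi-Yau variety
for `n ≥ 3`. We consider the affine charts `w³ = f(z₁, …, z_n)` of `X`. For a subset `J` of
`{1, …, n}` and a point `a` let `X_(J, a)` be the closed subvariety `z_j = a_j`, `j ∈ J`.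

(1) The closure, in `ℝⁿ⁺¹`, of the set of the rational points with `w ≠ 0` is the union of the sets of
the real points of finitely many of the subvarieties `X_(J, a)`, with rational points `a`. (So the
strong form of Mazur's conjecture holds: either the rational points are dense in `X(ℝ)`, or those
with `w ≠ 0` lie on finitely many fibres `z_j = a_j` of the projections; and so on for the fibres.)
In particular it is semialgebraic over `ℚ`.

(2) The closure of the set of all rational points is semialgebraic over `ℚ`, if this holds for the set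
of those with `w = 0` (for instance if there are only finitely many; this is so for `n = 2` by
Faltings' theorem, which is not in Mathlib: the branch curve has genus `4`).

(3) The closure of the set of the values of `m` rational functions, with a common denominator, at the
rational points, `w ≠ 0`, of products of such varieties and of an affine space is semialgebraic over
`ℚ`.

Idea of the proof. Let `A` be a translate of a coordinate subspace such that the rational points of
`X` over `A` are dense in the real points over `A`, and let `e` be a further coordinate direction.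
Let `f(z + s e) = c₀ + c₁ s + c₂ s² + c₃ s³`. The tangent line process on the curve
`w³ = f(z + s e)` of genus one, starting at `s = 0`, does not stop unless `N = 0`, where
`N = H Q (Q² - 3 H³) (2 Q² - 9 H³)` with the covariants `H` and `Q` of the cubic polynomial, and in
this case the rational points are dense in the real points of the curve, since these are connected.
So `A` can be replaced by `A + ℝ e`, unless `N = 0` on `A`. It remains to show that only finitely
many `A` are maximal. By generic smoothness (an extension of the derivations of the field of rational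
functions to its algebraic closure) some coordinate slice of `F = 0` transversal to `A` is smooth,
and on a smooth slice the products `N` for all directions have only finitely many common rational
zeros: together with `F` they have no common complex zeros, since `N` is a constant times a power of
`c₁` if `c₀ = 0`. So by the Nullstellensatz the value of `F` at coprime integral coordinates of such a
zero divides a fixed integer, and it is not small compared with the coordinates.
-/

set_option autoImplicit false

namespace Pool.Agent.H1.TC.SmoothTripleCovers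

open MvPolynomial

/-- Forms of multidegree `(3, …, 3)` in `n` pairs of variables. -/
def IsForm {n : ℕ} (F : MvPolynomial (Fin n × Fin 2) ℚ) : Prop :=
  ∀ m ∈ F.support, ∀ j, m (j, 0) + m (j, 1) = 3

/-- The divisor `F = 0` in `(ℙ¹)ⁿ` is smooth: at each point some partial derivative is not zero.
(If all partial derivatives vanish, then `F` vanishes, by Euler's relation.) -/
def Smooth {n : ℕ} (F : MvPolynomial (Fin n × Fin 2) ℚ) : Prop :=
  ∀ x : Fin n × Fin 2 → ℂ, (∀ j, x (j, 0) ≠ 0 ∨ x (j, 1) ≠ 0) → ∃ p, aeval x (pderiv p F) ≠ 0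

/-- The polynomial `f` of an affine chart: in the pair `j` the variable with the index `ε j` is
replaced by `1`, the other one by `z_j`. -/
noncomputable def chart {n : ℕ} (F : MvPolynomial (Fin n × Fin 2) ℚ) (ε : Fin n → Fin 2) :
    MvPolynomial (Fin n) ℚ :=
  aeval (fun p : Fin n × Fin 2 => if p.2 = ε p.1 then (1 : MvPolynomial (Fin n) ℚ) else X p.1) F

/-- The rational points `(w, z)` of `w³ = f(z)`. -/
def points {n : ℕ} (f : MvPolynomial (Fin n) ℚ) : Set (Fin (n + 1) → ℚ) :=
  {q | q 0 ^ 3 = eval (Fin.tail q) f}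

/-- The real points of `w³ = f(z)`. -/
def realPoints {n : ℕ} (f : MvPolynomial (Fin n) ℚ) : Set (Fin (n + 1) → ℝ) :=
  {x | x 0 ^ 3 = aeval (Fin.tail x) f}

/-- The closure in `ℝᵐ` of a set of rational points. -/
def realClosure {m : ℕ} (S : Set (Fin m → ℚ)) : Set (Fin m → ℝ) :=
  closure {x | ∃ q ∈ S, ∀ i, x i = (q i : ℝ)}

/-- Semialgebraic subsets of `ℝⁿ` defined over `ℚ`. -/
def Semialgebraic {n : ℕ} (S : Set (Fin n → ℝ)) : Prop :=
  ∃ (m : ℕ) (P : Fin m → MvPolynomial (Fin n) ℚ) (G : Fin m → Finset (MvPolynomial (Fin n) ℚ)),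
    S = {x : Fin n → ℝ | ∃ j : Fin m, (aeval x (P j) : ℝ) = 0 ∧
      ∀ g ∈ G j, (0 : ℝ) < aeval x g}

lemma Semialgebraic.sa {n : ℕ} {S : Set (Fin n → ℝ)} (h : Semialgebraic S) :
    Pool.Agent.H581R2.SA S := by
  obtain ⟨m, P, G, rfl⟩ := h
  exact Pool.Agent.H1.TC.SA.of_frozen P G

lemma points_ne {n : ℕ} (f : MvPolynomial (Fin n) ℚ) :
    realClosure {q ∈ points f | q 0 ≠ 0} = closure (Pool.Agent.H1.TC.X0 f) := by
  unfold realClosure
  congr 1
  ext x
  constructor
  · rintro ⟨q, ⟨hq, h0⟩, hx⟩
    exact ⟨q, h0, hq, hx⟩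
  · rintro ⟨q, h0, hq, hx⟩
    exact ⟨q, ⟨hq, h0⟩, hx⟩

/-- **Smooth cyclic triple covers of `(ℙ¹)ⁿ`.** -/
theorem result :
    (∀ (n : ℕ) (F : MvPolynomial (Fin n × Fin 2) ℚ), IsForm F → Smooth F →
      ∀ ε : Fin n → Fin 2,
      -- (1) the closure of the set of the rational points with `w ≠ 0`
      (∃ S : Finset (Finset (Fin n) × (Fin n → ℚ)),
        realClosure {q ∈ points (chart F ε) | q 0 ≠ 0} =
          {x | x ∈ realPoints (chart F ε) ∧
            ∃ s ∈ S, ∀ j ∈ s.1, x j.succ = (s.2 j : ℝ)}) ∧
      Semialgebraic (realClosure {q ∈ points (chart F ε) | q 0 ≠ 0}) ∧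
      -- (2) the closure of the set of all rational points
      (Semialgebraic (realClosure {q ∈ points (chart F ε) | q 0 = 0}) →
        Semialgebraic (realClosure (points (chart F ε))))) ∧
    -- (3) the closure of the set of the values of rational functions on products
    (∀ (J κ : Type) [Finite J] [Finite κ] (n : J → ℕ)
      (F : ∀ j, MvPolynomial (Fin (n j) × Fin 2) ℚ), (∀ j, IsForm (F j) ∧ Smooth (F j)) →
      ∀ (ε : ∀ j, Fin (n j) → Fin 2) (m : ℕ)
        (p : Fin m → MvPolynomial ((Σ j, Fin (n j + 1)) ⊕ κ) ℚ)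
        (q : MvPolynomial ((Σ j, Fin (n j + 1)) ⊕ κ) ℚ),
        Semialgebraic (closure {y : Fin m → ℝ | ∃ x : (Σ j, Fin (n j + 1)) ⊕ κ → ℚ,
          (∀ j, (fun i => x (Sum.inl ⟨j, i⟩)) ∈ points (chart (F j) (ε j)) ∧
            x (Sum.inl ⟨j, 0⟩) ≠ 0) ∧
          eval x q ≠ 0 ∧ ∀ k, y k = ((eval x (p k) / eval x q : ℚ) : ℝ)})) := by
  have key : ∀ (n : ℕ) (F : MvPolynomial (Fin n × Fin 2) ℚ), IsForm F → Smooth F →
      ∀ ε : Fin n → Fin 2, ∃ S : Finset (Finset (Fin n) × (Fin n → ℚ)),
        realClosure {q ∈ points (chart F ε) | q 0 ≠ 0} =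
          {x | x ∈ realPoints (chart F ε) ∧
            ∃ s ∈ S, ∀ j ∈ s.1, x j.succ = (s.2 j : ℝ)} := by
    intro n F hF hs ε
    rw [points_ne]
    exact Pool.Agent.H1.TC.smooth_closure hF hs ε
  have hsa : ∀ (n : ℕ) (F : MvPolynomial (Fin n × Fin 2) ℚ), IsForm F → Smooth F →
      ∀ ε : Fin n → Fin 2, Pool.Agent.H581R2.SA
        (realClosure {q ∈ points (chart F ε) | q 0 ≠ 0}) := by
    intro n F hF hs ε
    obtain ⟨S, hS⟩ := key n F hF hs ε
    rw [hS]
    exact Pool.Agent.H1.TC.SA_coord _ S
  refine ⟨fun n F hF hs ε => ⟨key n F hF hs ε, Pool.Agent.TH729.SQ.SA.frozen (hsa n F hF hs ε),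
    fun h => ?_⟩, ?_⟩
  · have e : realClosure (points (chart F ε)) =
        realClosure {q ∈ points (chart F ε) | q 0 ≠ 0} ∪
          realClosure {q ∈ points (chart F ε) | q 0 = 0} := by
      unfold realClosure
      rw [← closure_union]
      congr 1
      ext x
      constructor
      · rintro ⟨q, hq, hx⟩
        by_cases h0 : q 0 = 0
        · exact Or.inr ⟨q, ⟨hq, h0⟩, hx⟩
        · exact Or.inl ⟨q, ⟨hq, h0⟩, hx⟩
      · rintro (⟨q, ⟨hq, -⟩, hx⟩ | ⟨q, ⟨hq, -⟩, hx⟩)
        · exact ⟨q, hq, hx⟩
        · exact ⟨q, hq, hx⟩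
    rw [e]
    exact Pool.Agent.TH729.SQ.SA.frozen ((hsa n F hF hs ε).union h.sa)
  · intro J κ _ _ n F hF ε m p q
    refine Pool.Agent.TH729.SQ.SA.frozen ?_
    have h1 := Pool.Agent.H1.TC.SA_values (Pool.Agent.H1.TC.SA_cl_prod (κ := κ)
      (fun j => n j + 1) (fun j => {q ∈ points (chart (F j) (ε j)) | q 0 ≠ 0})
      fun j => hsa _ _ (hF j).1 (hF j).2 (ε j)) p q
    exact h1

end Pool.Agent.H1.TC.SmoothTripleCovers
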