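import Pool.Agent.H1.TC.Final

/-!
# All affine charts
-/

set_option autoImplicit false

namespace Pool.Agent.H1.TC

open MvPolynomial

variable {τ : Type}

/-- exchange of the two variables of some pairs -/
def sw (ε : τ → Fin 2) (p : τ × Fin 2) : τ × Fin 2 := (p.1, p.2 - ε p.1)

lemma fin2_sub (b e : Fin 2) : b - e = 0 ↔ b = e := by
  revert b e
  decide

lemma fin2_sub_sub (b e : Fin 2) : b - e - e = b := by
  revert b e
  decide

lemma sw_sw (ε : τ → Fin 2) (p : τ × Fin 2) : sw ε (sw ε p) = p := by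
  rcases p with ⟨j, b⟩
  simp only [sw, fin2_sub_sub]

lemma sw_inj (ε : τ → Fin 2) : Function.Injective (sw ε) := by
  intro p q h
  rw [← sw_sw ε p, h, sw_sw]

lemma chart_sw (ε : τ → Fin 2) (F : MvPolynomial (τ × Fin 2) ℚ) :
    chart (fun _ => 0) (rename (sw ε) F) = chart ε F := by
  have h : ((chart (fun _ => 0)).comp (rename (sw ε))) = chart ε := by
    apply MvPolynomial.algHom_ext
    rintro ⟨j, b⟩
    simp only [chart, AlgHom.comp_apply, rename_X, aeval_X, sw, fin2_sub]
  exact DFunLike.congr_fun h F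

lemma isForm_sw (ε : τ → Fin 2) {F : MvPolynomial (τ × Fin 2) ℚ} (hF : IsForm F) :
    IsForm (rename (sw ε) F) := by
  classical
  intro m hm j
  rw [support_rename_of_injective (sw_inj ε), Finset.mem_image] at hm
  obtain ⟨d, hd, rfl⟩ := hm
  have h1 : ∀ p, Finsupp.mapDomain (sw ε) d p = d (sw ε p) := by
    intro p
    conv_lhs => rw [← sw_sw ε p]
    exact Finsupp.mapDomain_apply (sw_inj ε) _ _
  rw [h1, h1]
  have h2 := hF d hd j
  have h3 : ε j = 0 ∨ ε j = 1 := by
    rcases h : ε j with ⟨v, hv⟩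
    have : v = 0 ∨ v = 1 := by omega
    rcases this with rfl | rfl
    · exact Or.inl rfl
    · exact Or.inr rfl
  rcases h3 with h3 | h3
  · have e0 : sw ε (j, 0) = (j, 0) := by simp [sw, h3]
    have e1 : sw ε (j, 1) = (j, 1) := by simp [sw, h3]
    rw [e0, e1]
    exact h2
  · have e0 : sw ε (j, 0) = (j, 1) := by
        simp only [sw, h3]
        rfl
    have e1 : sw ε (j, 1) = (j, 0) := by simp [sw, h3]
    rw [e0, e1]
    omega

lemma smooth_sw (ε : τ → Fin 2) {F : MvPolynomial (τ × Fin 2) ℚ} (hs : Smooth F) :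
    Smooth (rename (sw ε) F) := by
  intro x hx
  obtain ⟨p, hp⟩ := hs (fun p => x (sw ε p)) (by
    intro j
    have h3 : ε j = 0 ∨ ε j = 1 := by
      rcases h : ε j with ⟨v, hv⟩
      have : v = 0 ∨ v = 1 := by omega
      rcases this with rfl | rfl
      · exact Or.inl rfl
      · exact Or.inr rfl
    rcases h3 with h3 | h3
    · have e0 : sw ε (j, 0) = (j, 0) := by simp [sw, h3]
      have e1 : sw ε (j, 1) = (j, 1) := by simp [sw, h3]
      rw [e0, e1]
      exact hx j
    · have e0 : sw ε (j, 0) = (j, 1) := by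
        simp only [sw, h3]
        rfl
      have e1 : sw ε (j, 1) = (j, 0) := by simp [sw, h3]
      rw [e0, e1]
      exact (hx j).symm)
  refine ⟨sw ε p, ?_⟩
  rw [pderiv_rename (sw_inj ε), aeval_rename]
  exact hp

lemma restriction_chart {n : ℕ} {F : MvPolynomial (Fin n × Fin 2) ℚ} (hF : IsForm F)
    (i : Fin n) (z : Fin n → ℚ) :
    (restriction (chart (fun _ => 0) F) z (Pi.single i 1)).natDegree ≤ 3 := by
  apply natDegree_single
  unfold chart
  rw [MvPolynomial.degreeOf_le_iff]
  intro m hm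
  rw [F.as_sum, map_sum] at hm
  have h1 := MvPolynomial.support_sum hm
  rw [Finset.mem_biUnion] at h1
  obtain ⟨d, hd, hmd⟩ := h1
  have h2 : (aeval (fun p : Fin n × Fin 2 => if p.2 = (0 : Fin 2) then
      (1 : MvPolynomial (Fin n) ℚ) else X p.1)) (monomial d (coeff d F)) =
      C (coeff d F) * ∏ j, X j ^ d (j, 1) := by
    rw [aeval_monomial, Finsupp.prod_fintype _ _ (fun _ => pow_zero _), Fintype.prod_prod_type]
    congr 1
    refine Finset.prod_congr rfl fun j _ => ?_
    rw [Fin.prod_univ_two]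
    simp
  rw [h2] at hmd
  have h3 : (C (coeff d F) * ∏ j, X j ^ d (j, 1) : MvPolynomial (Fin n) ℚ) =
      monomial (∑ j, Finsupp.single j (d (j, 1))) (coeff d F) := by
    have e : (∏ j, X j ^ d (j, 1) : MvPolynomial (Fin n) ℚ) =
        monomial (∑ j, Finsupp.single j (d (j, 1))) 1 := by
      rw [MvPolynomial.monomial_sum_one]
      refine Finset.prod_congr rfl fun j _ => ?_
      rw [X_pow_eq_monomial]
    rw [e, C_mul_monomial, mul_one]
  rw [h3] at hmd
  have h4 := MvPolynomial.support_monomial_subset hmd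
  rw [Finset.mem_singleton] at h4
  have h5 : m i = d (i, 1) := by
    rw [h4, Finsupp.finset_sum_apply, Finset.sum_eq_single i]
    · simp
    · intro k _ hk
      simp [hk]
    · intro h
      exact absurd (Finset.mem_univ i) h
  rw [h5]
  have := hF d hd i
  omega

/-- **the closure for smooth forms**, in all charts -/
theorem smooth_closure {n : ℕ} {F : MvPolynomial (Fin n × Fin 2) ℚ} (hF : IsForm F)
    (hs : Smooth F) (ε : Fin n → Fin 2) :
    ∃ S : Finset (Finset (Fin n) × (Fin n → ℚ)),
      closure (X0 (chart ε F)) =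
        {x | x ∈ XR (chart ε F) ∧ ∃ s ∈ S, ∀ j ∈ s.1, Fin.tail x j = (s.2 j : ℝ)} := by
  rw [← chart_sw]
  exact closure_X0_coord (restriction_chart (isForm_sw ε hF))
    (smooth_finite (isForm_sw ε hF) (smooth_sw ε hs))

end Pool.Agent.H1.TC
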