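import Pool.Agent.H1.TC.Swap

/-!
# Values of rational functions on products
-/

set_option autoImplicit false

open Set Filter Topology

namespace Pool.Agent.H1.TC

open Pool.Agent.H581R2 Pool.Agent.TH729.SQ

/-- the closure of the set of real points given by a set of rational points -/
def cl {ι : Type} (S : Set (ι → ℚ)) : Set (ι → ℝ) := closure {x | ∃ q ∈ S, ∀ i, x i = (q i : ℝ)}

lemma mem_cl {ι : Type} [Fintype ι] {S : Set (ι → ℚ)} {x : ι → ℝ} :
    x ∈ cl S ↔ ∀ ε : ℝ, 0 < ε → ∃ q ∈ S, ∀ i, |x i - (q i : ℝ)| < ε := by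
  unfold cl
  rw [Metric.mem_closure_iff]
  refine forall_congr' fun ε => forall_congr' fun hε => ?_
  constructor
  · rintro ⟨y, ⟨q, hq, hy⟩, hd⟩
    refine ⟨q, hq, fun i => ?_⟩
    have := (dist_pi_lt_iff hε).1 hd i
    rwa [Real.dist_eq, hy] at this
  · rintro ⟨q, hq, h⟩
    refine ⟨fun i => (q i : ℝ), ⟨q, hq, fun i => rfl⟩, (dist_pi_lt_iff hε).2 fun i => ?_⟩
    rw [Real.dist_eq]
    exact h i

/-- the product with an affine space -/
lemma SA_cl_prod {J κ : Type} [Finite J] [Finite κ] (n : J → ℕ)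
    (S : ∀ j, Set (Fin (n j) → ℚ)) (hS : ∀ j, SA (cl (S j))) :
    SA (cl {x : (Σ j, Fin (n j)) ⊕ κ → ℚ | ∀ j, (fun i => x (Sum.inl ⟨j, i⟩)) ∈ S j}) := by
  classical
  have := Fintype.ofFinite J
  have := Fintype.ofFinite κ
  have e : cl {x : (Σ j, Fin (n j)) ⊕ κ → ℚ | ∀ j, (fun i => x (Sum.inl ⟨j, i⟩)) ∈ S j} =
      {x | ∀ j, (fun i => x (Sum.inl ⟨j, i⟩)) ∈ cl (S j)} := by
    ext x
    constructor
    · intro hx j
      rw [mem_cl] at hx ⊢
      intro ε hε
      obtain ⟨q, hq, h⟩ := hx ε hε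
      exact ⟨_, hq j, fun i => h _⟩
    · intro hx
      rw [mem_cl]
      intro ε hε
      have h1 : ∀ j, ∃ q ∈ S j, ∀ i, |x (Sum.inl ⟨j, i⟩) - (q i : ℝ)| < ε := fun j =>
        mem_cl.1 (hx j) ε hε
      choose q hq h using h1
      have h2 : ∀ k, ∃ r : ℚ, |x (Sum.inr k) - (r : ℝ)| < ε := by
        intro k
        obtain ⟨r, h1, h2⟩ := exists_rat_btwn (show x (Sum.inr k) - ε < x (Sum.inr k) by linarith)
        refine ⟨r, ?_⟩
        rw [abs_lt]
        constructor <;> linarith
      choose r hr using h2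
      refine ⟨Sum.elim (fun a => q a.1 a.2) r, fun j => hq j, ?_⟩
      rintro (⟨j, i⟩ | k)
      · exact h j i
      · exact hr k
  rw [e]
  exact SAP.forall_fin fun j => (hS j).preimage
    (φ := fun (x : (Σ j, Fin (n j)) ⊕ κ → ℝ) i => x (Sum.inl ⟨j, i⟩)) fun i => PF.coord _

/-- values of rational functions -/
lemma SA_values {ι : Type} [Finite ι] {S : Set (ι → ℚ)} (hS : SA (cl S)) {m : ℕ}
    (p : Fin m → MvPolynomial ι ℚ) (q : MvPolynomial ι ℚ) :
    SA (closure {y : Fin m → ℝ | ∃ x ∈ S, MvPolynomial.eval x q ≠ 0 ∧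
      ∀ k, y k = ((MvPolynomial.eval x (p k) / MvPolynomial.eval x q : ℚ) : ℝ)}) := by
  classical
  have := Fintype.ofFinite ι
  have hcast : ∀ (r : MvPolynomial ι ℚ) (x : ι → ℚ),
      (MvPolynomial.aeval (fun i => (x i : ℝ)) r : ℝ) = ((MvPolynomial.eval x r : ℚ) : ℝ) := by
    intro r x
    induction r using MvPolynomial.induction_on with
    | C a => simp
    | add f g hf hg => simp only [map_add, hf, hg, Rat.cast_add]
    | mul_X f i hf =>
      simp only [map_mul, MvPolynomial.aeval_X, hf, MvPolynomial.eval_X, Rat.cast_mul]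
  have hcont : ∀ r : MvPolynomial ι ℚ,
      Continuous fun x : ι → ℝ => (MvPolynomial.aeval x r : ℝ) := by
    intro r
    induction r using MvPolynomial.induction_on with
    | C a =>
      simp only [MvPolynomial.aeval_C]
      exact continuous_const
    | add f g hf hg =>
      simp only [map_add]
      exact hf.add hg
    | mul_X f i hf =>
      simp only [map_mul, MvPolynomial.aeval_X]
      exact hf.mul (continuous_apply i)
  have h1 := SA.closure (SA.image_rat hS p q)
  refine cast ?_ h1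
  congr 1
  apply Subset.antisymm
  · refine closure_minimal ?_ isClosed_closure
    rintro y ⟨x, hx, hq, hy⟩
    -- a neighbourhood of the point
    have hc : ContinuousAt (fun x : ι → ℝ => fun k : Fin m =>
        (MvPolynomial.aeval x (p k) : ℝ) / MvPolynomial.aeval x q) x := by
      refine continuousAt_pi.2 fun k => ?_
      exact ((hcont (p k)).continuousAt).div ((hcont q).continuousAt) hq
    have hy' : y = fun k : Fin m => (MvPolynomial.aeval x (p k) : ℝ) / MvPolynomial.aeval x q :=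
      funext hy
    rw [mem_closure_iff_nhds]
    intro U hU
    rw [hy'] at hU
    have h2 := hc.preimage_mem_nhds hU
    have h3 : {x : ι → ℝ | (MvPolynomial.aeval x q : ℝ) ≠ 0} ∈ 𝓝 x :=
      (isOpen_ne_fun (hcont q) continuous_const).mem_nhds hq
    obtain ⟨x', ⟨hx'1, hx'2⟩, r, hr, hx'⟩ := mem_closure_iff_nhds.1 hx _
      (Filter.inter_mem h2 h3)
    have hx'e : x' = fun i => (r i : ℝ) := funext hx'
    refine ⟨_, hx'1, r, hr, ?_, fun k => ?_⟩
    · intro h0
      apply hx'2
      rw [hx'e, hcast, h0, Rat.cast_zero]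
    · simp only
      rw [hx'e, hcast, hcast, Rat.cast_div]
  · refine closure_mono ?_
    rintro y ⟨x, hx, hq, hy⟩
    refine ⟨fun i => (x i : ℝ), subset_closure ⟨x, hx, fun i => rfl⟩, ?_, fun k => ?_⟩
    · rw [hcast]
      exact_mod_cast hq
    · rw [hcast, hcast, hy, Rat.cast_div]

end Pool.Agent.H1.TC
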