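import Pool.Agent.H1.TC.Semi

/-!
# Cyclic triple covers `w³ = f(z)`: Zariski dense rational points are dense
-/

set_option autoImplicit false

open Set Filter Topology

namespace Pool.Agent.H1.TC

variable {n : ℕ}

/-! ### Algebra -/

section algebra

variable (c0 c1 c2 c3 s : ℚ)

/-- the coefficients after a translation -/
def d0 : ℚ := c0 + c1 * s + c2 * s ^ 2 + c3 * s ^ 3
def d1 : ℚ := c1 + 2 * c2 * s + 3 * c3 * s ^ 2
def d2 : ℚ := c2 + 3 * c3 * s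

/-- the Hessian of a cubic polynomial -/
def Hc : ℚ := c1 ^ 2 - 3 * c0 * c2
/-- the cubic covariant of a cubic polynomial -/
def Qc : ℚ := 2 * c1 ^ 3 - 9 * c0 * c1 * c2 + 27 * c0 ^ 2 * c3
/-- the discriminant -/
def Dc : ℚ := c1 ^ 2 * c2 ^ 2 - 4 * c0 * c2 ^ 3 - 4 * c1 ^ 3 * c3 + 18 * c0 * c1 * c2 * c3 -
  27 * c0 ^ 2 * c3 ^ 2

/-- the second coefficient of the Hessian -/
def H1c : ℚ := c1 * c2 - 9 * c0 * c3
def H2c : ℚ := c2 ^ 2 - 3 * c1 * c3
def Q1c : ℚ := 3 * (c1 ^ 2 * c2 + 9 * c0 * c1 * c3 - 6 * c0 * c2 ^ 2)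
def Q2c : ℚ := -3 * (c1 * c2 ^ 2 + 9 * c0 * c2 * c3 - 6 * c1 ^ 2 * c3)
def Q3c : ℚ := -(2 * c2 ^ 3 - 9 * c1 * c2 * c3 + 27 * c0 * c3 ^ 2)

lemma Hc_shift : Hc (d0 c0 c1 c2 c3 s) (d1 c1 c2 c3 s) (d2 c2 c3 s) =
    Hc c0 c1 c2 + H1c c0 c1 c2 c3 * s + H2c c1 c2 c3 * s ^ 2 := by
  unfold Hc H1c H2c d0 d1 d2
  ring

lemma Qc_shift : Qc (d0 c0 c1 c2 c3 s) (d1 c1 c2 c3 s) (d2 c2 c3 s) c3 =
    Qc c0 c1 c2 c3 + Q1c c0 c1 c2 c3 * s + Q2c c0 c1 c2 c3 * s ^ 2 + Q3c c0 c1 c2 c3 * s ^ 3 := by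
  unfold Qc Q1c Q2c Q3c d0 d1 d2
  ring

lemma syz : 4 * Hc c0 c1 c2 ^ 3 = Qc c0 c1 c2 c3 ^ 2 + 27 * Dc c0 c1 c2 c3 * c0 ^ 2 := by
  unfold Hc Qc Dc
  ring

lemma Dc_shift : Dc (d0 c0 c1 c2 c3 s) (d1 c1 c2 c3 s) (d2 c2 c3 s) c3 = Dc c0 c1 c2 c3 := by
  unfold Dc d0 d1 d2
  ring

lemma hess_Q : Q1c c0 c1 c2 c3 ^ 2 - 3 * Qc c0 c1 c2 c3 * Q2c c0 c1 c2 c3 =
    27 * Dc c0 c1 c2 c3 * Hc c0 c1 c2 := by
  unfold Q1c Qc Q2c Dc Hc
  ring

lemma Q_of_H : Qc c0 c1 c2 c3 = 2 * c1 * Hc c0 c1 c2 - 3 * c0 * H1c c0 c1 c2 c3 := by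
  unfold Qc Hc H1c
  ring

lemma PolyFun.mul_eq_zero {φ ψ : ℚ → ℚ} (h : PolyFun φ) (h' : PolyFun ψ)
    (h0 : ∀ t, φ t * ψ t = 0) : (∀ t, φ t = 0) ∨ ∀ t, ψ t = 0 := by
  obtain ⟨P, hP⟩ := h
  obtain ⟨Q, hQ⟩ := h'
  have h1 : P * Q = 0 := by
    apply Polynomial.funext
    intro t
    rw [Polynomial.eval_mul, ← hP, ← hQ, h0, Polynomial.eval_zero]
  rcases _root_.mul_eq_zero.1 h1 with h2 | h2
  · exact Or.inl fun t => by rw [hP, h2, Polynomial.eval_zero]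
  · exact Or.inr fun t => by rw [hQ, h2, Polynomial.eval_zero]

lemma PolyFun.id : PolyFun fun t => t := ⟨Polynomial.X, fun t => by simp⟩

lemma sq_coeffs {a b c d a' b' c' d' μ : ℚ}
    (h : ∀ s : ℚ, (a + b * s + c * s ^ 2 + d * s ^ 3) ^ 2 =
      μ * (a' + b' * s + c' * s ^ 2 + d' * s ^ 3) ^ 2) :
    a ^ 2 = μ * a' ^ 2 ∧ a * b = μ * (a' * b') ∧ b ^ 2 + 2 * (a * c) =
      μ * (b' ^ 2 + 2 * (a' * c')) := by
  refine ⟨?_, ?_, ?_⟩
  · linear_combination h 0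
  · linear_combination (45 * (h 1 - h (-1)) - 9 * (h 2 - h (-2)) + (h 3 - h (-3))) / 120
  · linear_combination (270 * (h 1 + h (-1)) - 27 * (h 2 + h (-2)) + 2 * (h 3 + h (-3)) -
      490 * h 0) / 360

variable {c0 c1 c2 c3}

lemma fin_case {μ : ℚ} (hμ : μ ≠ 27) (hμ0 : μ ≠ 0)
    (h : ∀ s : ℚ, (Qc c0 c1 c2 c3 + Q1c c0 c1 c2 c3 * s + Q2c c0 c1 c2 c3 * s ^ 2 +
      Q3c c0 c1 c2 c3 * s ^ 3) ^ 2 = μ * Dc c0 c1 c2 c3 *
        (c0 + c1 * s + c2 * s ^ 2 + c3 * s ^ 3) ^ 2) :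
    Dc c0 c1 c2 c3 = 0 ∨ c0 = 0 ∨ Hc c0 c1 c2 = 0 := by
  by_contra hcon
  push Not at hcon
  obtain ⟨hD, hc, hH⟩ := hcon
  obtain ⟨h1, h2, h3⟩ := sq_coeffs h
  have h4 := hess_Q c0 c1 c2 c3
  set Q := Qc c0 c1 c2 c3
  set Q1 := Q1c c0 c1 c2 c3
  set Q2 := Q2c c0 c1 c2 c3
  set D := Dc c0 c1 c2 c3
  have h5 : Q1 ^ 2 = μ * D * c1 ^ 2 := by
    have h6 : μ * D * c0 ^ 2 * Q1 ^ 2 = μ * D * c0 ^ 2 * (μ * D * c1 ^ 2) := by
      rw [← h1]
      have : Q ^ 2 * Q1 ^ 2 = (Q * Q1) ^ 2 := by ring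
      rw [this, h2]
      linear_combination -(μ * D * c1 ^ 2) * h1
    exact mul_left_cancel₀ (mul_ne_zero (mul_ne_zero hμ0 hD) (pow_ne_zero 2 hc)) h6
  have h7 : Q * Q2 = μ * D * (c0 * c2) := by linear_combination (h3 - h5) / 2
  have h8 : (μ - 27) * D * Hc c0 c1 c2 = 0 := by
    have : Hc c0 c1 c2 = c1 ^ 2 - 3 * c0 * c2 := rfl
    linear_combination h4 - h5 + 3 * h7 + μ * D * this
  rcases mul_eq_zero.1 h8 with h9 | h9
  · rcases mul_eq_zero.1 h9 with h10 | h10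
    · exact hμ (by linarith)
    · exact hD h10
  · exact hH h9

/-- **a cubic polynomial for which the product vanishes identically is a constant times a cube** -/
theorem nonfree (h : ∀ s : ℚ, Hc (d0 c0 c1 c2 c3 s) (d1 c1 c2 c3 s) (d2 c2 c3 s) *
      Qc (d0 c0 c1 c2 c3 s) (d1 c1 c2 c3 s) (d2 c2 c3 s) c3 *
      (Qc (d0 c0 c1 c2 c3 s) (d1 c1 c2 c3 s) (d2 c2 c3 s) c3 ^ 2 -
        3 * Hc (d0 c0 c1 c2 c3 s) (d1 c1 c2 c3 s) (d2 c2 c3 s) ^ 3) *
      (2 * Qc (d0 c0 c1 c2 c3 s) (d1 c1 c2 c3 s) (d2 c2 c3 s) c3 ^ 2 -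
        9 * Hc (d0 c0 c1 c2 c3 s) (d1 c1 c2 c3 s) (d2 c2 c3 s) ^ 3) = 0) :
    Hc c0 c1 c2 = 0 ∧ Qc c0 c1 c2 c3 = 0 := by
  have hs := syz c0 c1 c2 c3
  have hss : ∀ s : ℚ, 4 * Hc (d0 c0 c1 c2 c3 s) (d1 c1 c2 c3 s) (d2 c2 c3 s) ^ 3 =
      Qc (d0 c0 c1 c2 c3 s) (d1 c1 c2 c3 s) (d2 c2 c3 s) c3 ^ 2 + 27 * Dc c0 c1 c2 c3 *
        (c0 + c1 * s + c2 * s ^ 2 + c3 * s ^ 3) ^ 2 := by
    intro s
    have := syz (d0 c0 c1 c2 c3 s) (d1 c1 c2 c3 s) (d2 c2 c3 s) c3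
    rw [Dc_shift] at this
    exact this
  simp only [Hc_shift, Qc_shift] at h hss
  set H := Hc c0 c1 c2 with hH
  set H1 := H1c c0 c1 c2 c3 with hH1
  set H2 := H2c c1 c2 c3
  set Q := Qc c0 c1 c2 c3 with hQ
  set Q1 := Q1c c0 c1 c2 c3 with hQ1
  set Q2 := Q2c c0 c1 c2 c3 with hQ2
  set Q3 := Q3c c0 c1 c2 c3 with hQ3
  set D := Dc c0 c1 c2 c3 with hD
  have pH : PolyFun fun s => H + H1 * s + H2 * s ^ 2 :=
    ((PolyFun.const H).add ((PolyFun.const H1).mul PolyFun.id)).add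
      ((PolyFun.const H2).mul (PolyFun.id.pow 2))
  have pQ : PolyFun fun s => Q + Q1 * s + Q2 * s ^ 2 + Q3 * s ^ 3 :=
    (((PolyFun.const Q).add ((PolyFun.const Q1).mul PolyFun.id)).add
      ((PolyFun.const Q2).mul (PolyFun.id.pow 2))).add ((PolyFun.const Q3).mul (PolyFun.id.pow 3))
  have p3 := (pQ.pow 2).sub ((PolyFun.const 3).mul (pH.pow 3))
  have p4 := ((PolyFun.const 2).mul (pQ.pow 2)).sub ((PolyFun.const 9).mul (pH.pow 3))
  rcases ((pH.mul pQ).mul p3).mul_eq_zero p4 h with h' | h4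
  · rcases (pH.mul pQ).mul_eq_zero p3 h' with h'' | h3
    · rcases pH.mul_eq_zero pQ h'' with h1 | h2
      · have e0 : H = 0 := by linear_combination h1 0
        have e1 : H1 = 0 := by linear_combination (h1 1 - h1 (-1)) / 2
        refine ⟨e0, ?_⟩
        have := Q_of_H c0 c1 c2 c3
        rw [← hQ, ← hH, ← hH1, e0, e1] at this
        rw [this]
        ring
      · have e0 : Q = 0 := by linear_combination h2 0
        have e2 : Q2 = 0 := by linear_combination (h2 1 + h2 (-1)) / 2 - h2 0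
        have e1 : Q1 = 0 := by
          linear_combination (8 * (h2 1 - h2 (-1)) - (h2 2 - h2 (-2))) / 12
        have h5 := hess_Q c0 c1 c2 c3
        rw [← hQ1, ← hQ2, ← hQ, ← hD, ← hH, e0, e1, e2] at h5
        refine ⟨?_, e0⟩
        have h6 : D * H = 0 := by linarith
        rcases mul_eq_zero.1 h6 with h7 | h7
        · rw [e0, h7] at hs
          have : H ^ 3 = 0 := by linarith
          exact pow_eq_zero_iff (by norm_num) |>.1 this
        · exact h7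
    · have e0 : Q ^ 2 = 3 * H ^ 3 := by linear_combination h3 0
      have h6 := fin_case (c0 := c0) (c1 := c1) (c2 := c2) (c3 := c3) (μ := 81) (by norm_num)
        (by norm_num) (fun s => by linear_combination 4 * h3 s + 3 * hss s)
      have h7 : H = 0 := by
        rcases h6 with h6 | h6 | h6
        · rw [← hD] at h6
          rw [h6] at hs
          have : H ^ 3 = 0 := by linarith
          exact pow_eq_zero_iff (by norm_num) |>.1 this
        · rw [h6] at hs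
          have : H ^ 3 = 0 := by linarith
          exact pow_eq_zero_iff (by norm_num) |>.1 this
        · exact h6
      refine ⟨h7, ?_⟩
      rw [h7] at e0
      have : Q ^ 2 = 0 := by linarith
      exact pow_eq_zero_iff (by norm_num) |>.1 this
  · have e0 : 2 * Q ^ 2 = 9 * H ^ 3 := by linear_combination h4 0
    have h6 := fin_case (c0 := c0) (c1 := c1) (c2 := c2) (c3 := c3) (μ := -243) (by norm_num)
      (by norm_num) (fun s => by linear_combination -4 * h4 s - 9 * hss s)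
    have h7 : H = 0 := by
      rcases h6 with h6 | h6 | h6
      · rw [← hD] at h6
        rw [h6] at hs
        have : H ^ 3 = 0 := by linarith
        exact pow_eq_zero_iff (by norm_num) |>.1 this
      · rw [h6] at hs
        have : H ^ 3 = 0 := by linarith
        exact pow_eq_zero_iff (by norm_num) |>.1 this
      · exact h6
    refine ⟨h7, ?_⟩
    rw [h7] at e0
    have : Q ^ 2 = 0 := by linarith
    exact pow_eq_zero_iff (by norm_num) |>.1 this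

end algebra

/-! ### Translations -/

lemma restriction_shift (f : MvPolynomial (Fin n) ℚ) (z v : Fin n → ℚ) (s : ℚ) :
    restriction f (z + s • v) v = (restriction f z v).comp (Polynomial.X + Polynomial.C s) := by
  apply Polynomial.funext
  intro t
  rw [restriction_eval, Polynomial.eval_comp, restriction_eval]
  simp only [Polynomial.eval_add, Polynomial.eval_X, Polynomial.eval_C]
  have h : z + s • v + t • v = z + (t + s) • v := by
    rw [add_smul]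
    abel
  rw [h]

lemma coeff_cubic (a b c d : ℚ) :
    let r : Polynomial ℚ := Polynomial.C a + Polynomial.C b * Polynomial.X +
      Polynomial.C c * Polynomial.X ^ 2 + Polynomial.C d * Polynomial.X ^ 3
    r.coeff 0 = a ∧ r.coeff 1 = b ∧ r.coeff 2 = c ∧ r.coeff 3 = d := by
  intro r
  refine ⟨?_, ?_, ?_, ?_⟩ <;>
  simp [r, Polynomial.coeff_X, Polynomial.coeff_C, Polynomial.coeff_X_pow]

lemma cf_shift {f : MvPolynomial (Fin n) ℚ} {z v : Fin n → ℚ}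
    (hd : (restriction f z v).natDegree ≤ 3) (s : ℚ) :
    cf f (z + s • v) v 0 = d0 (cf f z v 0) (cf f z v 1) (cf f z v 2) (cf f z v 3) s ∧
    cf f (z + s • v) v 1 = d1 (cf f z v 1) (cf f z v 2) (cf f z v 3) s ∧
    cf f (z + s • v) v 2 = d2 (cf f z v 2) (cf f z v 3) s ∧
    cf f (z + s • v) v 3 = cf f z v 3 := by
  set c0 := cf f z v 0 with h0
  set c1 := cf f z v 1 with h1
  set c2 := cf f z v 2 with h2
  set c3 := cf f z v 3 with h3
  have hr : restriction f z v = Polynomial.C c0 + Polynomial.C c1 * Polynomial.X +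
      Polynomial.C c2 * Polynomial.X ^ 2 + Polynomial.C c3 * Polynomial.X ^ 3 := by
    rw [(restriction f z v).as_sum_range' 4 (by omega)]
    simp only [Finset.sum_range_succ, Finset.sum_range_zero, ← Polynomial.C_mul_X_pow_eq_monomial]
    rw [h0, h1, h2, h3]
    unfold cf
    ring
  have hs : restriction f (z + s • v) v = Polynomial.C (d0 c0 c1 c2 c3 s) +
      Polynomial.C (d1 c1 c2 c3 s) * Polynomial.X +
      Polynomial.C (d2 c2 c3 s) * Polynomial.X ^ 2 + Polynomial.C c3 * Polynomial.X ^ 3 := by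
    rw [restriction_shift, hr]
    simp only [Polynomial.add_comp, Polynomial.mul_comp, Polynomial.C_comp, Polynomial.X_comp,
      Polynomial.pow_comp]
    unfold d0 d1 d2
    simp only [Polynomial.C_add, Polynomial.C_mul, Polynomial.C_pow]
    have e2 : (Polynomial.C (2 : ℚ)) = 2 := rfl
    have e3 : (Polynomial.C (3 : ℚ)) = 3 := rfl
    rw [e2, e3]
    ring
  have := coeff_cubic (d0 c0 c1 c2 c3 s) (d1 c1 c2 c3 s) (d2 c2 c3 s) c3
  simp only at this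
  rw [← hs] at this
  exact this

theorem exists_covN_ne {f : MvPolynomial (Fin n) ℚ} {v : Fin n → ℚ}
    (hd : ∀ z, (restriction f z v).natDegree ≤ 3)
    (hv : ∃ p, covH f p v ≠ 0 ∨ covQ f p v ≠ 0) : ∃ z, covN f z v ≠ 0 := by
  by_contra hcon
  push Not at hcon
  obtain ⟨p, hp⟩ := hv
  have h1 : Hc (cf f p v 0) (cf f p v 1) (cf f p v 2) = 0 ∧
      Qc (cf f p v 0) (cf f p v 1) (cf f p v 2) (cf f p v 3) = 0 := by
    apply nonfree
    intro s
    obtain ⟨e0, e1, e2, e3⟩ := cf_shift (hd p) s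
    have h2 := hcon (p + s • v)
    unfold covN covH covQ at h2
    rw [e0, e1, e2, e3] at h2
    exact h2
  rcases hp with hp | hp
  · exact hp h1.1
  · exact hp h1.2

/-! ### Polynomial functions on `ℚⁿ` -/

/-- functions given by polynomials -/
def MPF (φ : (Fin n → ℚ) → ℚ) : Prop := ∃ P : MvPolynomial (Fin n) ℚ, ∀ z, φ z =
  MvPolynomial.eval z P

lemma MPF.add {φ ψ : (Fin n → ℚ) → ℚ} (h : MPF φ) (h' : MPF ψ) : MPF fun t => φ t + ψ t := by
  obtain ⟨P, hP⟩ := h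
  obtain ⟨Q, hQ⟩ := h'
  exact ⟨P + Q, fun t => by simp only [map_add, hP, hQ]⟩
lemma MPF.sub {φ ψ : (Fin n → ℚ) → ℚ} (h : MPF φ) (h' : MPF ψ) : MPF fun t => φ t - ψ t := by
  obtain ⟨P, hP⟩ := h
  obtain ⟨Q, hQ⟩ := h'
  exact ⟨P - Q, fun t => by simp only [map_sub, hP, hQ]⟩
lemma MPF.mul {φ ψ : (Fin n → ℚ) → ℚ} (h : MPF φ) (h' : MPF ψ) : MPF fun t => φ t * ψ t := by
  obtain ⟨P, hP⟩ := h
  obtain ⟨Q, hQ⟩ := h'
  exact ⟨P * Q, fun t => by simp only [map_mul, hP, hQ]⟩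
lemma MPF.pow {φ : (Fin n → ℚ) → ℚ} (h : MPF φ) (k : ℕ) : MPF fun t => φ t ^ k := by
  obtain ⟨P, hP⟩ := h
  exact ⟨P ^ k, fun t => by simp only [map_pow, hP]⟩
lemma MPF.const (a : ℚ) : MPF fun _ : Fin n → ℚ => a := ⟨MvPolynomial.C a, fun t => by simp⟩

lemma cf_mpf (f : MvPolynomial (Fin n) ℚ) (v : Fin n → ℚ) :
    ∀ k, MPF fun z => cf f z v k := by
  induction f using MvPolynomial.induction_on with
  | C a =>
    intro k
    simp only [cf_C]
    exact MPF.const _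
  | add p q hp hq =>
    intro k
    simp only [cf_add]
    exact (hp k).add (hq k)
  | mul_X p i hp =>
    intro k
    simp only [cf_mul_X]
    refine ((hp k).mul ⟨MvPolynomial.X i, fun z => by simp⟩).add ?_
    split_ifs
    · exact MPF.const _
    · exact (hp _).mul (MPF.const _)

lemma covN_mpf (f : MvPolynomial (Fin n) ℚ) (v : Fin n → ℚ) : MPF fun z => covN f z v := by
  have h0 := cf_mpf f v 0
  have h1 := cf_mpf f v 1
  have h2 := cf_mpf f v 2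
  have h3 := cf_mpf f v 3
  have hH : MPF fun z => covH f z v :=
    (h1.pow 2).sub (((MPF.const 3).mul h0).mul h2)
  have hQ : MPF fun z => covQ f z v :=
    (((MPF.const 2).mul (h1.pow 3)).sub ((((MPF.const 9).mul h0).mul h1).mul h2)).add
      (((MPF.const 27).mul (h0.pow 2)).mul h3)
  exact ((hH.mul hQ).mul ((hQ.pow 2).sub ((MPF.const 3).mul (hH.pow 3)))).mul
    (((MPF.const 2).mul (hQ.pow 2)).sub ((MPF.const 9).mul (hH.pow 3)))

/-- for every set of directions, an explicit nonzero polynomial -/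
theorem exists_poly {f : MvPolynomial (Fin n) ℚ} (hf : f ≠ 0) {W : Set (Fin n → ℚ)}
    (hW : W.Finite) (hd : ∀ v ∈ W, ∀ z, (restriction f z v).natDegree ≤ 3) :
    ∃ g : MvPolynomial (Fin n) ℚ, g ≠ 0 ∧ ∀ z, MvPolynomial.eval z g ≠ 0 →
      MvPolynomial.eval z f ≠ 0 ∧
      ∀ v ∈ W, covN f z v ≠ 0 ∨ ∀ p, covH f p v = 0 ∧ covQ f p v = 0 := by
  induction W, hW using Set.Finite.induction_on with
  | empty => exact ⟨f, hf, fun z hz => ⟨hz, fun v hv => absurd hv (notMem_empty v)⟩⟩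
  | @insert v W _ _ ih =>
    obtain ⟨g, hg, h1⟩ := ih fun v hv => hd v (mem_insert_of_mem _ hv)
    by_cases hv : ∃ p, covH f p v ≠ 0 ∨ covQ f p v ≠ 0
    · obtain ⟨z0, hz0⟩ := exists_covN_ne (hd v (mem_insert _ _)) hv
      obtain ⟨G, hG⟩ := covN_mpf f v
      beta_reduce at hG
      refine ⟨g * G, mul_ne_zero hg ?_, fun z hz => ?_⟩
      · rintro rfl
        apply hz0
        rw [hG, map_zero]
      · rw [map_mul] at hz
        obtain ⟨h2, h3⟩ := h1 z (left_ne_zero_of_mul hz)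
        refine ⟨h2, fun u hu => ?_⟩
        rcases mem_insert_iff.1 hu with rfl | hu
        · left
          rw [hG]
          exact right_ne_zero_of_mul hz
        · exact h3 u hu
    · push Not at hv
      refine ⟨g, hg, fun z hz => ?_⟩
      obtain ⟨h2, h3⟩ := h1 z hz
      refine ⟨h2, fun u hu => ?_⟩
      rcases mem_insert_iff.1 hu with rfl | hu
      · exact Or.inr hv
      · exact h3 u hu

/-- **a dichotomy** -/
theorem dichotomy {f : MvPolynomial (Fin n) ℚ} (hf : f ≠ 0) {V : Set (Fin n → ℚ)}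
    (hV : Submodule.span ℚ V = ⊤)
    (hd : ∀ v ∈ V, ∀ z, (restriction f z v).natDegree ≤ 3) :
    closure (XQ f) = XR f ∨ ∃ g : MvPolynomial (Fin n) ℚ, g ≠ 0 ∧
      ∀ z ∈ cubes f, MvPolynomial.eval z g = 0 := by
  obtain ⟨W, hWV, hspan, hli⟩ := exists_linearIndependent ℚ V
  have hWfin : W.Finite := hli.setFinite
  obtain ⟨g, hg, h1⟩ := exists_poly hf hWfin fun v hv => hd v (hWV hv)
  by_cases h : ∃ z ∈ cubes f, MvPolynomial.eval z g ≠ 0
  · left
    obtain ⟨z, ⟨w, hw⟩, hz⟩ := h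
    obtain ⟨h2, h3⟩ := h1 z hz
    have hzc : z ∈ cubeSet f := by
      refine ⟨w, ?_, hw⟩
      rintro rfl
      apply h2
      rw [← hw]
      ring
    apply closure_eq_XR
    rw [cubes_eq, rc_union, dense_of_point (V := W) (hspan.trans hV)
      (fun v hv => hd v (hWV hv)) hzc h3, univ_union]
  · push Not at h
    exact Or.inr ⟨g, hg, h⟩

end Pool.Agent.H1.TC
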